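import Mathlib
import Pool.Agent.W936.VN.Mat1

/-!
Matrices built along a line with a bounded number of ports.
-/

set_option autoImplicit false

namespace Pool.Agent.W936.SS

open MvPolynomial Matrix

variable {R n : ℕ}

/-- Descriptions of square matrices with `R` ports (indices of the matrix).
* `start`: the zero matrix of order `R`, all of whose indices are ports.
* `add i j g`: adds `g` to the entry in the row of port `i` and the column of port `j`.
* `col i j g`: adds to the column of port `i` the `g`-fold of the column of port `j` (for `i = j`,
  the column is multiplied by `1 + g`).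
* `row i j g`: adds to the row of port `i` the `g`-fold of the row of port `j`.
* `next i`: a new row and a new column with zero entries, whose index becomes the port `i`; the
  previous index of port `i` is no longer a port. -/
inductive Strip (R n : ℕ) : Type
  | start : Strip R n
  | add (i j : Fin R) (g : MvPolynomial (Fin n) ℂ) (T : Strip R n) : Strip R n
  | col (i j : Fin R) (g : MvPolynomial (Fin n) ℂ) (T : Strip R n) : Strip R n
  | row (i j : Fin R) (g : MvPolynomial (Fin n) ℂ) (T : Strip R n) : Strip R n
  | next (i : Fin R) (T : Strip R n) : Strip R n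

/-- the order of the matrix -/
def Strip.order : Strip R n → ℕ
  | .start => R
  | .add _ _ _ T => T.order
  | .col _ _ _ T => T.order
  | .row _ _ _ T => T.order
  | .next _ T => T.order + 1

/-- the ports -/
def Strip.port : Strip R n → Fin R → ℕ
  | .start => fun i => i
  | .add _ _ _ T => T.port
  | .col _ _ _ T => T.port
  | .row _ _ _ T => T.port
  | .next i T => Function.update T.port i T.order

/-- the entries of the matrix -/
noncomputable def Strip.entry : Strip R n → ℕ → ℕ → MvPolynomial (Fin n) ℂ
  | .start => fun _ _ => 0
  | .add i j g T => fun a b => T.entry a b + if a = T.port i ∧ b = T.port j then g else 0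
  | .col i j g T => fun a b => T.entry a b + if b = T.port i then g * T.entry a (T.port j) else 0
  | .row i j g T => fun a b => T.entry a b + if a = T.port i then g * T.entry (T.port j) b else 0
  | .next _ T => T.entry

/-- the matrix -/
noncomputable def Strip.mat (T : Strip R n) :
    Matrix (Fin T.order) (Fin T.order) (MvPolynomial (Fin n) ℂ) :=
  Matrix.of fun a b => T.entry a b

/-- all polynomials of the description have the property `L` -/
def Strip.Entries (L : MvPolynomial (Fin n) ℂ → Prop) : Strip R n → Prop
  | .start => True
  | .add _ _ g T => L g ∧ T.Entries L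
  | .col _ _ g T => L g ∧ T.Entries L
  | .row _ _ g T => L g ∧ T.Entries L
  | .next _ T => T.Entries L

open Classical in
/-- the number of polynomials of the description in which the variable `x` occurs -/
noncomputable def Strip.reads : Strip R n → Fin n → ℕ
  | .start, _ => 0
  | .add _ _ g T, x => T.reads x + if x ∈ g.vars then 1 else 0
  | .col _ _ g T, x => T.reads x + if x ∈ g.vars then 1 else 0
  | .row _ _ g T, x => T.reads x + if x ∈ g.vars then 1 else 0
  | .next _ T, x => T.reads x

theorem port_lt (T : Strip R n) (i : Fin R) : T.port i < T.order := by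
  induction T with
  | start => exact i.2
  | add _ _ _ T ih => exact ih
  | col _ _ _ T ih => exact ih
  | row _ _ _ T ih => exact ih
  | next j T ih =>
    show Function.update T.port j T.order i < T.order + 1
    by_cases h : i = j
    · rw [h, Function.update_self]
      exact Nat.lt_succ_self _
    · rw [Function.update_of_ne h]
      exact ih.trans (Nat.lt_succ_self _)

theorem port_inj (T : Strip R n) : Function.Injective T.port := by
  induction T with
  | start => exact fun i j h => Fin.ext h
  | add _ _ _ T ih => exact ih
  | col _ _ _ T ih => exact ih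
  | row _ _ _ T ih => exact ih
  | next j T ih =>
    intro a b hab
    change Function.update T.port j T.order a = Function.update T.port j T.order b at hab
    by_cases h : a = j
    · by_cases h' : b = j
      · rw [h, h']
      · rw [h, Function.update_self, Function.update_of_ne h'] at hab
        exact absurd hab (port_lt T b).ne'
    · by_cases h' : b = j
      · rw [h', Function.update_self, Function.update_of_ne h] at hab
        exact absurd hab (port_lt T a).ne
      · rw [Function.update_of_ne h, Function.update_of_ne h'] at hab
        exact ih hab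

/-- the port as an index -/
def Strip.pt (T : Strip R n) (i : Fin R) : Fin T.order := ⟨T.port i, port_lt T i⟩

theorem pt_inj (T : Strip R n) : Function.Injective T.pt := fun _ _ h =>
  port_inj T (congrArg Fin.val h)

/-- the value of a Boolean -/
noncomputable def bv (b : Bool) : MvPolynomial (Fin n) ℂ := C (if b then 1 else 0)

/-- the matrix with added entries at the ports -/
noncomputable def Strip.pm (T : Strip R n) (B : Fin R → Fin R → Bool) :
    Matrix (Fin T.order) (Fin T.order) (MvPolynomial (Fin n) ℂ) :=
  Matrix.of fun a b => T.entry a b + ∑ k, ∑ l, if T.pt k = a ∧ T.pt l = b then bv (B k l) else 0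

/-- the state -/
noncomputable def Strip.st (T : Strip R n) (B : Fin R → Fin R → Bool) : MvPolynomial (Fin n) ℂ :=
  (T.pm B).det

/-- change of one entry -/
def upd (B : Fin R → Fin R → Bool) (k l : Fin R) (v : Bool) : Fin R → Fin R → Bool :=
  fun i j => if i = k ∧ j = l then v else B i j

/-- differences -/
noncomputable def dif (Φ : (Fin R → Fin R → Bool) → MvPolynomial (Fin n) ℂ)
    (B : Fin R → Fin R → Bool) (k l : Fin R) : MvPolynomial (Fin n) ℂ :=
  Φ (upd B k l true) - Φ (upd B k l false)

section mats

variable {ι A : Type*} [Fintype ι] [DecidableEq ι] [CommRing A]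

theorem det_add_single (Q : Matrix ι ι A) (a b : ι) (c : A) :
    (Q + Matrix.single a b c).det = Q.det + c * Q.adjugate b a := by
  have h1 : Q + Matrix.single a b c = Q.updateRow a (Q a + Pi.single b c) := by
    ext i j
    by_cases h : i = a
    · subst h
      rw [Matrix.updateRow_self, Matrix.add_apply, Pi.add_apply, Matrix.single_apply,
        Pi.single_apply]
      by_cases hj : b = j
      · rw [if_pos ⟨rfl, hj⟩, if_pos hj.symm]
      · rw [if_neg fun hc => hj hc.2, if_neg fun hc => hj hc.symm]
    · rw [Matrix.updateRow_ne h, Matrix.add_apply, Matrix.single_apply,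
        if_neg fun hc => h hc.1.symm, add_zero]
  have h2 : (Pi.single b c : ι → A) = c • Pi.single b 1 := by
    ext j
    rw [Pi.smul_apply, Pi.single_apply, Pi.single_apply, smul_eq_mul, mul_ite, mul_one, mul_zero]
  rw [h1, Matrix.det_updateRow_add, Matrix.updateRow_eq_self, h2, Matrix.det_updateRow_smul,
    Matrix.adjugate_apply]

theorem adj_add_single (Q : Matrix ι ι A) (a b : ι) (c : A) :
    (Q + Matrix.single a b c).adjugate b a = Q.adjugate b a := by
  rw [Matrix.adjugate_apply, Matrix.adjugate_apply]
  congr 1
  ext i j
  by_cases h : i = a
  · rw [h, Matrix.updateRow_self, Matrix.updateRow_self]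
  · rw [Matrix.updateRow_ne h, Matrix.updateRow_ne h, Matrix.add_apply, Matrix.single_apply,
      if_neg fun hc => h hc.1.symm, add_zero]

theorem det_col (Q : Matrix ι ι A) (i : ι) (v : ι → A) :
    (Q.updateCol i v).det = ∑ a, Q.adjugate i a * v a := by
  rw [← Matrix.cramer_apply, Matrix.cramer_eq_adjugate_mulVec]
  rfl

theorem det_row (Q : Matrix ι ι A) (i : ι) (v : ι → A) :
    (Q.updateRow i v).det = ∑ a, Q.adjugate a i * v a := by
  rw [← Matrix.det_transpose, ← Matrix.updateCol_transpose, det_col, ← Matrix.adjugate_transpose]
  rfl

end mats

theorem pm_upd (T : Strip R n) (B : Fin R → Fin R → Bool) (k l : Fin R) (v : Bool) :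
    T.pm (upd B k l v) = T.pm (upd B k l false) +
      Matrix.single (T.pt k) (T.pt l) (bv v) := by
  refine Matrix.ext fun a b => ?_
  rw [Matrix.add_apply, Matrix.single_apply]
  show T.entry a b + _ = T.entry a b + _ + _
  rw [add_assoc]
  congr 1
  have h0 : (bv false : MvPolynomial (Fin n) ℂ) = 0 := by simp [bv]
  have h1 : ∀ k' l', (if T.pt k' = a ∧ T.pt l' = b then bv (upd B k l v k' l') else 0 :
      MvPolynomial (Fin n) ℂ) =
      (if T.pt k' = a ∧ T.pt l' = b then bv (upd B k l false k' l') else 0) +
        if k' = k then (if l' = l then (if T.pt k = a ∧ T.pt l = b then bv v else 0) else 0)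
          else 0 := by
    intro k' l'
    by_cases hk : k' = k
    · by_cases hl : l' = l
      · rw [if_pos hk, if_pos hl, hk, hl]
        simp only [upd, and_self, if_true, h0]
        by_cases h : T.pt k = a ∧ T.pt l = b
        · rw [if_pos h, if_pos h, zero_add]
        · rw [if_neg h, if_neg h, zero_add]
      · rw [if_pos hk, if_neg hl, add_zero]
        simp only [upd, if_neg (fun hc : k' = k ∧ l' = l => hl hc.2)]
    · rw [if_neg hk, add_zero]
      simp only [upd, if_neg (fun hc : k' = k ∧ l' = l => hk hc.1)]
  simp only [h1, Finset.sum_add_distrib]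
  congr 1
  rw [Finset.sum_eq_single k, Finset.sum_eq_single l, if_pos rfl, if_pos rfl]
  · exact fun x _ hx => by rw [if_pos rfl, if_neg hx]
  · exact fun hx => absurd (Finset.mem_univ _) hx
  · exact fun x _ hx => Finset.sum_eq_zero fun y _ => if_neg hx
  · exact fun hx => absurd (Finset.mem_univ _) hx

theorem upd_self (B : Fin R → Fin R → Bool) (k l : Fin R) : upd B k l (B k l) = B := by
  funext i j
  by_cases h : i = k ∧ j = l
  · rw [upd, if_pos h, h.1, h.2]
  · rw [upd, if_neg h]

/-- the cofactors at the ports -/
theorem adj_port (T : Strip R n) (B : Fin R → Fin R → Bool) (k l : Fin R) :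
    (T.pm B).adjugate (T.pt l) (T.pt k) = dif T.st B k l := by
  have h1 : (T.pm B).adjugate (T.pt l) (T.pt k) =
      (T.pm (upd B k l false)).adjugate (T.pt l) (T.pt k) := by
    have h2 := pm_upd T B k l (B k l)
    rw [upd_self] at h2
    rw [h2, adj_add_single]
  have h3 : T.st (upd B k l true) = T.st (upd B k l false) +
      (bv true : MvPolynomial (Fin n) ℂ) * (T.pm (upd B k l false)).adjugate (T.pt l) (T.pt k) := by
    rw [Strip.st, pm_upd, det_add_single]
    rfl
  have h4 : (bv true : MvPolynomial (Fin n) ℂ) = 1 := by simp [bv]
  rw [h1, dif, h3, h4, one_mul, add_sub_cancel_left]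

end Pool.Agent.W936.SS
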