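import Mathlib
import Pool.Agent.W936.SS.Def

/-!
Recurrences for the states.
-/

set_option autoImplicit false

namespace Pool.Agent.W936.SS

open MvPolynomial Matrix

open Pool.Agent.W936.VN (bord bq det_bord)

variable {R n : ℕ}

theorem bv_false : (bv false : MvPolynomial (Fin n) ℂ) = 0 := by simp [bv]

/-- entries outside of the matrix -/
theorem entry_out (T : Strip R n) (a b : ℕ) (h : T.order ≤ a ∨ T.order ≤ b) :
    T.entry a b = 0 := by
  induction T generalizing a b with
  | start => rfl
  | add i j g T ih =>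
    show T.entry a b + (if a = T.port i ∧ b = T.port j then g else 0) = 0
    rw [ih a b h, zero_add, if_neg]
    rintro ⟨h1, h2⟩
    have h3 := port_lt T i
    have h4 := port_lt T j
    change T.order ≤ a ∨ T.order ≤ b at h
    omega
  | col i j g T ih =>
    show T.entry a b + (if b = T.port i then g * T.entry a (T.port j) else 0) = 0
    rw [ih a b h, zero_add]
    by_cases hb : b = T.port i
    · rw [if_pos hb]
      have h3 := port_lt T i
      change T.order ≤ a ∨ T.order ≤ b at h
      rw [ih a _ (Or.inl (by omega)), mul_zero]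
    · rw [if_neg hb]
  | row i j g T ih =>
    show T.entry a b + (if a = T.port i then g * T.entry (T.port j) b else 0) = 0
    rw [ih a b h, zero_add]
    by_cases hb : a = T.port i
    · rw [if_pos hb]
      have h3 := port_lt T i
      change T.order ≤ a ∨ T.order ≤ b at h
      rw [ih _ b (Or.inr (by omega)), mul_zero]
    · rw [if_neg hb]
  | next i T ih =>
    refine ih a b ?_
    change T.order + 1 ≤ a ∨ T.order + 1 ≤ b at h
    omega

/-- the added entries -/
noncomputable def emb {ι : Type*} [DecidableEq ι] (p : Fin R → ι) (B : Fin R → Fin R → Bool)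
    (a b : ι) : MvPolynomial (Fin n) ℂ :=
  ∑ k, ∑ l, if p k = a ∧ p l = b then bv (B k l) else 0

section emb

variable {ι : Type*} [DecidableEq ι] {p : Fin R → ι} {B : Fin R → Fin R → Bool}

theorem emb_port (hp : Function.Injective p) (k l : Fin R) :
    emb p B (p k) (p l) = (bv (B k l) : MvPolynomial (Fin n) ℂ) := by
  rw [emb, Finset.sum_eq_single k, Finset.sum_eq_single l, if_pos ⟨rfl, rfl⟩]
  · exact fun x _ hx => if_neg fun hc => hx (hp hc.2)
  · exact fun hx => absurd (Finset.mem_univ _) hx
  · exact fun x _ hx => Finset.sum_eq_zero fun y _ => if_neg fun hc => hx (hp hc.1)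
  · exact fun hx => absurd (Finset.mem_univ _) hx

theorem emb_left {a : ι} (h : ∀ k, p k ≠ a) (b : ι) :
    emb p B a b = (0 : MvPolynomial (Fin n) ℂ) :=
  Finset.sum_eq_zero fun k _ => Finset.sum_eq_zero fun l _ => if_neg fun hc => h k hc.1

theorem emb_right {b : ι} (h : ∀ k, p k ≠ b) (a : ι) :
    emb p B a b = (0 : MvPolynomial (Fin n) ℂ) :=
  Finset.sum_eq_zero fun k _ => Finset.sum_eq_zero fun l _ => if_neg fun hc => h l hc.2

end emb

theorem pm_apply (T : Strip R n) (B : Fin R → Fin R → Bool) (a b : Fin T.order) :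
    T.pm B a b = T.entry a b + emb T.pt B a b := rfl

theorem rec_start (B : Fin R → Fin R → Bool) : ∃ c : ℂ, (Strip.start : Strip R n).st B = C c := by
  refine ⟨(Matrix.of fun a b : Fin R => (if B a b then (1 : ℂ) else 0)).det, ?_⟩
  rw [RingHom.map_det]
  show ((Strip.start : Strip R n).pm B).det = _
  congr 1
  refine Matrix.ext fun a b => ?_
  rw [pm_apply]
  show 0 + emb (Strip.start : Strip R n).pt B a b = C (if B a b then 1 else 0)
  have h : emb (Strip.start : Strip R n).pt B a b = (bv (B a b) : MvPolynomial (Fin n) ℂ) :=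
    emb_port (pt_inj (Strip.start : Strip R n)) a b
  rw [h, zero_add]
  rfl

theorem rec_add (i j : Fin R) (g : MvPolynomial (Fin n) ℂ) (T : Strip R n)
    (B : Fin R → Fin R → Bool) :
    (Strip.add i j g T).st B = T.st B + g * dif T.st B i j := by
  have h1 : (Strip.add i j g T).pm B = T.pm B + Matrix.single (T.pt i) (T.pt j) g := by
    refine Matrix.ext fun (a : Fin T.order) (b : Fin T.order) => ?_
    rw [Matrix.add_apply, Matrix.single_apply]
    show T.entry a b + (if (a : ℕ) = T.port i ∧ (b : ℕ) = T.port j then g else 0) +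
      emb T.pt B a b = T.entry a b + emb T.pt B a b + _
    have h2 : (T.pt i = a ∧ T.pt j = b) ↔ ((a : ℕ) = T.port i ∧ (b : ℕ) = T.port j) := by
      rw [Fin.ext_iff, Fin.ext_iff]
      exact ⟨fun h => ⟨h.1.symm, h.2.symm⟩, fun h => ⟨h.1.symm, h.2.symm⟩⟩
    by_cases h : (a : ℕ) = T.port i ∧ (b : ℕ) = T.port j
    · rw [if_pos h, if_pos (h2.2 h)]
      ring
    · rw [if_neg h, if_neg fun hc => h (h2.1 hc)]
      ring
  show ((Strip.add i j g T).pm B).det = _
  rw [h1]
  have h3 := det_add_single (T.pm B) (T.pt i) (T.pt j) g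
  rw [adj_port] at h3
  exact h3

theorem sum_pt (T : Strip R n) (f : Fin T.order → MvPolynomial (Fin n) ℂ)
    (c : Fin R → MvPolynomial (Fin n) ℂ) :
    ∑ a, f a * (∑ k, if T.pt k = a then c k else 0) = ∑ k, c k * f (T.pt k) := by
  simp only [Finset.mul_sum]
  rw [Finset.sum_comm]
  refine Finset.sum_congr rfl fun k _ => ?_
  rw [Finset.sum_eq_single (T.pt k), if_pos rfl, mul_comm]
  · exact fun a _ ha => by rw [if_neg (Ne.symm ha), mul_zero]
  · exact fun hx => absurd (Finset.mem_univ _) hx

theorem emb_col (T : Strip R n) (B : Fin R → Fin R → Bool) (j : Fin R) (a : Fin T.order) :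
    emb T.pt B a (T.pt j) = (∑ k, if T.pt k = a then bv (B k j) else 0 :
      MvPolynomial (Fin n) ℂ) := by
  refine Finset.sum_congr rfl fun k _ => ?_
  rw [Finset.sum_eq_single j]
  · by_cases h : T.pt k = a
    · rw [if_pos h, if_pos ⟨h, rfl⟩]
    · rw [if_neg h, if_neg fun hc => h hc.1]
  · exact fun l _ hl => if_neg fun hc => hl (pt_inj T hc.2)
  · exact fun hx => absurd (Finset.mem_univ _) hx

theorem emb_row (T : Strip R n) (B : Fin R → Fin R → Bool) (j : Fin R) (b : Fin T.order) :
    emb T.pt B (T.pt j) b = (∑ l, if T.pt l = b then bv (B j l) else 0 :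
      MvPolynomial (Fin n) ℂ) := by
  rw [emb, Finset.sum_eq_single j]
  · refine Finset.sum_congr rfl fun l _ => ?_
    by_cases h : T.pt l = b
    · rw [if_pos h, if_pos ⟨rfl, h⟩]
    · rw [if_neg h, if_neg fun hc => h hc.2]
  · exact fun k _ hk => Finset.sum_eq_zero fun l _ => if_neg fun hc => hk (pt_inj T hc.1)
  · exact fun hx => absurd (Finset.mem_univ _) hx

theorem pt_val (T : Strip R n) (i : Fin R) : ((T.pt i : Fin T.order) : ℕ) = T.port i := rfl

theorem rec_col (i j : Fin R) (g : MvPolynomial (Fin n) ℂ) (T : Strip R n)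
    (B : Fin R → Fin R → Bool) :
    (Strip.col i j g T).st B = (1 + if i = j then g else 0) * T.st B -
      g * ∑ k, bv (B k j) * dif T.st B k i := by
  have h1 : (Strip.col i j g T).pm B = (T.pm B).updateCol (T.pt i)
      ((fun a => T.pm B a (T.pt i)) + g • ((fun a => T.pm B a (T.pt j)) -
        fun a => ∑ k, if T.pt k = a then bv (B k j) else 0)) := by
    refine Matrix.ext fun (a : Fin T.order) (b : Fin T.order) => ?_
    by_cases h : b = T.pt i
    · subst h
      rw [Matrix.updateCol_self]
      show T.entry a (T.pt i) + (if ((T.pt i : Fin T.order) : ℕ) = T.port i then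
        g * T.entry a (T.port j) else 0) + emb T.pt B a (T.pt i) =
        (T.entry a (T.pt i) + emb T.pt B a (T.pt i)) + g * ((T.entry a (T.pt j) +
          emb T.pt B a (T.pt j)) - ∑ k, if T.pt k = a then bv (B k j) else 0)
      rw [if_pos (pt_val T i), emb_col T B j a, add_sub_cancel_right]
      show T.entry a (T.port i) + g * T.entry a (T.port j) + _ =
        T.entry a (T.port i) + _ + g * T.entry a (T.port j)
      ring
    · rw [Matrix.updateCol_ne h]
      show T.entry a b + (if (b : ℕ) = T.port i then g * T.entry a (T.port j) else 0) +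
        emb T.pt B a b = T.entry a b + emb T.pt B a b
      rw [if_neg (c := (b : ℕ) = T.port i) fun hc => h (Fin.ext hc), add_zero]
  have h2 : ((T.pm B).updateCol (T.pt i) fun a => T.pm B a (T.pt j)).det =
      if i = j then T.st B else 0 := by
    by_cases hij : i = j
    · rw [if_pos hij, hij, Matrix.updateCol_eq_self]
      rfl
    · rw [if_neg hij]
      refine Matrix.det_zero_of_column_eq (i := T.pt i) (j := T.pt j)
        (fun hc => hij (pt_inj T hc)) fun a => ?_
      rw [Matrix.updateCol_self, Matrix.updateCol_ne fun hc => hij (pt_inj T hc.symm)]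
  have h3 : ((T.pm B).updateCol (T.pt i) fun a => T.pm B a (T.pt i)).det = T.st B := by
    rw [Matrix.updateCol_eq_self]
    rfl
  have h4 : ((T.pm B).updateCol (T.pt i) fun a =>
      ∑ k, if T.pt k = a then (bv (B k j) : MvPolynomial (Fin n) ℂ) else 0).det =
      ∑ k, bv (B k j) * dif T.st B k i := by
    rw [det_col, sum_pt]
    exact Finset.sum_congr rfl fun k _ => by rw [adj_port]
  have h5 : ((fun a => T.pm B a (T.pt j)) - fun a => ∑ k, if T.pt k = a then bv (B k j) else 0 :
      Fin T.order → MvPolynomial (Fin n) ℂ) = (fun a => T.pm B a (T.pt j)) + (-1 :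
        MvPolynomial (Fin n) ℂ) • fun a => ∑ k, if T.pt k = a then bv (B k j) else 0 := by
    rw [neg_one_smul, sub_eq_add_neg]
  have key : ((T.pm B).updateCol (T.pt i)
      ((fun a => T.pm B a (T.pt i)) + g • ((fun a => T.pm B a (T.pt j)) -
        fun a => ∑ k, if T.pt k = a then bv (B k j) else 0))).det =
      (1 + if i = j then g else 0) * T.st B - g * ∑ k, bv (B k j) * dif T.st B k i := by
    rw [Matrix.det_updateCol_add, Matrix.det_updateCol_smul, h5, Matrix.det_updateCol_add,
      Matrix.det_updateCol_smul, h2, h3, h4]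
    split_ifs <;> ring
  exact (congrArg Matrix.det h1).trans key

theorem rec_row (i j : Fin R) (g : MvPolynomial (Fin n) ℂ) (T : Strip R n)
    (B : Fin R → Fin R → Bool) :
    (Strip.row i j g T).st B = (1 + if i = j then g else 0) * T.st B -
      g * ∑ l, bv (B j l) * dif T.st B i l := by
  have h1 : (Strip.row i j g T).pm B = (T.pm B).updateRow (T.pt i)
      ((fun a => T.pm B (T.pt i) a) + g • ((fun a => T.pm B (T.pt j) a) -
        fun a => ∑ l, if T.pt l = a then bv (B j l) else 0)) := by
    refine Matrix.ext fun (a : Fin T.order) (b : Fin T.order) => ?_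
    by_cases h : a = T.pt i
    · subst h
      rw [Matrix.updateRow_self]
      show T.entry (T.pt i) b + (if ((T.pt i : Fin T.order) : ℕ) = T.port i then
        g * T.entry (T.port j) b else 0) + emb T.pt B (T.pt i) b =
        (T.entry (T.pt i) b + emb T.pt B (T.pt i) b) + g * ((T.entry (T.pt j) b +
          emb T.pt B (T.pt j) b) - ∑ l, if T.pt l = b then bv (B j l) else 0)
      rw [if_pos (pt_val T i), emb_row T B j b, add_sub_cancel_right]
      show T.entry (T.port i) b + g * T.entry (T.port j) b + _ =
        T.entry (T.port i) b + _ + g * T.entry (T.port j) b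
      ring
    · rw [Matrix.updateRow_ne h]
      show T.entry a b + (if (a : ℕ) = T.port i then g * T.entry (T.port j) b else 0) +
        emb T.pt B a b = T.entry a b + emb T.pt B a b
      rw [if_neg (c := (a : ℕ) = T.port i) fun hc => h (Fin.ext hc), add_zero]
  have h2 : ((T.pm B).updateRow (T.pt i) fun a => T.pm B (T.pt j) a).det =
      if i = j then T.st B else 0 := by
    by_cases hij : i = j
    · rw [if_pos hij, hij]
      show ((T.pm B).updateRow (T.pt j) (T.pm B (T.pt j))).det = _
      rw [Matrix.updateRow_eq_self]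
      rfl
    · rw [if_neg hij]
      refine Matrix.det_zero_of_row_eq (i := T.pt i) (j := T.pt j)
        (fun hc => hij (pt_inj T hc)) ?_
      funext a
      rw [Matrix.updateRow_self, Matrix.updateRow_ne fun hc => hij (pt_inj T hc.symm)]
  have h3 : ((T.pm B).updateRow (T.pt i) fun a => T.pm B (T.pt i) a).det = T.st B := by
    show ((T.pm B).updateRow (T.pt i) (T.pm B (T.pt i))).det = _
    rw [Matrix.updateRow_eq_self]
    rfl
  have h4 : ((T.pm B).updateRow (T.pt i) fun a =>
      ∑ l, if T.pt l = a then (bv (B j l) : MvPolynomial (Fin n) ℂ) else 0).det =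
      ∑ l, bv (B j l) * dif T.st B i l := by
    rw [det_row, sum_pt T (fun a => (T.pm B).adjugate a (T.pt i))]
    exact Finset.sum_congr rfl fun k _ => by rw [adj_port]
  have h5 : ((fun a => T.pm B (T.pt j) a) - fun a => ∑ l, if T.pt l = a then bv (B j l) else 0 :
      Fin T.order → MvPolynomial (Fin n) ℂ) = (fun a => T.pm B (T.pt j) a) + (-1 :
        MvPolynomial (Fin n) ℂ) • fun a => ∑ l, if T.pt l = a then bv (B j l) else 0 := by
    rw [neg_one_smul, sub_eq_add_neg]
  have key : ((T.pm B).updateRow (T.pt i)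
      ((fun a => T.pm B (T.pt i) a) + g • ((fun a => T.pm B (T.pt j) a) -
        fun a => ∑ l, if T.pt l = a then bv (B j l) else 0))).det =
      (1 + if i = j then g else 0) * T.st B - g * ∑ l, bv (B j l) * dif T.st B i l := by
    rw [Matrix.det_updateRow_add, Matrix.det_updateRow_smul, h5, Matrix.det_updateRow_add,
      Matrix.det_updateRow_smul, h2, h3, h4]
    split_ifs <;> ring
  exact (congrArg Matrix.det h1).trans key

end Pool.Agent.W936.SS
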