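import Mathlib
import Pool.Agent.W936.SS.Rec

/-!
The recurrence for a new row and column.
-/

set_option autoImplicit false

namespace Pool.Agent.W936.SS

open MvPolynomial Matrix

open Pool.Agent.W936.VN (bord bq det_bord)

variable {R n : ℕ}

/-- the entries in row and column `i` are removed -/
def clr (B : Fin R → Fin R → Bool) (i : Fin R) : Fin R → Fin R → Bool :=
  fun k l => if k = i ∨ l = i then false else B k l

/-- the identification of the indices -/
def eqv (m : ℕ) : Fin m ⊕ Unit ≃ Fin (m + 1) :=
  (Equiv.sumCongr (Equiv.refl (Fin m)) (Equiv.ofUnique Unit (Fin 1))).trans finSumFinEquiv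

theorem eqv_inl (m : ℕ) (a : Fin m) : ((eqv m (.inl a) : Fin (m + 1)) : ℕ) = a := rfl

theorem eqv_inr (m : ℕ) (u : Unit) : ((eqv m (.inr u) : Fin (m + 1)) : ℕ) = m := rfl

theorem pt_next_self (i : Fin R) (T : Strip R n) :
    (Strip.next i T).pt i = eqv T.order (.inr ()) := by
  apply Fin.ext
  show Function.update T.port i T.order i = T.order
  rw [Function.update_self]

theorem pt_next_ne (i : Fin R) (T : Strip R n) {k : Fin R} (h : k ≠ i) :
    (Strip.next i T).pt k = eqv T.order (.inl (T.pt k)) := by
  apply Fin.ext
  show Function.update T.port i T.order k = T.port k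
  rw [Function.update_of_ne h]

theorem pt_next_inl (i : Fin R) (T : Strip R n) (k : Fin R) (a : Fin T.order) :
    (Strip.next i T).pt k = eqv T.order (.inl a) ↔ k ≠ i ∧ T.pt k = a := by
  by_cases h : k = i
  · subst h
    rw [pt_next_self]
    constructor
    · intro h1
      exact absurd ((eqv T.order).injective h1) Sum.inr_ne_inl
    · exact fun h1 => absurd rfl h1.1
  · rw [pt_next_ne i T h]
    constructor
    · intro h1
      exact ⟨h, Sum.inl_injective ((eqv T.order).injective h1)⟩
    · rintro ⟨_, h1⟩
      rw [h1]

theorem pt_next_inr (i : Fin R) (T : Strip R n) (k : Fin R) (u : Unit) :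
    (Strip.next i T).pt k = eqv T.order (.inr u) ↔ k = i := by
  by_cases h : k = i
  · subst h
    rw [pt_next_self]
    exact ⟨fun _ => rfl, fun _ => rfl⟩
  · rw [pt_next_ne i T h]
    constructor
    · intro h1
      exact absurd ((eqv T.order).injective h1) Sum.inl_ne_inr
    · exact fun h1 => absurd h1 h

theorem rec_next (i : Fin R) (T : Strip R n) (B : Fin R → Fin R → Bool) :
    (Strip.next i T).st B = bv (B i i) * T.st (clr B i) -
      ∑ k, (if k = i then 0 else bv (B k i)) *
        ∑ l, (if l = i then 0 else bv (B i l)) * dif T.st (clr B i) k l := by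
  set u : Fin T.order → MvPolynomial (Fin n) ℂ := fun a =>
    ∑ k, if T.pt k = a then (if k = i then 0 else bv (B k i)) else 0 with hu
  set v : Fin T.order → MvPolynomial (Fin n) ℂ := fun a =>
    ∑ k, if T.pt k = a then (if k = i then 0 else bv (B i k)) else 0 with hv
  have h1 : ((Strip.next i T).pm B).submatrix (eqv T.order) (eqv T.order) =
      bord (T.pm (clr B i)) u v (bv (B i i)) := by
    refine Matrix.ext fun x y => ?_
    rcases x with a | a <;> rcases y with b | b
    · show T.entry a b + emb (Strip.next i T).pt B (eqv T.order (.inl a)) (eqv T.order (.inl b)) =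
        T.entry a b + emb T.pt (clr B i) a b
      congr 1
      refine Finset.sum_congr rfl fun k _ => Finset.sum_congr rfl fun l _ => ?_
      simp only [pt_next_inl]
      by_cases hk : k = i
      · rw [if_neg fun hc => hc.1.1 hk, clr, if_pos (Or.inl hk), bv_false, ite_self]
      · by_cases hl : l = i
        · rw [if_neg fun hc => hc.2.1 hl, clr, if_pos (Or.inr hl), bv_false, ite_self]
        · rw [clr, if_neg (not_or.2 ⟨hk, hl⟩)]
          by_cases hc : T.pt k = a ∧ T.pt l = b
          · rw [if_pos hc, if_pos ⟨⟨hk, hc.1⟩, hl, hc.2⟩]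
          · rw [if_neg hc, if_neg fun hh => hc ⟨hh.1.2, hh.2.2⟩]
    · show T.entry a T.order + emb (Strip.next i T).pt B (eqv T.order (.inl a))
        (eqv T.order (.inr b)) = u a
      rw [entry_out T _ _ (Or.inr le_rfl), zero_add, hu]
      refine Finset.sum_congr rfl fun k _ => ?_
      simp only [pt_next_inl, pt_next_inr]
      rw [Finset.sum_eq_single i]
      · by_cases hk : k = i
        · rw [if_neg fun hc => hc.1.1 hk, if_pos hk, ite_self]
        · rw [if_neg hk]
          by_cases hc : T.pt k = a
          · rw [if_pos hc, if_pos ⟨⟨hk, hc⟩, rfl⟩]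
          · rw [if_neg hc, if_neg fun hh => hc hh.1.2]
      · exact fun l _ hl => if_neg fun hc => hl hc.2
      · exact fun hx => absurd (Finset.mem_univ _) hx
    · show T.entry T.order b + emb (Strip.next i T).pt B (eqv T.order (.inr a))
        (eqv T.order (.inl b)) = v b
      rw [entry_out T _ _ (Or.inl le_rfl), zero_add, hv]
      refine (Finset.sum_eq_single i ?_ ?_).trans ?_
      · exact fun l _ hl => Finset.sum_eq_zero fun k _ => if_neg fun hc =>
          hl ((pt_next_inr i T l a).1 hc.1)
      · exact fun hx => absurd (Finset.mem_univ _) hx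
      · refine Finset.sum_congr rfl fun k _ => ?_
        simp only [pt_next_inl, pt_next_inr]
        by_cases hk : k = i
        · rw [if_neg fun hc => hc.2.1 hk, if_pos hk, ite_self]
        · rw [if_neg hk]
          by_cases hc : T.pt k = b
          · rw [if_pos hc, if_pos ⟨trivial, hk, hc⟩]
          · rw [if_neg hc, if_neg fun hh => hc hh.2.2]
    · show T.entry T.order T.order + emb (Strip.next i T).pt B (eqv T.order (.inr a))
        (eqv T.order (.inr b)) = bv (B i i)
      rw [entry_out T _ _ (Or.inl le_rfl), zero_add, ← pt_next_self i T]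
      exact emb_port (pt_inj (Strip.next i T)) i i
  have h2 : (Strip.next i T).st B = (bord (T.pm (clr B i)) u v (bv (B i i))).det := by
    exact (Matrix.det_submatrix_equiv_self (eqv T.order) ((Strip.next i T).pm B)).symm.trans
      (congrArg Matrix.det h1)
  rw [h2, det_bord]
  congr 1
  have h3 : ∀ a, ((T.pm (clr B i)).updateRow a v).det =
      ∑ l, (if l = i then 0 else bv (B i l)) * (T.pm (clr B i)).adjugate (T.pt l) a := by
    intro a
    rw [det_row, hv, sum_pt T (fun b => (T.pm (clr B i)).adjugate b a)]
  rw [bq]
  simp only [h3]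
  have h4 := sum_pt T (fun a => ∑ l, (if l = i then 0 else bv (B i l)) *
    (T.pm (clr B i)).adjugate (T.pt l) a) (fun k => if k = i then 0 else bv (B k i))
  rw [show (∑ a, u a * ∑ l, (if l = i then 0 else bv (B i l)) *
    (T.pm (clr B i)).adjugate (T.pt l) a) = ∑ a, (∑ l, (if l = i then 0 else bv (B i l)) *
    (T.pm (clr B i)).adjugate (T.pt l) a) * u a from
      Finset.sum_congr rfl fun a _ => mul_comm _ _, h4]
  refine Finset.sum_congr rfl fun k _ => ?_
  congr 1
  exact Finset.sum_congr rfl fun l _ => by rw [adj_port]

end Pool.Agent.W936.SS
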