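import Mathlib
import Pool.Agent.W936.SS.Nxt
import Pool.Agent.W936.VN.Rk3

/-!
The determinants are computed by linear programs of bounded width.
-/

set_option autoImplicit false

namespace Pool.Agent.W936.SS

open MvPolynomial Matrix

open Pool.Agent.W936.VN (Prg prg_mono prg_const)

open Pool.Agent.Results.MP_e2be99_lc.FormulasOverSparse (contents)

variable {R n : ℕ}

/-- linear combinations with coefficients `c + c' g` -/
noncomputable def SP {β : Type} (Φ : β → MvPolynomial (Fin n) ℂ) (g : MvPolynomial (Fin n) ℂ) :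
    Submodule ℂ (MvPolynomial (Fin n) ℂ) :=
  Submodule.span ℂ (Set.range (Sum.elim Φ fun B => g * Φ B))

section SP

variable {β : Type} {Φ : β → MvPolynomial (Fin n) ℂ} {g f : MvPolynomial (Fin n) ℂ}

theorem SP.one (B : β) : Φ B ∈ SP Φ g := Submodule.subset_span ⟨.inl B, rfl⟩

theorem SP.gen (B : β) : g * Φ B ∈ SP Φ g := Submodule.subset_span ⟨.inr B, rfl⟩

theorem SP.bv (b : Bool) (h : f ∈ SP Φ g) : bv b * f ∈ SP Φ g := by
  rw [SS.bv, ← smul_eq_C_mul]
  exact Submodule.smul_mem _ _ h

theorem SP.extract [Fintype β] (h : f ∈ SP Φ g) : ∃ t : β → ℂ × ℂ,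
    f = ∑ B, Φ B * (C (t B).1 + C (t B).2 * g) := by
  obtain ⟨c, hc⟩ := (Submodule.mem_span_range_iff_exists_fun ℂ).1 h
  refine ⟨fun B => (c (.inl B), c (.inr B)), ?_⟩
  rw [← hc, Fintype.sum_sum_type, ← Finset.sum_add_distrib]
  refine Finset.sum_congr rfl fun B _ => ?_
  rw [smul_eq_C_mul, smul_eq_C_mul]
  simp only [Sum.elim_inl, Sum.elim_inr]
  ring

end SP

theorem SP.dif {Φ : (Fin R → Fin R → Bool) → MvPolynomial (Fin n) ℂ}
    {g : MvPolynomial (Fin n) ℂ} (B : Fin R → Fin R → Bool) (k l : Fin R) :
    SS.dif Φ B k l ∈ SP Φ g := Submodule.sub_mem _ (SP.one _) (SP.one _)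

theorem SP.gdif {Φ : (Fin R → Fin R → Bool) → MvPolynomial (Fin n) ℂ}
    {g : MvPolynomial (Fin n) ℂ} (B : Fin R → Fin R → Bool) (k l : Fin R) :
    g * SS.dif Φ B k l ∈ SP Φ g := by
  rw [SS.dif, mul_sub]
  exact Submodule.sub_mem _ (SP.gen _) (SP.gen _)

theorem sp_add (i j : Fin R) (g : MvPolynomial (Fin n) ℂ) (T : Strip R n)
    (B : Fin R → Fin R → Bool) : (Strip.add i j g T).st B ∈ SP T.st g := by
  rw [rec_add]
  exact Submodule.add_mem _ (SP.one _) (SP.gdif _ _ _)

theorem sp_one {Φ : (Fin R → Fin R → Bool) → MvPolynomial (Fin n) ℂ} {i j : Fin R}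
    {g : MvPolynomial (Fin n) ℂ} (B : Fin R → Fin R → Bool) :
    (1 + if i = j then g else 0) * Φ B ∈ SP Φ g := by
  by_cases h : i = j
  · rw [if_pos h, add_mul, one_mul]
    exact Submodule.add_mem _ (SP.one _) (SP.gen _)
  · rw [if_neg h, add_zero, one_mul]
    exact SP.one _

theorem sp_col (i j : Fin R) (g : MvPolynomial (Fin n) ℂ) (T : Strip R n)
    (B : Fin R → Fin R → Bool) : (Strip.col i j g T).st B ∈ SP T.st g := by
  rw [rec_col, Finset.mul_sum]
  refine Submodule.sub_mem _ (sp_one _) (Submodule.sum_mem _ fun k _ => ?_)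
  rw [mul_left_comm]
  exact SP.bv _ (SP.gdif _ _ _)

theorem sp_row (i j : Fin R) (g : MvPolynomial (Fin n) ℂ) (T : Strip R n)
    (B : Fin R → Fin R → Bool) : (Strip.row i j g T).st B ∈ SP T.st g := by
  rw [rec_row, Finset.mul_sum]
  refine Submodule.sub_mem _ (sp_one _) (Submodule.sum_mem _ fun k _ => ?_)
  rw [mul_left_comm]
  exact SP.bv _ (SP.gdif _ _ _)

theorem sp_next (i : Fin R) (T : Strip R n) (B : Fin R → Fin R → Bool) :
    (Strip.next i T).st B ∈ SP T.st (0 : MvPolynomial (Fin n) ℂ) := by
  rw [rec_next]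
  refine Submodule.sub_mem _ (SP.bv _ (SP.one _)) (Submodule.sum_mem _ fun k _ => ?_)
  have h : ∀ (c : Prop) [Decidable c] (b : Bool) (f : MvPolynomial (Fin n) ℂ), f ∈ SP T.st 0 →
      (if c then 0 else bv b) * f ∈ SP T.st (0 : MvPolynomial (Fin n) ℂ) := by
    intro c _ b f hf
    by_cases hc : c
    · rw [if_pos hc, zero_mul]
      exact Submodule.zero_mem _
    · rw [if_neg hc]
      exact SP.bv _ hf
  exact h _ _ _ (Submodule.sum_mem _ fun l _ => h _ _ _ (SP.dif _ _ _))

theorem prg_wide {w W s D : ℕ} (hw : w ≤ W) {g : MvPolynomial (Fin n) ℂ} (h : Prg w s D g) :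
    Prg W s D g := by
  induction h with
  | sparse h => exact .sparse h
  | program c₀ M R P hu hocc _ ih =>
    exact .program c₀ M R P (hu.trans hw) (fun x => (hocc x).trans hw) ih

theorem prg_affine {w s D : ℕ} (c c' : ℂ) {g : MvPolynomial (Fin n) ℂ} (h : Prg w s D g) :
    Prg w (s + 1) D (C c + C c' * g) := by
  classical
  cases h with
  | sparse h =>
    refine .sparse ?_
    have h1 : (C c + C c' * g).support ⊆ insert 0 g.support := by
      refine support_add.trans (Finset.union_subset ?_ ?_)
      · refine Finset.Subset.trans ?_ (Finset.singleton_subset_iff.2 (Finset.mem_insert_self _ _))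
        rw [C_apply]
        exact support_monomial_subset
      · rw [← smul_eq_C_mul]
        exact support_smul.trans (Finset.subset_insert _ _)
    exact (Finset.card_le_card h1).trans ((Finset.card_insert_le _ _).trans (by omega))
  | program c₀ M R P hu hocc h =>
    have h1 := Prg.program c₀ M R (C c + C c' * P) hu hocc (fun b i j => prg_mono (h b i j))
    rwa [map_add, map_mul, aeval_C, aeval_C] at h1

theorem contents_congr {u : ℕ} (c₀ : Fin u → ℂ)
    {M M' : ℕ → Matrix (Fin u) (Fin u) (MvPolynomial (Fin n) ℂ)} (L : ℕ)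
    (h : ∀ b < L, M b = M' b) : contents c₀ M L = contents c₀ M' L := by
  induction L with
  | zero => rfl
  | succ L ih =>
    rw [contents, contents, ih fun b hb => h b (Nat.lt_succ_of_lt hb), h L (Nat.lt_succ_self L)]

/-- the statement about linear programs -/
def Comp (R n W s D : ℕ) (T : Strip R n) : Prop :=
  ∃ (c₀ : Fin (Fintype.card (Fin R → Fin R → Bool)) → ℂ)
    (M : ℕ → Matrix (Fin (Fintype.card (Fin R → Fin R → Bool)))
      (Fin (Fintype.card (Fin R → Fin R → Bool))) (MvPolynomial (Fin n) ℂ)) (L : ℕ),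
    (∀ B, contents c₀ M L (Fintype.equivFin _ B) = T.st B) ∧ (∀ b i j, Prg W s D (M b i j)) ∧
    ∀ x, ((Finset.range L).filter fun b => ∃ i j, x ∈ (M b i j).vars).card ≤ T.reads x

theorem comp_step {W s D : ℕ} {T T' : Strip R n} {g : MvPolynomial (Fin n) ℂ}
    (hT : Comp R n W (s + 1) D T) (hg : Prg W s D g) (h : ∀ B, T'.st B ∈ SP T.st g)
    (hr : ∀ x, T.reads x + (if x ∈ g.vars then 1 else 0) ≤ T'.reads x) :
    Comp R n W (s + 1) D T' := by
  classical
  obtain ⟨c₀, M, L, h1, h2, h3⟩ := hT
  have hex : ∀ B, ∃ t : (Fin R → Fin R → Bool) → ℂ × ℂ,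
      T'.st B = ∑ B', T.st B' * (C (t B').1 + C (t B').2 * g) := fun B => SP.extract (h B)
  choose t ht using hex
  set e := Fintype.equivFin (Fin R → Fin R → Bool) with he
  set N : Matrix (Fin (Fintype.card (Fin R → Fin R → Bool)))
      (Fin (Fintype.card (Fin R → Fin R → Bool))) (MvPolynomial (Fin n) ℂ) :=
    Matrix.of fun i j => C (t (e.symm j) (e.symm i)).1 + C (t (e.symm j) (e.symm i)).2 * g with hN
  refine ⟨c₀, Function.update M L N, L + 1, ?_, ?_, ?_⟩
  · intro B
    rw [contents, Function.update_self, contents_congr c₀ L (M' := M) fun b hb =>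
      Function.update_of_ne hb.ne _ _, ht B]
    show ∑ i, contents c₀ M L i * N i (e B) = _
    rw [← e.sum_comp]
    refine Finset.sum_congr rfl fun B' _ => ?_
    rw [h1, hN, Matrix.of_apply, e.symm_apply_apply, e.symm_apply_apply]
  · intro b i j
    by_cases hb : b = L
    · rw [hb, Function.update_self]
      exact prg_affine _ _ hg
    · rw [Function.update_of_ne hb]
      exact h2 b i j
  · intro x
    refine le_trans ?_ (hr x)
    rw [Finset.range_add_one, Finset.filter_insert]
    have h4 : ((Finset.range L).filter fun b => ∃ i j, x ∈ (Function.update M L N b i j).vars) =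
        (Finset.range L).filter fun b => ∃ i j, x ∈ (M b i j).vars := by
      refine Finset.filter_congr fun b hb => ?_
      rw [Function.update_of_ne (Finset.mem_range.1 hb).ne]
    have h5 : ((Finset.range L).filter fun b => ∃ i j, x ∈ (M b i j).vars).card ≤ T.reads x :=
      le_trans (le_of_eq (by congr!)) (h3 x)
    rw [h4]
    by_cases hx : ∃ i j, x ∈ (Function.update M L N L i j).vars
    · rw [if_pos hx]
      obtain ⟨i, j, hij⟩ := hx
      rw [Function.update_self, hN, Matrix.of_apply] at hij
      have h6 : x ∈ g.vars := by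
        have h7 := vars_add_subset _ _ hij
        rw [vars_C, Finset.empty_union] at h7
        have h8 := vars_mul _ _ h7
        rwa [vars_C, Finset.empty_union] at h8
      rw [if_pos h6]
      refine (Finset.card_insert_le _ _).trans ?_
      omega
    · rw [if_neg hx]
      omega

theorem comp_all {W s D : ℕ} (T : Strip R n) (hT : T.Entries (Prg W s D)) :
    Comp R n W (s + 1) D T := by
  classical
  induction T with
  | start =>
    choose c hc using fun B => rec_start (n := n) (R := R) B
    refine ⟨fun i => c ((Fintype.equivFin _).symm i), fun _ => 0, 0, ?_, ?_, ?_⟩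
    · intro B
      rw [contents]
      show C (c ((Fintype.equivFin _).symm (Fintype.equivFin _ B))) = _
      rw [Equiv.symm_apply_apply, hc]
    · intro b i j
      have h1 := prg_const (n := n) (w := W) (s := s) (D := D) 0
      rwa [C_0] at h1
    · intro x
      rw [Finset.range_zero, Finset.filter_empty, Finset.card_empty]
      exact Nat.zero_le _
  | add i j g T ih =>
    refine comp_step (ih hT.2) hT.1 (sp_add i j g T) fun x => ?_
    show _ ≤ T.reads x + _
    exact le_of_eq (by congr!)
  | col i j g T ih =>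
    refine comp_step (ih hT.2) hT.1 (sp_col i j g T) fun x => ?_
    show _ ≤ T.reads x + _
    exact le_of_eq (by congr!)
  | row i j g T ih =>
    refine comp_step (ih hT.2) hT.1 (sp_row i j g T) fun x => ?_
    show _ ≤ T.reads x + _
    exact le_of_eq (by congr!)
  | next i T ih =>
    have h0 : Prg W s D (0 : MvPolynomial (Fin n) ℂ) := by
      cases D with
      | zero => exact .sparse (by rw [support_zero, Finset.card_empty]; exact Nat.zero_le _)
      | succ D =>
        have h1 := Prg.program (n := n) (w := W) (s := s) (D := D) (u := 0) (fun i => i.elim0)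
          (fun _ => Matrix.of fun i _ => i.elim0) 0 0 (Nat.zero_le W) (fun x => by simp)
          (fun b i _ => i.elim0)
        rwa [map_zero] at h1
    refine comp_step (ih hT) h0 (sp_next i T) fun x => ?_
    rw [vars_0, if_neg (Finset.notMem_empty x), add_zero]
    exact le_rfl

theorem st_zero (T : Strip R n) : T.st (fun _ _ => false) = T.mat.det := by
  rw [Strip.st]
  congr 1
  refine Matrix.ext fun a b => ?_
  rw [pm_apply]
  have h1 : emb T.pt (fun _ _ => false) a b = (0 : MvPolynomial (Fin n) ℂ) :=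
    Finset.sum_eq_zero fun k _ => Finset.sum_eq_zero fun l _ => by rw [bv_false, ite_self]
  rw [h1, add_zero]
  rfl

/-- the determinant is computed by a linear program -/
theorem det_prg {w s D : ℕ} {T : Strip R n} (hT : T.Entries (Prg w s D))
    (hr : ∀ x, T.reads x ≤ w) : Prg (w + 2 ^ (R * R)) (s + 1) (D + 1) T.mat.det := by
  classical
  have hmono : ∀ T : Strip R n, T.Entries (Prg w s D) →
      T.Entries (Prg (w + 2 ^ (R * R)) s D) := by
    intro T hT
    induction T with
    | start => trivial
    | add i j g T ih => exact ⟨prg_wide (Nat.le_add_right _ _) hT.1, ih hT.2⟩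
    | col i j g T ih => exact ⟨prg_wide (Nat.le_add_right _ _) hT.1, ih hT.2⟩
    | row i j g T ih => exact ⟨prg_wide (Nat.le_add_right _ _) hT.1, ih hT.2⟩
    | next i T ih => exact ih hT
  obtain ⟨c₀, M, L, h1, h2, h3⟩ := comp_all T (hmono T hT)
  have hcard : Fintype.card (Fin R → Fin R → Bool) = 2 ^ (R * R) := by
    rw [Fintype.card_fun, Fintype.card_fun, Fintype.card_fin, Fintype.card_bool, ← pow_mul]
  have h4 := Prg.program c₀ M L (X (Fintype.equivFin _ fun _ _ => false)) (by rw [hcard]; omega)
    (fun x => (h3 x).trans ((hr x).trans (Nat.le_add_right _ _))) h2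
  rwa [aeval_X, h1, st_zero] at h4

end Pool.Agent.W936.SS
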