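import Mathlib
import Pool.Agent.W936.SS.Prog

/-!
Representations of matrices by descriptions with ports.
-/

set_option autoImplicit false

namespace Pool.Agent.W936.SS

open MvPolynomial Matrix

variable {R n : ℕ}

/-- transposition of a description -/
def Strip.tr : Strip R n → Strip R n
  | .start => .start
  | .add i j g T => .add j i g T.tr
  | .col i j g T => .row i j g T.tr
  | .row i j g T => .col i j g T.tr
  | .next i T => .next i T.tr

theorem tr_order (T : Strip R n) : T.tr.order = T.order := by
  induction T with
  | start => rfl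
  | add i j g T ih => exact ih
  | col i j g T ih => exact ih
  | row i j g T ih => exact ih
  | next i T ih => exact congrArg (· + 1) ih

theorem tr_port (T : Strip R n) : T.tr.port = T.port := by
  induction T with
  | start => rfl
  | add i j g T ih => exact ih
  | col i j g T ih => exact ih
  | row i j g T ih => exact ih
  | next i T ih =>
    show Function.update T.tr.port i T.tr.order = Function.update T.port i T.order
    rw [ih, tr_order]

theorem tr_entry (T : Strip R n) (a b : ℕ) : T.tr.entry a b = T.entry b a := by
  induction T generalizing a b with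
  | start => rfl
  | add i j g T ih =>
    show T.tr.entry a b + (if a = T.tr.port j ∧ b = T.tr.port i then g else 0) =
      T.entry b a + (if b = T.port i ∧ a = T.port j then g else 0)
    rw [ih, tr_port]
    simp only [and_comm]
  | col i j g T ih =>
    show T.tr.entry a b + (if a = T.tr.port i then g * T.tr.entry (T.tr.port j) b else 0) =
      T.entry b a + (if a = T.port i then g * T.entry b (T.port j) else 0)
    rw [ih, ih, tr_port]
  | row i j g T ih =>
    show T.tr.entry a b + (if b = T.tr.port i then g * T.tr.entry a (T.tr.port j) else 0) =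
      T.entry b a + (if b = T.port i then g * T.entry (T.port j) a else 0)
    rw [ih, ih, tr_port]
  | next i T ih => exact ih a b

theorem tr_entries {L : MvPolynomial (Fin n) ℂ → Prop} {T : Strip R n} (h : T.Entries L) :
    T.tr.Entries L := by
  induction T with
  | start => trivial
  | add i j g T ih => exact ⟨h.1, ih h.2⟩
  | col i j g T ih => exact ⟨h.1, ih h.2⟩
  | row i j g T ih => exact ⟨h.1, ih h.2⟩
  | next i T ih => exact ih h

theorem tr_reads (T : Strip R n) (x : Fin n) : T.tr.reads x = T.reads x := by
  induction T with
  | start => rfl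
  | add i j g T ih => exact congrArg (· + _) ih
  | col i j g T ih => exact congrArg (· + _) ih
  | row i j g T ih => exact congrArg (· + _) ih
  | next i T ih => exact ih

section rep

variable {V Q : Type} [DecidableEq V] [DecidableEq Q] {σ : Q ≃ Fin R}

/-- the index of a vertex or of a port -/
def loc (σ : Q ≃ Fin R) (T : Strip R n) (x : V → ℕ) : V ⊕ Q → ℕ
  | .inl v => x v
  | .inr q => T.port (σ q)

/-- vertices in the set, or ports -/
def Act (S : Finset V) : V ⊕ Q → Prop
  | .inl v => v ∈ S
  | .inr _ => True

/-- the description has the entries `E` at the vertices of `S` and at the ports -/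
structure Rep (σ : Q ≃ Fin R) (T : Strip R n) (x : V → ℕ) (S : Finset V)
    (E : V ⊕ Q → V ⊕ Q → MvPolynomial (Fin n) ℂ) : Prop where
  card : T.order = S.card + R
  inj : ∀ u v, Act S u → Act S v → loc σ T x u = loc σ T x v → u = v
  lt : ∀ u, Act S u → loc σ T x u < T.order
  eq : ∀ u v, Act S u → Act S v → T.entry (loc σ T x u) (loc σ T x v) = E u v

variable {T : Strip R n} {x : V → ℕ} {S : Finset V} {E : V ⊕ Q → V ⊕ Q → MvPolynomial (Fin n) ℂ}

theorem Rep.start (x : V → ℕ) : Rep σ (.start : Strip R n) x (∅ : Finset V) fun _ _ => 0 := by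
  refine ⟨?_, ?_, ?_, fun _ _ _ _ => rfl⟩
  · rw [Finset.card_empty, Nat.zero_add]
    rfl
  · rintro (u | u) (v | v) hu hv h
    · exact absurd hu (Finset.notMem_empty u)
    · exact absurd hu (Finset.notMem_empty u)
    · exact absurd hv (Finset.notMem_empty v)
    · exact congrArg _ (σ.injective (port_inj _ h))
  · rintro (u | u) hu
    · exact absurd hu (Finset.notMem_empty u)
    · exact port_lt _ _

theorem Rep.tr (h : Rep σ T x S E) : Rep σ T.tr x S fun u v => E v u := by
  have h0 : ∀ u : V ⊕ Q, loc σ T.tr x u = loc σ T x u := by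
    rintro (u | u)
    · rfl
    · exact congrFun (tr_port T) _
  refine ⟨?_, ?_, ?_, ?_⟩
  · rw [tr_order, h.card]
  · intro u v hu hv huv
    rw [h0, h0] at huv
    exact h.inj u v hu hv huv
  · intro u hu
    rw [h0, tr_order]
    exact h.lt u hu
  · intro u v hu hv
    rw [h0, h0, tr_entry]
    exact h.eq v u hv hu

theorem Rep.add (h : Rep σ T x S E) (q q' : Q) (g : MvPolynomial (Fin n) ℂ) :
    Rep σ (.add (σ q) (σ q') g T) x S
      fun u v => E u v + if u = .inr q ∧ v = .inr q' then g else 0 := by
  have h0 : ∀ u : V ⊕ Q, loc σ (.add (σ q) (σ q') g T) x u = loc σ T x u := by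
    rintro (u | u) <;> rfl
  refine ⟨h.card, ?_, ?_, ?_⟩
  · intro u v hu hv huv
    rw [h0, h0] at huv
    exact h.inj u v hu hv huv
  · intro u hu
    rw [h0]
    exact h.lt u hu
  · intro u v hu hv
    rw [h0, h0]
    show T.entry _ _ + (if loc σ T x u = loc σ T x (.inr q) ∧ loc σ T x v = loc σ T x (.inr q')
      then g else 0) = _
    rw [h.eq u v hu hv]
    congr 1
    refine if_congr ?_ rfl rfl
    constructor
    · rintro ⟨h1, h2⟩
      exact ⟨h.inj _ _ hu trivial h1, h.inj _ _ hv trivial h2⟩
    · rintro ⟨h1, h2⟩
      rw [h1, h2]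
      exact ⟨rfl, rfl⟩

theorem Rep.col (h : Rep σ T x S E) (q q' : Q) (g : MvPolynomial (Fin n) ℂ) :
    Rep σ (.col (σ q) (σ q') g T) x S
      fun u v => E u v + if v = .inr q then g * E u (.inr q') else 0 := by
  have h0 : ∀ u : V ⊕ Q, loc σ (.col (σ q) (σ q') g T) x u = loc σ T x u := by
    rintro (u | u) <;> rfl
  refine ⟨h.card, ?_, ?_, ?_⟩
  · intro u v hu hv huv
    rw [h0, h0] at huv
    exact h.inj u v hu hv huv
  · intro u hu
    rw [h0]
    exact h.lt u hu
  · intro u v hu hv
    rw [h0, h0]
    show T.entry _ _ + (if loc σ T x v = loc σ T x (.inr q) then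
      g * T.entry (loc σ T x u) (loc σ T x (.inr q')) else 0) = _
    rw [h.eq u v hu hv, h.eq u (.inr q') hu trivial]
    congr 1
    refine if_congr ?_ rfl rfl
    constructor
    · exact fun h1 => h.inj _ _ hv trivial h1
    · intro h1
      rw [h1]

/-- the vertex `v` takes the place of the port `q` -/
def mv (v : V) (q : Q) : V ⊕ Q → V ⊕ Q
  | .inl w => if w = v then .inr q else .inl w
  | .inr p => .inr p

theorem Rep.next (h : Rep σ T x S E) (q : Q) (v : V) (hv : v ∉ S) :
    Rep σ (.next (σ q) T) (Function.update x v (T.port (σ q))) (insert v S)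
      fun u w => if u = .inr q ∨ w = .inr q then 0 else E (mv v q u) (mv v q w) := by
  set T' : Strip R n := .next (σ q) T with hT'
  set x' := Function.update x v (T.port (σ q)) with hx'
  have hord : T'.order = T.order + 1 := rfl
  have hnew : loc σ T' x' (.inr q) = T.order := by
    show Function.update T.port (σ q) T.order (σ q) = _
    rw [Function.update_self]
  have hold : ∀ u : V ⊕ Q, Act (insert v S) u → u ≠ .inr q →
      loc σ T' x' u = loc σ T x (mv v q u) ∧ Act S (mv v q u) := by
    rintro (u | u) hu hne
    · by_cases huv : u = v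
      · constructor
        · show Function.update x v (T.port (σ q)) u = _
          rw [huv, Function.update_self, mv, if_pos rfl]
          rfl
        · rw [mv, if_pos huv]
          trivial
      · constructor
        · show Function.update x v (T.port (σ q)) u = _
          rw [Function.update_of_ne huv, mv, if_neg huv]
          rfl
        · rw [mv, if_neg huv]
          exact (Finset.mem_insert.1 hu).resolve_left huv
    · have hne' : u ≠ q := fun hc => hne (congrArg _ hc)
      constructor
      · show Function.update T.port (σ q) T.order (σ u) = _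
        rw [Function.update_of_ne fun hc => hne' (σ.injective hc)]
        rfl
      · trivial
  have hmv : ∀ u w : V ⊕ Q, Act (insert v S) u → Act (insert v S) w → u ≠ .inr q →
      w ≠ .inr q → mv v q u = mv v q w → u = w := by
    rintro (u | u) (w | w) hu hw hnu hnw he
    · by_cases h1 : u = v
      · by_cases h2 : w = v
        · rw [h1, h2]
        · rw [mv, mv, if_pos h1, if_neg h2] at he
          exact absurd he (by simp)
      · by_cases h2 : w = v
        · rw [mv, mv, if_neg h1, if_pos h2] at he
          exact absurd he (by simp)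
        · rw [mv, mv, if_neg h1, if_neg h2] at he
          exact he
    · by_cases h1 : u = v
      · rw [mv, mv, if_pos h1] at he
        exact absurd he.symm hnw
      · rw [mv, mv, if_neg h1] at he
        exact absurd he (by simp)
    · by_cases h1 : w = v
      · rw [mv, mv, if_pos h1] at he
        exact absurd he hnu
      · rw [mv, mv, if_neg h1] at he
        exact absurd he (by simp)
    · exact he
  refine ⟨?_, ?_, ?_, ?_⟩
  · rw [hord, h.card, Finset.card_insert_of_notMem hv]
    omega
  · intro u w hu hw huw
    by_cases h1 : u = .inr q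
    · by_cases h2 : w = .inr q
      · rw [h1, h2]
      · obtain ⟨h3, h4⟩ := hold w hw h2
        rw [h1, hnew, h3] at huw
        exact absurd huw (h.lt _ h4).ne'
    · by_cases h2 : w = .inr q
      · obtain ⟨h3, h4⟩ := hold u hu h1
        rw [h2, hnew, h3] at huw
        exact absurd huw (h.lt _ h4).ne
      · obtain ⟨h3, h4⟩ := hold u hu h1
        obtain ⟨h5, h6⟩ := hold w hw h2
        rw [h3, h5] at huw
        exact hmv u w hu hw h1 h2 (h.inj _ _ h4 h6 huw)
  · intro u hu
    by_cases h1 : u = .inr q
    · rw [h1, hnew, hord]
      exact Nat.lt_succ_self _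
    · obtain ⟨h3, h4⟩ := hold u hu h1
      rw [h3, hord]
      exact (h.lt _ h4).trans (Nat.lt_succ_self _)
  · intro u w hu hw
    show T.entry _ _ = _
    by_cases h1 : u = .inr q
    · rw [if_pos (Or.inl h1), h1, hnew, entry_out T _ _ (Or.inl le_rfl)]
    · by_cases h2 : w = .inr q
      · rw [if_pos (Or.inr h2), h2, hnew, entry_out T _ _ (Or.inr le_rfl)]
      · obtain ⟨h3, h4⟩ := hold u hu h1
        obtain ⟨h5, h6⟩ := hold w hw h2
        rw [if_neg (not_or.2 ⟨h1, h2⟩), h3, h5, h.eq _ _ h4 h6]

end rep

end Pool.Agent.W936.SS
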