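import Mathlib
import Pool.Agent.W936.SS.Blk

/-!
Batches of operations.
-/

set_option autoImplicit false

namespace Pool.Agent.W936.SS

open MvPolynomial Matrix

variable {R n : ℕ} {V Q : Type} [DecidableEq V] [DecidableEq Q]

/-- reachable entries -/
def Rch (σ : Q ≃ Fin R) (L : MvPolynomial (Fin n) ℂ → Prop) (c : Fin n → ℕ) (S : Finset V)
    (E : V ⊕ Q → V ⊕ Q → MvPolynomial (Fin n) ℂ) : Prop :=
  ∃ (T : Strip R n) (x : V → ℕ), Rep σ T x S E ∧ T.Entries L ∧ ∀ y, T.reads y ≤ c y

/-- costs -/
def cst (W : Finset (Fin n)) (k : ℕ) (y : Fin n) : ℕ := if y ∈ W then k else 0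

variable {σ : Q ≃ Fin R} {L : MvPolynomial (Fin n) ℂ → Prop} {c c' : Fin n → ℕ} {S : Finset V}
  {E E' : V ⊕ Q → V ⊕ Q → MvPolynomial (Fin n) ℂ} {W : Finset (Fin n)}

omit [DecidableEq V] [DecidableEq Q] in
theorem Rch.congr (h : Rch σ L c S E) (he : ∀ u v, Act S u → Act S v → E u v = E' u v) :
    Rch σ L c S E' := by
  obtain ⟨T, x, h1, h2, h3⟩ := h
  exact ⟨T, x, ⟨h1.card, h1.inj, h1.lt, fun u v hu hv => (h1.eq u v hu hv).trans (he u v hu hv)⟩,
    h2, h3⟩

omit [DecidableEq V] [DecidableEq Q] in
theorem Rch.mono (h : Rch σ L c S E) (hc : ∀ y, c y ≤ c' y) : Rch σ L c' S E := by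
  obtain ⟨T, x, h1, h2, h3⟩ := h
  exact ⟨T, x, h1, h2, fun y => (h3 y).trans (hc y)⟩

theorem Rch.tr (h : Rch σ L c S E) : Rch σ L c S fun u v => E v u := by
  obtain ⟨T, x, h1, h2, h3⟩ := h
  exact ⟨T.tr, x, h1.tr, tr_entries h2, fun y => (tr_reads T y).le.trans (h3 y)⟩

theorem Rch.add1 (h : Rch σ L c S E) (q q' : Q) {g : MvPolynomial (Fin n) ℂ} (hg : L g)
    (hW : g.vars ⊆ W) : Rch σ L (fun y => c y + cst W 1 y) S
      fun u v => E u v + if u = .inr q ∧ v = .inr q' then g else 0 := by
  classical
  obtain ⟨T, x, h1, h2, h3⟩ := h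
  refine ⟨_, x, h1.add q q' g, ⟨hg, h2⟩, fun y => ?_⟩
  refine Nat.add_le_add (h3 y) ?_
  rw [cst]
  by_cases hy : y ∈ g.vars
  · rw [if_pos hy, if_pos (hW hy)]
  · rw [if_neg hy]
    exact Nat.zero_le _

theorem Rch.col1 (h : Rch σ L c S E) (q q' : Q) {g : MvPolynomial (Fin n) ℂ} (hg : L g)
    (hW : g.vars ⊆ W) : Rch σ L (fun y => c y + cst W 1 y) S
      fun u v => E u v + if v = .inr q then g * E u (.inr q') else 0 := by
  classical
  obtain ⟨T, x, h1, h2, h3⟩ := h
  refine ⟨_, x, h1.col q q' g, ⟨hg, h2⟩, fun y => ?_⟩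
  refine Nat.add_le_add (h3 y) ?_
  rw [cst]
  by_cases hy : y ∈ g.vars
  · rw [if_pos hy, if_pos (hW hy)]
  · rw [if_neg hy]
    exact Nat.zero_le _

theorem cst_succ (W : Finset (Fin n)) (k : ℕ) (y : Fin n) :
    cst W (k + 1) y = cst W k y + cst W 1 y := by
  rw [cst, cst, cst]
  split_ifs <;> omega

theorem cst_zero (W : Finset (Fin n)) (y : Fin n) : cst W 0 y = 0 := by
  rw [cst]
  split_ifs <;> rfl

/-- added entries at the ports -/
noncomputable def prt (Z : Q → Q → MvPolynomial (Fin n) ℂ) : V ⊕ Q → V ⊕ Q → MvPolynomial (Fin n) ℂ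
  | .inr p, .inr q => Z p q
  | _, _ => 0

theorem Rch.addB [Fintype Q] (h : Rch σ L c S E) (Z : Q → Q → MvPolynomial (Fin n) ℂ)
    (hZ : ∀ p q, L (Z p q)) (hW : ∀ p q, (Z p q).vars ⊆ W) :
    Rch σ L (fun y => c y + cst W (Fintype.card (Q × Q)) y) S
      fun u v => E u v + prt Z u v := by
  have key : ∀ s : Finset (Q × Q), Rch σ L (fun y => c y + cst W s.card y) S
      fun u v => E u v + ∑ o ∈ s, if u = .inr o.1 ∧ v = .inr o.2 then Z o.1 o.2 else 0 := by
    intro s
    induction s using Finset.induction_on with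
    | empty =>
      refine (h.mono fun y => Nat.le_add_right _ _).congr fun u v _ _ => ?_
      rw [Finset.sum_empty, add_zero]
    | insert o s ho ih =>
      refine ((ih.add1 o.1 o.2 (hZ o.1 o.2) (hW o.1 o.2)).mono fun y => ?_).congr
        fun u v _ _ => ?_
      · rw [Finset.card_insert_of_notMem ho, cst_succ W s.card y]
        omega
      · rw [Finset.sum_insert ho]
        ring
  refine (key Finset.univ).congr fun u v _ _ => ?_
  congr 1
  rcases u with u | p <;> rcases v with v | q
  · exact Finset.sum_eq_zero fun o _ => if_neg fun hc => by simp at hc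
  · exact Finset.sum_eq_zero fun o _ => if_neg fun hc => by simp at hc
  · exact Finset.sum_eq_zero fun o _ => if_neg fun hc => by simp at hc
  · rw [Finset.sum_eq_single (p, q), if_pos ⟨rfl, rfl⟩]
    · rfl
    · intro o _ ho
      refine if_neg fun hc => ho ?_
      exact Prod.ext (Sum.inr.inj hc.1).symm (Sum.inr.inj hc.2).symm
    · exact fun hc => absurd (Finset.mem_univ _) hc

/-- the effect of column operations from the ports outside of `D` to the ports in `D` -/
noncomputable def colf [Fintype Q] (D : Q → Bool) (G : Q → Q → MvPolynomial (Fin n) ℂ)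
    (E : V ⊕ Q → V ⊕ Q → MvPolynomial (Fin n) ℂ) (u : V ⊕ Q) :
    V ⊕ Q → MvPolynomial (Fin n) ℂ
  | .inl v => E u (.inl v)
  | .inr q => if D q then E u (.inr q) + ∑ p, (if D p then 0 else G p q * E u (.inr p))
      else E u (.inr q)

theorem Rch.colB [Fintype Q] (h : Rch σ L c S E) (D : Q → Bool)
    (G : Q → Q → MvPolynomial (Fin n) ℂ) (hG : ∀ p q, L (G p q))
    (hW : ∀ p q, (G p q).vars ⊆ W) :
    Rch σ L (fun y => c y + cst W (Fintype.card (Q × Q)) y) S (colf D G E) := by
  have key : ∀ s : Finset (Q × Q), (∀ o ∈ s, D o.1 = false ∧ D o.2 = true) →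
      Rch σ L (fun y => c y + cst W s.card y) S
      fun u v => E u v + ∑ o ∈ s, if v = .inr o.2 then G o.1 o.2 * E u (.inr o.1) else 0 := by
    intro s
    induction s using Finset.induction_on with
    | empty =>
      intro _
      refine (h.mono fun y => Nat.le_add_right _ _).congr fun u v _ _ => ?_
      rw [Finset.sum_empty, add_zero]
    | insert o s ho ih =>
      intro hs
      have ih' := ih fun o' ho' => hs o' (Finset.mem_insert_of_mem ho')
      refine ((ih'.col1 o.2 o.1 (hG o.1 o.2) (hW o.1 o.2)).mono fun y => ?_).congr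
        fun u v _ _ => ?_
      · rw [Finset.card_insert_of_notMem ho, cst_succ W s.card y]
        omega
      · have h1 : (∑ o' ∈ s, if (.inr o.1 : V ⊕ Q) = .inr o'.2 then
            G o'.1 o'.2 * E u (.inr o'.1) else 0) = 0 := by
          refine Finset.sum_eq_zero fun o' ho' => if_neg fun hc => ?_
          have h2 := (hs o (Finset.mem_insert_self _ _)).1
          have h3 := (hs o' (Finset.mem_insert_of_mem ho')).2
          rw [Sum.inr.inj hc, h3] at h2
          exact Bool.noConfusion h2
        rw [Finset.sum_insert ho, h1, add_zero]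
        ring
  have h1 := key (Finset.univ.filter fun o : Q × Q => D o.1 = false ∧ D o.2 = true)
    fun o ho => (Finset.mem_filter.1 ho).2
  refine (h1.mono fun y => ?_).congr fun u v _ _ => ?_
  · refine Nat.add_le_add_left ?_ _
    rw [cst, cst]
    split_ifs
    · exact Finset.card_le_univ _
    · exact le_rfl
  · rcases v with v | q
    · rw [colf, Finset.sum_eq_zero, add_zero]
      exact fun o _ => if_neg fun hc => by simp at hc
    · rw [colf, Finset.sum_filter, Fintype.sum_prod_type]
      by_cases hq : D q = true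
      · rw [if_pos hq]
        congr 1
        refine Finset.sum_congr rfl fun p _ => ?_
        rw [Finset.sum_eq_single q]
        · by_cases hp : D p = true
          · rw [if_pos hp, if_neg]
            exact fun hc => Bool.noConfusion (hp.symm.trans hc.1)
          · rw [if_neg hp, if_pos ⟨by simpa using hp, hq⟩, if_pos rfl]
        · intro q' _ hq'
          by_cases hc : D p = false ∧ D q' = true
          · rw [if_pos hc, if_neg]
            exact fun h => hq' (Sum.inr.inj h).symm
          · rw [if_neg hc]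
        · exact fun hc => absurd (Finset.mem_univ _) hc
      · rw [if_neg hq, Finset.sum_eq_zero, add_zero]
        intro p _
        refine Finset.sum_eq_zero fun q' _ => ?_
        by_cases hc : D p = false ∧ D q' = true
        · rw [if_pos hc, if_neg]
          intro h
          exact hq (by rw [Sum.inr.inj h]; exact hc.2)
        · rw [if_neg hc]

/-- the columns of the ports in `D` become zero -/
noncomputable def zcolf (D : Q → Bool) (E : V ⊕ Q → V ⊕ Q → MvPolynomial (Fin n) ℂ) (u : V ⊕ Q) :
    V ⊕ Q → MvPolynomial (Fin n) ℂ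
  | .inl v => E u (.inl v)
  | .inr q => if D q then 0 else E u (.inr q)

theorem Rch.zcolB [Fintype Q] (h : Rch σ L c S E) (D : Q → Bool) (hL : L (C (-1))) :
    Rch σ L c S (zcolf D E) := by
  have key : ∀ s : Finset Q, Rch σ L c S fun u v => if ∃ q ∈ s, v = .inr q then 0 else E u v := by
    intro s
    induction s using Finset.induction_on with
    | empty =>
      refine h.congr fun u v _ _ => ?_
      rw [if_neg]
      rintro ⟨q, hq, _⟩
      exact Finset.notMem_empty _ hq
    | insert o s ho ih =>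
      have h1 : (C (-1) : MvPolynomial (Fin n) ℂ).vars ⊆ (∅ : Finset (Fin n)) := by
        rw [vars_C]
      refine ((ih.col1 o o hL h1).mono fun y => ?_).congr fun u v _ _ => ?_
      · rw [cst, if_neg (Finset.notMem_empty y), add_zero]
      · have hex : (∃ q ∈ insert o s, v = .inr q) ↔ (v = .inr o ∨ ∃ q ∈ s, v = .inr q) := by
          simp
        have h2 : (C (-1) : MvPolynomial (Fin n) ℂ) = -1 := by rw [map_neg, C_1]
        by_cases hv : v = .inr o
        · subst hv
          rw [if_pos (hex.2 (Or.inl rfl)), if_pos rfl, h2, neg_one_mul, add_neg_cancel]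
        · rw [if_neg (c := v = .inr o) hv, add_zero]
          refine if_congr ?_ rfl rfl
          rw [hex]
          exact ⟨Or.inr, fun h => h.resolve_left hv⟩
  refine (key (Finset.univ.filter fun q => D q = true)).congr fun u v _ _ => ?_
  rcases v with v | q
  · rw [zcolf, if_neg]
    rintro ⟨q, _, h⟩
    simp at h
  · rw [zcolf]
    refine if_congr ?_ rfl rfl
    constructor
    · rintro ⟨p, hp, hpq⟩
      rw [Sum.inr.inj hpq]
      exact (Finset.mem_filter.1 hp).2
    · intro hq
      exact ⟨q, Finset.mem_filter.2 ⟨Finset.mem_univ _, hq⟩, rfl⟩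

theorem Rch.next1 (h : Rch σ L c S E) (q : Q) (v : V) (hv : v ∉ S) :
    Rch σ L c (insert v S)
      fun u w => if u = .inr q ∨ w = .inr q then 0 else E (mv v q u) (mv v q w) := by
  obtain ⟨T, x, h1, h2, h3⟩ := h
  exact ⟨_, _, h1.next q v hv, h2, h3⟩

open Classical in
/-- the effect of new ports `p y`, the old ones become the vertices `w y` -/
noncomputable def nextf {τ : Type} (p : τ → Q) (μ : V ⊕ Q → V ⊕ Q)
    (E : V ⊕ Q → V ⊕ Q → MvPolynomial (Fin n) ℂ) (u v : V ⊕ Q) : MvPolynomial (Fin n) ℂ :=
  if (∃ y, u = .inr (p y)) ∨ (∃ y, v = .inr (p y)) then 0 else E (μ u) (μ v)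

theorem Rch.nextB {τ : Type} [Fintype τ] [DecidableEq τ] (h : Rch σ L c S E) (p : τ → Q)
    (w : τ → V) (hp : Function.Injective p) (hw : Function.Injective w) (hS : ∀ y, w y ∉ S)
    (μ : V ⊕ Q → V ⊕ Q) (h1 : ∀ y, μ (.inl (w y)) = .inr (p y)) (h2 : ∀ v ∈ S, μ (.inl v) = .inl v)
    (h3 : ∀ q, μ (.inr q) = .inr q) :
    Rch σ L c (S ∪ Finset.univ.image w) (nextf p μ E) := by
  classical
  have key : ∀ s : Finset τ, Rch σ L c (S ∪ s.image w) fun u v =>
      if (∃ y ∈ s, u = .inr (p y)) ∨ (∃ y ∈ s, v = .inr (p y)) then 0 else E (μ u) (μ v) := by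
    intro s
    induction s using Finset.induction_on with
    | empty =>
      rw [Finset.image_empty, Finset.union_empty]
      refine h.congr fun u v hu hv => ?_
      have hμ : ∀ u : V ⊕ Q, Act S u → μ u = u := by
        rintro (u | u) hu
        · exact h2 u hu
        · exact h3 u
      rw [if_neg, hμ u hu, hμ v hv]
      rintro (⟨y, hy, _⟩ | ⟨y, hy, _⟩)
      · exact Finset.notMem_empty _ hy
      · exact Finset.notMem_empty _ hy
    | insert y s hy ih =>
      have hnot : w y ∉ S ∪ s.image w := by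
        rw [Finset.mem_union, not_or]
        refine ⟨hS y, fun hc => ?_⟩
        obtain ⟨z, hz, hzy⟩ := Finset.mem_image.1 hc
        exact hy (hw hzy ▸ hz)
      have h4 := ih.next1 (p y) (w y) hnot
      have h5 : insert (w y) (S ∪ s.image w) = S ∪ (insert y s).image w := by
        rw [Finset.image_insert, Finset.union_insert]
      rw [h5] at h4
      refine h4.congr fun u v hu hv => ?_
      -- the points after the move
      have hm : ∀ u : V ⊕ Q, Act (S ∪ (insert y s).image w) u → u ≠ .inr (p y) →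
          ((∃ z ∈ s, mv (w y) (p y) u = .inr (p z)) ↔ ∃ z ∈ insert y s, u = .inr (p z)) ∧
          μ (mv (w y) (p y) u) = μ u := by
        rintro (u | q) hu hne
        · by_cases huw : u = w y
          · subst huw
            have h6 : mv (w y) (p y) (.inl (w y)) = .inr (p y) := by rw [mv, if_pos rfl]
            rw [h6, h1, h3]
            refine ⟨⟨?_, ?_⟩, rfl⟩
            · rintro ⟨z, hz, hzy⟩
              have := hp (Sum.inr.inj hzy)
              exact absurd (this ▸ hz) hy
            · rintro ⟨z, _, hzy⟩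
              simp at hzy
          · have h6 : mv (w y) (p y) (.inl u) = .inl u := by rw [mv, if_neg huw]
            rw [h6]
            refine ⟨⟨?_, ?_⟩, rfl⟩
            · rintro ⟨z, _, hzy⟩
              simp at hzy
            · rintro ⟨z, _, hzy⟩
              simp at hzy
        · have h6 : mv (w y) (p y) (.inr q : V ⊕ Q) = .inr q := rfl
          rw [h6]
          refine ⟨⟨?_, ?_⟩, rfl⟩
          · rintro ⟨z, hz, hzy⟩
            exact ⟨z, Finset.mem_insert_of_mem hz, hzy⟩
          · rintro ⟨z, hz, hzy⟩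
            rcases Finset.mem_insert.1 hz with rfl | hz
            · exact absurd hzy hne
            · exact ⟨z, hz, hzy⟩
      by_cases hu1 : u = .inr (p y)
      · rw [if_pos (Or.inl hu1), if_pos (Or.inl ⟨y, Finset.mem_insert_self _ _, hu1⟩)]
      · by_cases hv1 : v = .inr (p y)
        · rw [if_pos (Or.inr hv1), if_pos (Or.inr ⟨y, Finset.mem_insert_self _ _, hv1⟩)]
        · rw [if_neg (not_or.2 ⟨hu1, hv1⟩), (hm u hu hu1).2, (hm v hv hv1).2]
          refine if_congr ?_ rfl rfl
          rw [(hm u hu hu1).1, (hm v hv hv1).1]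
  refine (key Finset.univ).congr fun u v _ _ => ?_
  rw [nextf]
  by_cases hc : (∃ y, u = .inr (p y)) ∨ (∃ y, v = .inr (p y))
  · rw [if_pos hc, if_pos]
    simpa using hc
  · rw [if_neg hc, if_neg]
    simpa using hc

end Pool.Agent.W936.SS
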