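import Mathlib
import Pool.Agent.W936.SS.Blk2

/-!
Block matrices which are sequentially semiseparable.
-/

set_option autoImplicit false

namespace Pool.Agent.W936.SS

open MvPolynomial Matrix

variable {R n : ℕ} {κ τ : Type} [Fintype κ] [DecidableEq κ] [Fintype τ] [DecidableEq τ]

/-- The product `a_i A_{i+1} ⋯ A_{i+k}`. -/
noncomputable def chain (a : ℕ → Matrix τ κ (MvPolynomial (Fin n) ℂ))
    (A : ℕ → Matrix κ κ (MvPolynomial (Fin n) ℂ)) (i : ℕ) : ℕ → Matrix τ κ (MvPolynomial (Fin n) ℂ)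
  | 0 => a i
  | k + 1 => chain a A i k * A (i + 1 + k)

/-- The matrices which generate a sequentially semiseparable matrix, see `Gens.entry`. -/
structure Gens (κ τ : Type) (n : ℕ) where
  /-- rows of the upper part -/
  a : ℕ → Matrix τ κ (MvPolynomial (Fin n) ℂ)
  /-- transitions of the upper part -/
  A : ℕ → Matrix κ κ (MvPolynomial (Fin n) ℂ)
  /-- columns of the upper part -/
  b : ℕ → Matrix κ τ (MvPolynomial (Fin n) ℂ)
  /-- columns of the lower part -/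
  e : ℕ → Matrix τ κ (MvPolynomial (Fin n) ℂ)
  /-- transitions of the lower part -/
  B : ℕ → Matrix κ κ (MvPolynomial (Fin n) ℂ)
  /-- rows of the lower part -/
  c : ℕ → Matrix κ τ (MvPolynomial (Fin n) ℂ)
  /-- the diagonal blocks -/
  d : ℕ → Matrix τ τ (MvPolynomial (Fin n) ℂ)

/-- The blocks of the matrix: `a_i A_{i+1} ⋯ A_{j-1} b_j` for `i < j`, the transpose of
`e_j B_{j+1} ⋯ B_{i-1} c_i` for `i > j`, and `d_i` for `i = j`. -/
noncomputable def Gens.entry (G : Gens κ τ n) (i j : ℕ) (y z : τ) : MvPolynomial (Fin n) ℂ :=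
  if i < j then (chain G.a G.A i (j - i - 1) * G.b j) y z
  else if j < i then (chain G.e G.B j (i - j - 1) * G.c i) z y
  else G.d i y z

/-- The matrix with `N × N` blocks. -/
noncomputable def Gens.mat (G : Gens κ τ n) (N : ℕ) :
    Matrix (Fin N × τ) (Fin N × τ) (MvPolynomial (Fin n) ℂ) :=
  Matrix.of fun u v => G.entry u.1 v.1 u.2 v.2

/-- All entries of the generators with index `< N` have the property `L`. -/
def Gens.All (G : Gens κ τ n) (N : ℕ) (L : MvPolynomial (Fin n) ℂ → Prop) : Prop :=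
  ∀ i < N, (∀ y k, L (G.a i y k)) ∧ (∀ k l, L (G.A i k l)) ∧ (∀ k y, L (G.b i k y)) ∧
    (∀ y k, L (G.e i y k)) ∧ (∀ k l, L (G.B i k l)) ∧ (∀ k y, L (G.c i k y)) ∧
    ∀ y z, L (G.d i y z)

/-- The variable `x` occurs in a generator with index `i`. -/
def Gens.Occ (G : Gens κ τ n) (i : ℕ) (x : Fin n) : Prop :=
  (∃ y k, x ∈ (G.a i y k).vars) ∨ (∃ k l, x ∈ (G.A i k l).vars) ∨ (∃ k y, x ∈ (G.b i k y).vars) ∨
    (∃ y k, x ∈ (G.e i y k).vars) ∨ (∃ k l, x ∈ (G.B i k l).vars) ∨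
    (∃ k y, x ∈ (G.c i k y).vars) ∨ ∃ y z, x ∈ (G.d i y z).vars

section step

variable {V : Type} [DecidableEq V]

/-- spare ports -/
def isS : (κ ⊕ κ) ⊕ τ → Bool
  | .inl (.inr _) => true
  | _ => false

/-- carriers -/
def isK : (κ ⊕ κ) ⊕ τ → Bool
  | .inl (.inl _) => true
  | _ => false

/-- current vertices -/
def isV : (κ ⊕ κ) ⊕ τ → Bool
  | .inr _ => true
  | _ => false

/-- multiplication of the columns of the carriers by the matrix `A` -/
noncomputable def mulf (A : Matrix κ κ (MvPolynomial (Fin n) ℂ))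
    (E : V ⊕ ((κ ⊕ κ) ⊕ τ) → V ⊕ ((κ ⊕ κ) ⊕ τ) → MvPolynomial (Fin n) ℂ)
    (u : V ⊕ ((κ ⊕ κ) ⊕ τ)) : V ⊕ ((κ ⊕ κ) ⊕ τ) → MvPolynomial (Fin n) ℂ
  | .inl v => E u (.inl v)
  | .inr (.inl (.inl k)) => ∑ l, E u (.inr (.inl (.inl l))) * A l k
  | .inr (.inl (.inr _)) => 0
  | .inr (.inr y) => E u (.inr (.inr y))

/-- coefficients from the carriers to the spare ports -/
noncomputable def gKS (A : Matrix κ κ (MvPolynomial (Fin n) ℂ)) :
    (κ ⊕ κ) ⊕ τ → (κ ⊕ κ) ⊕ τ → MvPolynomial (Fin n) ℂ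
  | .inl (.inl l), .inl (.inr k) => A l k
  | _, _ => C 0

/-- coefficients from the spare ports to the carriers -/
noncomputable def gSK : (κ ⊕ κ) ⊕ τ → (κ ⊕ κ) ⊕ τ → MvPolynomial (Fin n) ℂ
  | .inl (.inr l), .inl (.inl k) => if l = k then C 1 else C 0
  | _, _ => C 0

/-- coefficients from the carriers to the current vertices -/
noncomputable def gKV (b : Matrix κ τ (MvPolynomial (Fin n) ℂ)) :
    (κ ⊕ κ) ⊕ τ → (κ ⊕ κ) ⊕ τ → MvPolynomial (Fin n) ℂ
  | .inl (.inl l), .inr y => b l y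
  | _, _ => C 0

/-- added entries -/
noncomputable def gZ (a e : Matrix τ κ (MvPolynomial (Fin n) ℂ))
    (d : Matrix τ τ (MvPolynomial (Fin n) ℂ)) :
    (κ ⊕ κ) ⊕ τ → (κ ⊕ κ) ⊕ τ → MvPolynomial (Fin n) ℂ
  | .inr y, .inl (.inl k) => a y k
  | .inl (.inl k), .inr y => e y k
  | .inr y, .inr z => d y z
  | _, _ => C 0

/-- the number of pairs of ports -/
def pr (κ τ : Type) [Fintype κ] [Fintype τ] : ℕ :=
  Fintype.card (((κ ⊕ κ) ⊕ τ) × ((κ ⊕ κ) ⊕ τ))

variable {σ : (κ ⊕ κ) ⊕ τ ≃ Fin R} {L : MvPolynomial (Fin n) ℂ → Prop} {c : Fin n → ℕ}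
  {S : Finset V} {E : V ⊕ ((κ ⊕ κ) ⊕ τ) → V ⊕ ((κ ⊕ κ) ⊕ τ) → MvPolynomial (Fin n) ℂ}
  {W : Finset (Fin n)}

theorem Rch.mul (h : Rch σ L c S E) (hL : ∀ z, L (C z)) (A : Matrix κ κ (MvPolynomial (Fin n) ℂ))
    (hA : ∀ l k, L (A l k)) (hW : ∀ l k, (A l k).vars ⊆ W)
    (hs : ∀ u k, Act S u → E u (.inr (.inl (.inr k))) = 0) :
    Rch σ L (fun y => c y + cst W (2 * pr κ τ) y) S (mulf A E) := by
  have hv0 : ∀ z : ℂ, (C z : MvPolynomial (Fin n) ℂ).vars ⊆ W := fun z => by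
    rw [vars_C]
    exact Finset.empty_subset _
  have h1 := h.colB isS (gKS A) (W := W) (by
    rintro ((l | l) | y) ((k | k) | z) <;> first | exact hL 0 | exact hA _ _) (by
    rintro ((l | l) | y) ((k | k) | z) <;> first | exact hv0 0 | exact hW _ _)
  have h2 := h1.zcolB isK (hL (-1))
  have h3 := h2.colB isK gSK (W := W) (by
    rintro ((l | l) | y) ((k | k) | z) <;> first | exact hL 0 | (simp only [gSK]; split_ifs <;> exact hL _)) (by
    rintro ((l | l) | y) ((k | k) | z) <;> first | exact hv0 0 | (simp only [gSK]; split_ifs <;> exact hv0 _))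
  have h4 := h3.zcolB isS (hL (-1))
  refine (h4.mono fun y => ?_).congr fun u v hu hv => ?_
  · rw [cst, cst]
    split_ifs
    · rw [pr]
      omega
    · omega
  · rcases v with v | (k | k) | y
    · rfl
    · simp only [zcolf, colf, isS, isK, gSK, gKS, mulf, Fintype.sum_sum_type, hs u _ hu, C_0, C_1]
      simp [mul_comm]
    · rfl
    · simp [zcolf, colf, isS, isK, mulf]

end step

end Pool.Agent.W936.SS
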