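import Mathlib
import Pool.Agent.W936.SS.Blk3

/-!
The steps of the description.
-/

set_option autoImplicit false
set_option linter.unusedSimpArgs false
set_option linter.unusedSectionVars false

namespace Pool.Agent.W936.SS

open MvPolynomial Matrix

variable {R n N : ℕ} {κ τ : Type} [Fintype κ] [DecidableEq κ] [Fintype τ] [DecidableEq τ]

/-- the entries after `t` steps -/
noncomputable def stt (G : Gens κ τ n) (N t : ℕ) : (Fin N × τ) ⊕ ((κ ⊕ κ) ⊕ τ) →
    (Fin N × τ) ⊕ ((κ ⊕ κ) ⊕ τ) → MvPolynomial (Fin n) ℂ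
  | .inl u, .inl v => G.entry u.1 v.1 u.2 v.2
  | .inl u, .inr (.inl (.inl k)) => chain G.a G.A u.1 (t - u.1 - 1) u.2 k
  | .inr (.inl (.inl k)), .inl v => chain G.e G.B v.1 (t - v.1 - 1) v.2 k
  | _, _ => 0

/-- the vertices with index `< t` -/
def upto (N : ℕ) (τ : Type) [Fintype τ] (t : ℕ) : Finset (Fin N × τ) :=
  Finset.univ.filter fun u => (u.1 : ℕ) < t

/-- the old place of a vertex or port -/
def mun (t : ℕ) : (Fin N × τ) ⊕ ((κ ⊕ κ) ⊕ τ) → (Fin N × τ) ⊕ ((κ ⊕ κ) ⊕ τ)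
  | .inl u => if (u.1 : ℕ) = t then .inr (.inr u.2) else .inl u
  | .inr q => .inr q

theorem chain_step {a : ℕ → Matrix τ κ (MvPolynomial (Fin n) ℂ)}
    {A : ℕ → Matrix κ κ (MvPolynomial (Fin n) ℂ)} {i t : ℕ} (h : i < t) :
    chain a A i (t + 1 - i - 1) = chain a A i (t - i - 1) * A t := by
  have h1 : t + 1 - i - 1 = (t - i - 1) + 1 := by omega
  have h2 : i + 1 + (t - i - 1) = t := by omega
  rw [h1, chain, h2]

theorem chain_zero {a : ℕ → Matrix τ κ (MvPolynomial (Fin n) ℂ)}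
    {A : ℕ → Matrix κ κ (MvPolynomial (Fin n) ℂ)} {t : ℕ} :
    chain a A t (t + 1 - t - 1) = a t := by
  have h1 : t + 1 - t - 1 = 0 := by omega
  rw [h1, chain]

section step

variable {σ : (κ ⊕ κ) ⊕ τ ≃ Fin R} {L : MvPolynomial (Fin n) ℂ → Prop} {c : Fin n → ℕ}
  {W : Finset (Fin n)} {G : Gens κ τ n} {t : ℕ}

/-- the entries before the renaming of the ports -/
noncomputable def pre (G : Gens κ τ n) (N t : ℕ) : (Fin N × τ) ⊕ ((κ ⊕ κ) ⊕ τ) →
    (Fin N × τ) ⊕ ((κ ⊕ κ) ⊕ τ) → MvPolynomial (Fin n) ℂ := fun u v =>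
  mulf (G.B t) (fun u v => mulf (G.A t) (fun u v => colf isV (gKV (G.c t))
    (fun u v => colf isV (gKV (G.b t)) (stt G N t) v u) v u) v u) v u +
      prt (gZ (G.a t) (G.e t) (G.d t)) u v

theorem gKV_mem {P : MvPolynomial (Fin n) ℂ → Prop} (h0 : P (C 0))
    {b : Matrix κ τ (MvPolynomial (Fin n) ℂ)} (hb : ∀ l y, P (b l y)) :
    ∀ p q : (κ ⊕ κ) ⊕ τ, P (gKV b p q)
  | .inl (.inl l), .inr y => hb l y
  | .inl (.inl _), .inl _ => h0
  | .inl (.inr _), _ => h0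
  | .inr _, _ => h0

theorem gZ_mem {P : MvPolynomial (Fin n) ℂ → Prop} (h0 : P (C 0))
    {a e : Matrix τ κ (MvPolynomial (Fin n) ℂ)} {d : Matrix τ τ (MvPolynomial (Fin n) ℂ)}
    (ha : ∀ y k, P (a y k)) (he : ∀ y k, P (e y k)) (hd : ∀ y z, P (d y z)) :
    ∀ p q : (κ ⊕ κ) ⊕ τ, P (gZ a e d p q)
  | .inr y, .inl (.inl k) => ha y k
  | .inl (.inl k), .inr y => he y k
  | .inr y, .inr z => hd y z
  | .inl (.inl _), .inl _ => h0
  | .inl (.inr _), _ => h0
  | .inr _, .inl (.inr _) => h0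

theorem rch_pre (h : Rch σ L c (upto N τ t) (stt G N t)) (hL : ∀ z, L (C z)) (hG : G.All N L)
    (ht : t < N) (hW : ∀ x, G.Occ t x → x ∈ W) :
    Rch σ L (fun y => c y + cst W (7 * pr κ τ) y) (upto N τ t) (pre G N t) := by
  have hv0 : ∀ z : ℂ, (C z : MvPolynomial (Fin n) ℂ).vars ⊆ W := fun z => by
    rw [vars_C]
    exact Finset.empty_subset _
  obtain ⟨ga, gA, gb, ge, gB, gc, gd⟩ := hG t ht
  have wa : ∀ y k, (G.a t y k).vars ⊆ W := fun y k x hx => hW x (Or.inl ⟨y, k, hx⟩)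
  have wA : ∀ y k, (G.A t y k).vars ⊆ W := fun y k x hx => hW x (Or.inr (Or.inl ⟨y, k, hx⟩))
  have wb : ∀ y k, (G.b t y k).vars ⊆ W :=
    fun y k x hx => hW x (Or.inr (Or.inr (Or.inl ⟨y, k, hx⟩)))
  have we : ∀ y k, (G.e t y k).vars ⊆ W :=
    fun y k x hx => hW x (Or.inr (Or.inr (Or.inr (Or.inl ⟨y, k, hx⟩))))
  have wB : ∀ y k, (G.B t y k).vars ⊆ W :=
    fun y k x hx => hW x (Or.inr (Or.inr (Or.inr (Or.inr (Or.inl ⟨y, k, hx⟩)))))
  have wc : ∀ y k, (G.c t y k).vars ⊆ W :=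
    fun y k x hx => hW x (Or.inr (Or.inr (Or.inr (Or.inr (Or.inr (Or.inl ⟨y, k, hx⟩))))))
  have wd : ∀ y k, (G.d t y k).vars ⊆ W :=
    fun y k x hx => hW x (Or.inr (Or.inr (Or.inr (Or.inr (Or.inr (Or.inr ⟨y, k, hx⟩))))))
  have h1 := h.colB isV (gKV (G.b t)) (gKV_mem (hL 0) gb)
    (gKV_mem (P := fun g => g.vars ⊆ W) (hv0 0) wb)
  have h2 := h1.tr.colB isV (gKV (G.c t)) (gKV_mem (hL 0) gc)
    (gKV_mem (P := fun g => g.vars ⊆ W) (hv0 0) wc)
  have h3 := h2.tr.mul hL (G.A t) gA wA (by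
    rintro (u | (k | k) | y) l hu <;> simp [colf, isV, stt, gKV])
  have h4 := h3.tr.mul hL (G.B t) gB wB (by
    rintro (u | (k | k) | y) l hu <;> simp [colf, isV, stt, mulf, gKV])
  have h5 := h4.tr.addB (gZ (G.a t) (G.e t) (G.d t)) (gZ_mem (hL 0) ga ge gd)
    (gZ_mem (P := fun g => g.vars ⊆ W) (hv0 0) wa we wd)
  refine (h5.mono fun y => ?_).congr fun u v _ _ => rfl
  have hpr : Fintype.card (((κ ⊕ κ) ⊕ τ) × ((κ ⊕ κ) ⊕ τ)) = pr κ τ := rfl
  simp only [hpr]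
  simp only [cst]
  split_ifs
  · omega
  · omega

theorem rch_step (h : Rch σ L c (upto N τ t) (stt G N t)) (hL : ∀ z, L (C z)) (hG : G.All N L)
    (ht : t < N) (hW : ∀ x, G.Occ t x → x ∈ W) :
    Rch σ L (fun y => c y + cst W (7 * pr κ τ) y) (upto N τ (t + 1)) (stt G N (t + 1)) := by
  have h1 := (rch_pre h hL hG ht hW).nextB (τ := τ) (fun y => .inr y) (fun y => (⟨t, ht⟩, y))
    (fun y z hyz => Sum.inr.inj hyz) (fun y z hyz => (Prod.ext_iff.1 hyz).2)
    (fun y hy => by simp [upto] at hy) (mun t) (fun y => by simp [mun])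
    (fun v hv => by
      have hv' : (v.1 : ℕ) < t := (Finset.mem_filter.1 hv).2
      simp only [mun, if_neg hv'.ne]) (fun q => rfl)
  have h2 : upto N τ t ∪ Finset.univ.image (fun y : τ => ((⟨t, ht⟩ : Fin N), y)) =
      upto N τ (t + 1) := by
    ext ⟨i, y⟩
    simp only [upto, Finset.mem_union, Finset.mem_filter, Finset.mem_univ, true_and,
      Finset.mem_image, Prod.mk.injEq]
    constructor
    · rintro (h | ⟨z, h, _⟩)
      · omega
      · rw [← h]
        exact Nat.lt_succ_self t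
    · intro h
      by_cases hi : (i : ℕ) = t
      · exact Or.inr ⟨y, Fin.ext hi.symm, rfl⟩
      · exact Or.inl (by omega)
  rw [h2] at h1
  refine h1.congr ?_
  have hlt : ∀ u : Fin N × τ, Act (Q := (κ ⊕ κ) ⊕ τ) (upto N τ (t + 1)) (.inl u) →
      (u.1 : ℕ) = t ∨ (u.1 : ℕ) < t := by
    intro u hu
    have := (Finset.mem_filter.1 (show u ∈ upto N τ (t + 1) from hu)).2
    omega
  rintro (u | (k | k) | y) (v | (l | l) | z) hu hv
  · -- vertex, vertex
    rw [nextf, if_neg (by simp)]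
    rcases hlt u hu with h3 | h3 <;> rcases hlt v hv with h4 | h4
    · simp [mun, h3, h4, pre, mulf, colf, isV, stt, gKV, prt, gZ, Gens.entry]
    · simp [mun, h3, h4.ne, pre, mulf, colf, isV, stt, gKV, prt, gZ, Gens.entry, h4,
        not_lt.2 h4.le, Matrix.mul_apply, mul_comm]
    · simp [mun, h4, h3.ne, pre, mulf, colf, isV, stt, gKV, prt, gZ, Gens.entry, h3,
        Matrix.mul_apply, mul_comm]
    · simp [mun, h3.ne, h4.ne, pre, mulf, colf, isV, stt, gKV, prt]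
  · rw [nextf, if_neg (by simp)]
    rcases hlt u hu with h3 | h3
    · simp [mun, h3, pre, mulf, colf, isV, stt, gKV, prt, gZ, chain]
    · simp [mun, h3.ne, pre, mulf, colf, isV, stt, gKV, prt, gZ, chain_step h3, Matrix.mul_apply]
  · rw [nextf, if_neg (by simp)]
    rcases hlt u hu with h3 | h3
    · simp [mun, h3, pre, mulf, colf, isV, stt, gKV, prt, gZ]
    · simp [mun, h3.ne, pre, mulf, colf, isV, stt, gKV, prt, gZ]
  · rw [nextf, if_pos (by simp)]
    simp [stt]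
  · rw [nextf, if_neg (by simp)]
    rcases hlt v hv with h3 | h3
    · simp [mun, h3, pre, mulf, colf, isV, stt, gKV, prt, gZ, chain]
    · simp [mun, h3.ne, pre, mulf, colf, isV, stt, gKV, prt, gZ, chain_step h3, Matrix.mul_apply]
  · rw [nextf, if_neg (by simp)]
    simp [mun, pre, mulf, colf, isV, stt, gKV, prt, gZ]
  · rw [nextf, if_neg (by simp)]
    simp [mun, pre, mulf, colf, isV, stt, gKV, prt, gZ]
  · rw [nextf, if_pos (by simp)]
    simp [stt]
  · rw [nextf, if_neg (by simp)]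
    rcases hlt v hv with h3 | h3
    · simp [mun, h3, pre, mulf, colf, isV, stt, gKV, prt, gZ]
    · simp [mun, h3.ne, pre, mulf, colf, isV, stt, gKV, prt, gZ]
  · rw [nextf, if_neg (by simp)]
    simp [mun, pre, mulf, colf, isV, stt, gKV, prt, gZ]
  · rw [nextf, if_neg (by simp)]
    simp [mun, pre, mulf, colf, isV, stt, gKV, prt, gZ]
  · rw [nextf, if_pos (by simp)]
    simp [stt]
  · rw [nextf, if_pos (by simp)]
    simp [stt]
  · rw [nextf, if_pos (by simp)]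
    simp [stt]
  · rw [nextf, if_pos (by simp)]
    simp [stt]
  · rw [nextf, if_pos (by simp)]
    simp [stt]

end step

end Pool.Agent.W936.SS
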