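import Mathlib
import Pool.Agent.W936.SS.Blk4

/-!
Descriptions of sequentially semiseparable matrices.
-/

set_option autoImplicit false
set_option linter.unusedSectionVars false

namespace Pool.Agent.W936.SS

open MvPolynomial Matrix

open Pool.Agent.W936.VN (Prg prg_mono prg_const)

variable {R n : ℕ}

section det

variable {V Q : Type} [Fintype V] [DecidableEq V] [Fintype Q] [DecidableEq Q]

theorem rep_det {σ : Q ≃ Fin R} {T : Strip R n} {x : V → ℕ}
    {E : V ⊕ Q → V ⊕ Q → MvPolynomial (Fin n) ℂ} (h : Rep σ T x Finset.univ E) :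
    T.mat.det = (Matrix.of E : Matrix (V ⊕ Q) (V ⊕ Q) (MvPolynomial (Fin n) ℂ)).det := by
  have hA : ∀ u : V ⊕ Q, Act Finset.univ u := by
    rintro (u | u)
    · exact Finset.mem_univ _
    · trivial
  set f : V ⊕ Q → Fin T.order := fun u => ⟨loc σ T x u, h.lt u (hA u)⟩ with hf
  have hinj : Function.Injective f := fun u v huv =>
    h.inj u v (hA u) (hA v) (congrArg Fin.val huv)
  have hcard : Fintype.card (V ⊕ Q) = Fintype.card (Fin T.order) := by
    rw [Fintype.card_fin, h.card, Fintype.card_sum, Finset.card_univ,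
      Fintype.card_congr σ, Fintype.card_fin]
  have hbij := (Fintype.bijective_iff_injective_and_card f).2 ⟨hinj, hcard⟩
  rw [← Matrix.det_submatrix_equiv_self (Equiv.ofBijective f hbij)]
  congr 1
  ext1 u v
  exact h.eq u v (hA u) (hA v)

end det

section all

variable {N : ℕ} {κ τ : Type} [Fintype κ] [DecidableEq κ] [Fintype τ] [DecidableEq τ]
  {σ : (κ ⊕ κ) ⊕ τ ≃ Fin R} {L : MvPolynomial (Fin n) ℂ → Prop} {G : Gens κ τ n}

open Classical in
/-- the number of indices `i < N` such that `x` occurs in a generator with index `i` -/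
noncomputable def Gens.count (G : Gens κ τ n) (N : ℕ) (x : Fin n) : ℕ :=
  ((Finset.range N).filter fun i => G.Occ i x).card

theorem rch_all (hL : ∀ z, L (C z)) (hG : G.All N L) : ∀ t ≤ N,
    Rch σ L (fun x => 7 * pr κ τ * G.count t x) (upto N τ t) (stt G N t) := by
  classical
  intro t
  induction t with
  | zero =>
    intro _
    have h0 : upto N τ 0 = ∅ := Finset.filter_eq_empty_iff.2 fun u _ => Nat.not_lt_zero _
    rw [h0]
    refine ⟨.start, fun _ => 0, ?_, trivial, fun y => Nat.zero_le _⟩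
    have h1 := Rep.start (n := n) (V := Fin N × τ) (σ := σ) fun _ => 0
    refine ⟨h1.card, h1.inj, h1.lt, fun u v hu hv => ?_⟩
    rcases u with u | u
    · exact absurd hu (Finset.notMem_empty u)
    · rcases v with v | v
      · exact absurd hv (Finset.notMem_empty v)
      · rcases u with (u | u) | u <;> rcases v with (v | v) | v <;> rfl
  | succ t ih =>
    intro ht
    have h1 := ih (Nat.le_of_succ_le ht)
    refine (rch_step (W := Finset.univ.filter fun x => G.Occ t x) h1 hL hG ht
      fun x hx => Finset.mem_filter.2 ⟨Finset.mem_univ _, hx⟩).mono fun x => ?_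
    have h2 : G.count (t + 1) x = G.count t x + if G.Occ t x then 1 else 0 := by
      rw [Gens.count, Gens.count, Finset.range_add_one, Finset.filter_insert]
      by_cases hx : G.Occ t x
      · rw [if_pos hx, if_pos hx, Finset.card_insert_of_notMem]
        intro hc
        exact Finset.notMem_range_self (Finset.mem_filter.1 hc).1
      · rw [if_neg hx, if_neg hx, add_zero]
    rw [h2, cst, Nat.mul_add]
    by_cases hx : G.Occ t x
    · rw [if_pos (Finset.mem_filter.2 ⟨Finset.mem_univ _, hx⟩), if_pos hx, Nat.mul_one]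
    · rw [if_neg fun hc => hx (Finset.mem_filter.1 hc).2]
      omega

/-- the final entries -/
noncomputable def fin4 (G : Gens κ τ n) (N : ℕ) : (Fin N × τ) ⊕ ((κ ⊕ κ) ⊕ τ) →
    (Fin N × τ) ⊕ ((κ ⊕ κ) ⊕ τ) → MvPolynomial (Fin n) ℂ
  | .inl u, .inl v => G.entry u.1 v.1 u.2 v.2
  | .inr p, .inr q => if p = q then C 1 else C 0
  | _, _ => 0

/-- every sequentially semiseparable matrix has a description by its generators -/
theorem gens_strip (σ : (κ ⊕ κ) ⊕ τ ≃ Fin R) (hL : ∀ z, L (C z)) (hG : G.All N L) :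
    ∃ T : Strip R n, T.mat.det = (G.mat N).det ∧ T.Entries L ∧
      ∀ x, T.reads x ≤ 7 * pr κ τ * G.count N x := by
  have h0 := rch_all (σ := σ) hL hG N le_rfl
  have h1 := h0.zcolB (fun _ => true) (hL (-1))
  have h2 := h1.tr.zcolB (fun _ => true) (hL (-1))
  have h3 := h2.tr.addB (fun p q => if p = q then C 1 else C 0) (W := ∅)
    (fun p q => by split_ifs <;> exact hL _)
    (fun p q => by split_ifs <;> rw [vars_C])
  have h4 : Rch σ L (fun x => 7 * pr κ τ * G.count N x) (upto N τ N) (fin4 G N) := by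
    refine (h3.mono fun y => ?_).congr fun u v _ _ => ?_
    · rw [cst, if_neg (Finset.notMem_empty y), add_zero]
    · rcases u with u | p <;> rcases v with v | q
      · simp [zcolf, prt, fin4, stt]
      · simp [zcolf, prt, fin4]
      · simp [zcolf, prt, fin4]
      · simp [zcolf, prt, fin4]
  have h5 : upto N τ N = Finset.univ :=
    Finset.filter_true_of_mem fun u _ => u.1.2
  rw [h5] at h4
  obtain ⟨T, x, h6, h7, h8⟩ := h4
  refine ⟨T, ?_, h7, h8⟩
  rw [rep_det h6]
  have h9 : (Matrix.of (fin4 G N) : Matrix ((Fin N × τ) ⊕ ((κ ⊕ κ) ⊕ τ))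
      ((Fin N × τ) ⊕ ((κ ⊕ κ) ⊕ τ)) (MvPolynomial (Fin n) ℂ)) =
      Matrix.fromBlocks (G.mat N) 0 0 1 := by
    ext1 u v
    rcases u with u | p <;> rcases v with v | q
    · rfl
    · rfl
    · rfl
    · show (if p = q then C 1 else C 0) = (1 : Matrix _ _ (MvPolynomial (Fin n) ℂ)) p q
      rw [Matrix.one_apply, C_1, C_0]
  rw [h9, Matrix.det_fromBlocks_zero₂₁, Matrix.det_one, mul_one]

theorem entries_imp {L L' : MvPolynomial (Fin n) ℂ → Prop} (h : ∀ g, L g → L' g)
    {T : Strip R n} (hT : T.Entries L) : T.Entries L' := by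
  induction T with
  | start => trivial
  | add i j g T ih => exact ⟨h _ hT.1, ih hT.2⟩
  | col i j g T ih => exact ⟨h _ hT.1, ih hT.2⟩
  | row i j g T ih => exact ⟨h _ hT.1, ih hT.2⟩
  | next i T ih => exact ih hT

theorem all_imp {L L' : MvPolynomial (Fin n) ℂ → Prop} (h : ∀ g, L g → L' g)
    (hG : G.All N L) : G.All N L' := by
  intro i hi
  obtain ⟨h1, h2, h3, h4, h5, h6, h7⟩ := hG i hi
  exact ⟨fun y k => h _ (h1 y k), fun y k => h _ (h2 y k), fun y k => h _ (h3 y k),
    fun y k => h _ (h4 y k), fun y k => h _ (h5 y k), fun y k => h _ (h6 y k),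
    fun y k => h _ (h7 y k)⟩

/-- the width of the linear programs for the determinants -/
def wid (κ τ : Type) [Fintype κ] [Fintype τ] (w : ℕ) : ℕ :=
  7 * pr κ τ * w + w + 2 ^ (Fintype.card ((κ ⊕ κ) ⊕ τ) * Fintype.card ((κ ⊕ κ) ⊕ τ))

/-- the determinants are computed by linear programs of bounded width -/
theorem gens_prg {w s D : ℕ} (hG : G.All N (Prg w s D)) (hr : ∀ x, G.count N x ≤ w) :
    Prg (wid κ τ w) (s + 2) (D + 1) (G.mat N).det := by
  obtain ⟨T, h1, h2, h3⟩ := gens_strip (G := G) (N := N) (L := Prg w (s + 1) D)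
    (Fintype.equivFin ((κ ⊕ κ) ⊕ τ)) (fun z => prg_const z)
    (all_imp (fun g hg => prg_mono hg) hG)
  rw [← h1]
  refine det_prg (entries_imp (fun g hg => prg_wide (W := 7 * pr κ τ * w + w) (by omega) hg) h2)
    fun x => ?_
  have h4 := Nat.mul_le_mul_left (7 * pr κ τ) (hr x)
  exact ((h3 x).trans h4).trans (Nat.le_add_right _ _)

end all

end Pool.Agent.W936.SS
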