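import Mathlib
import Pool.Agent.W936.SS.Blk5
import Pool.Agent.W936.VN.Mat3

/-!
Blackbox tests.
-/

set_option autoImplicit false

namespace Pool.Agent.W936.SS

open MvPolynomial Pool.Agent.H530R2 Pool.Agent.W936.RO Pool.Agent.W936.WB Pool.Agent.W936.XN
  Pool.Agent.W936.LC Pool.Agent.W936.VN

open Pool.Agent.H626R2.Loc (evG)

open Pool.Agent.Results.MP_e2be99_lc.FormulasOverSparse (points points_card points_bound
  exists_point)

variable {n : ℕ}

/-- factors of products of nonzero polynomials computed by linear programs -/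
theorem prg_points (w D : ℕ) (hw : 1 ≤ w) : ∃ k m : ℕ, ∀ n d s : ℕ,
    ∀ (F : Multiset (MvPolynomial (Fin n) ℂ)) (f : MvPolynomial (Fin n) ℂ),
    (∀ g ∈ F, Prg w s D g ∧ g ≠ 0) → f ∣ F.prod → f.totalDegree ≤ d →
    ∃ p ∈ points n m ((s + 3) ^ k) d (fun _ => 1), eval (fun i => (p i : ℂ)) f ≠ 0 := by
  obtain ⟨k, m, h₀⟩ := atom_hit w D
  refine ⟨k, m, fun n d s F f hF hdvd hfd => ?_⟩
  refine exists_point (fun hz => ?_) hfd
  obtain ⟨g, hg⟩ := hdvd
  have h2 : evG ℂ (sbase (fun _ : Fin n => ((1 : ℤ) : ℂ)) ((s + 3) ^ k)) m F.prod = 0 := by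
    rw [hg, map_mul, hz, zero_mul]
  rw [map_multiset_prod, Multiset.prod_eq_zero_iff, Multiset.mem_map] at h2
  obtain ⟨g', hg', hg0⟩ := h2
  have hσ : ∀ i : Fin n, (fun _ : Fin n => ((1 : ℤ) : ℂ)) i ≠ 0 := fun i => by
    show ((1 : ℤ) : ℂ) ≠ 0
    norm_num
  have h3 : Atoms w s D (fun _ : Fin n => ((1 : ℤ) : ℂ)) g' := by
    refine leaf_atoms (hF g' hg').1 (fun x => ?_) (hF g' hg').2
    rw [occ1]
    split_ifs
    · exact hw
    · exact Nat.zero_le w
  exact Atoms.hit h3 ((rVan _).prime _ _) (fun g hg hc => h₀ n s _ le_rfl _ hσ g hg hc)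
    (mem_rVan hg0)

end Pool.Agent.W936.SS
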