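import Mathlib
import Pool.Agent.W936.SS.Blk5

/-!
The symmetric double of a sequentially semiseparable matrix.
-/

set_option autoImplicit false
set_option linter.unusedSectionVars false

namespace Pool.Agent.W936.SS

open MvPolynomial Matrix

variable {n : ℕ} {κ τ : Type} [Fintype κ] [DecidableEq κ] [Fintype τ] [DecidableEq τ]

/-- the rows outside of `I` are replaced by zero -/
noncomputable def msk {ι : Type} (I : τ → Bool) (M : Matrix τ ι (MvPolynomial (Fin n) ℂ)) :
    Matrix τ ι (MvPolynomial (Fin n) ℂ) := Matrix.of fun y k => if I y then M y k else 0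

/-- the columns outside of `I` are replaced by zero -/
noncomputable def mskc {ι : Type} (I : τ → Bool) (M : Matrix ι τ (MvPolynomial (Fin n) ℂ)) :
    Matrix ι τ (MvPolynomial (Fin n) ℂ) := Matrix.of fun k y => if I y then M k y else 0

theorem msk_mul {ι : Type} (I : τ → Bool) (M : Matrix τ κ (MvPolynomial (Fin n) ℂ))
    (A : Matrix κ ι (MvPolynomial (Fin n) ℂ)) : msk I M * A = msk I (M * A) := by
  ext1 y k
  simp only [msk, Matrix.mul_apply, Matrix.of_apply]
  by_cases h : I y = true
  · simp only [h, if_true]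
  · simp only [if_neg h, zero_mul, Finset.sum_const_zero]

theorem mul_mskc {ι : Type} (I : τ → Bool) (M : Matrix ι κ (MvPolynomial (Fin n) ℂ))
    (A : Matrix κ τ (MvPolynomial (Fin n) ℂ)) : M * mskc I A = mskc I (M * A) := by
  ext1 y k
  simp only [mskc, Matrix.mul_apply, Matrix.of_apply]
  by_cases h : I k = true
  · simp only [h, if_true]
  · simp only [if_neg h, mul_zero, Finset.sum_const_zero]

theorem mskc_msk (I J : τ → Bool) (M : Matrix τ τ (MvPolynomial (Fin n) ℂ)) :
    mskc J (msk I M) = msk I (mskc J M) := by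
  ext1 y k
  simp only [msk, mskc, Matrix.of_apply]
  cases I y <;> cases J k <;> rfl

/-- the double of a matrix, with rows outside of `I` and columns outside of `J` removed -/
noncomputable def Gens.dbl (G : Gens κ τ n) (I J : ℕ → τ → Bool) : Gens (κ ⊕ κ) (τ ⊕ τ) n where
  a i := fromBlocks (msk (I i) (G.a i)) 0 0 (msk (J i) (G.e i))
  A i := fromBlocks (G.A i) 0 0 (G.B i)
  b i := fromBlocks 0 (mskc (J i) (G.b i)) (mskc (I i) (G.c i)) 0
  e i := fromBlocks (msk (I i) (G.a i)) 0 0 (msk (J i) (G.e i))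
  B i := fromBlocks (G.A i) 0 0 (G.B i)
  c i := fromBlocks 0 (mskc (J i) (G.b i)) (mskc (I i) (G.c i)) 0
  d i := fromBlocks (diagonal fun y => if I i y then 0 else 1) (msk (I i) (mskc (J i) (G.d i)))
    (msk (I i) (mskc (J i) (G.d i)))ᵀ (diagonal fun y => if J i y then 0 else 1)

theorem dbl_chain (G : Gens κ τ n) (I J : ℕ → τ → Bool) (i k : ℕ) :
    chain (G.dbl I J).a (G.dbl I J).A i k =
      fromBlocks (msk (I i) (chain G.a G.A i k)) 0 0 (msk (J i) (chain G.e G.B i k)) := by
  induction k with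
  | zero => rfl
  | succ k ih =>
    have hA : (G.dbl I J).A (i + 1 + k) =
      fromBlocks (G.A (i + 1 + k)) 0 0 (G.B (i + 1 + k)) := rfl
    rw [chain, ih, chain, chain, hA, fromBlocks_multiply]
    simp only [msk_mul, Matrix.mul_zero, Matrix.zero_mul, add_zero, zero_add]

theorem dbl_upper (G : Gens κ τ n) (I J : ℕ → τ → Bool) (i j k : ℕ) :
    chain (G.dbl I J).a (G.dbl I J).A i k * (G.dbl I J).b j =
      fromBlocks 0 (msk (I i) (mskc (J j) (chain G.a G.A i k * G.b j)))
        (msk (J i) (mskc (I j) (chain G.e G.B i k * G.c j))) 0 := by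
  have hb : (G.dbl I J).b j =
    fromBlocks 0 (mskc (J j) (G.b j)) (mskc (I j) (G.c j)) 0 := rfl
  rw [dbl_chain, hb, fromBlocks_multiply]
  simp only [msk_mul, mul_mskc, Matrix.mul_zero, Matrix.zero_mul, add_zero, zero_add, mskc_msk]

/-- the entries of the double -/
theorem dbl_entry (G : Gens κ τ n) (I J : ℕ → τ → Bool) (i j : ℕ) :
    (∀ y z, (G.dbl I J).entry i j (.inl y) (.inr z) =
      if I i y && J j z then G.entry i j y z else 0) ∧
    (∀ y z, (G.dbl I J).entry i j (.inr z) (.inl y) =
      if I j y && J i z then G.entry j i y z else 0) ∧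
    (∀ y z, (G.dbl I J).entry i j (.inl y) (.inl z) =
      if i = j ∧ y = z ∧ I i y = false then 1 else 0) ∧
    (∀ y z, (G.dbl I J).entry i j (.inr y) (.inr z) =
      if i = j ∧ y = z ∧ J i y = false then 1 else 0) := by
  have hlow : ∀ i j k, chain (G.dbl I J).e (G.dbl I J).B i k * (G.dbl I J).c j =
      fromBlocks 0 (msk (I i) (mskc (J j) (chain G.a G.A i k * G.b j)))
        (msk (J i) (mskc (I j) (chain G.e G.B i k * G.c j))) 0 := dbl_upper G I J
  rcases lt_trichotomy i j with h | h | h
  · have h1 : ¬ j < i := not_lt.2 h.le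
    have h2 : i ≠ j := h.ne
    simp only [Gens.entry, if_pos h, if_neg h1, dbl_upper]
    refine ⟨fun y z => ?_, fun y z => ?_, fun y z => ?_, fun y z => ?_⟩
    · simp only [fromBlocks_apply₁₂, msk, mskc, Matrix.of_apply]
      cases I i y <;> cases J j z <;> simp
    · simp only [fromBlocks_apply₂₁, msk, mskc, Matrix.of_apply]
      cases J i z <;> cases I j y <;> simp
    · simp [h2]
    · simp [h2]
  · subst h
    simp only [Gens.entry, lt_irrefl, if_false, true_and]
    refine ⟨fun y z => ?_, fun y z => ?_, fun y z => ?_, fun y z => ?_⟩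
    · show msk (I i) (mskc (J i) (G.d i)) y z = _
      simp only [msk, mskc, Matrix.of_apply]
      cases I i y <;> cases J i z <;> simp
    · show msk (I i) (mskc (J i) (G.d i)) y z = _
      simp only [msk, mskc, Matrix.of_apply]
      cases I i y <;> cases J i z <;> simp
    · show diagonal (fun y => if I i y then 0 else 1) y z = _
      rw [diagonal_apply]
      by_cases hy : y = z
      · subst hy
        cases I i y <;> simp
      · simp [hy]
    · show diagonal (fun y => if J i y then 0 else 1) y z = _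
      rw [diagonal_apply]
      by_cases hy : y = z
      · subst hy
        cases J i y <;> simp
      · simp [hy]
  · have h1 : ¬ i < j := not_lt.2 h.le
    have h2 : i ≠ j := h.ne'
    simp only [Gens.entry, if_pos h, if_neg h1, hlow]
    refine ⟨fun y z => ?_, fun y z => ?_, fun y z => ?_, fun y z => ?_⟩
    · simp only [fromBlocks_apply₂₁, msk, mskc, Matrix.of_apply]
      cases I i y <;> cases J j z <;> simp
    · simp only [fromBlocks_apply₁₂, msk, mskc, Matrix.of_apply]
      cases J i z <;> cases I j y <;> simp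
    · simp [h2]
    · simp [h2]

/-- the entries of the double are entries of the generators, or constants -/
theorem dbl_all {G : Gens κ τ n} {N : ℕ} {L : MvPolynomial (Fin n) ℂ → Prop} (h0 : L 0)
    (h1 : L 1) (hG : G.All N L) (I J : ℕ → τ → Bool) : (G.dbl I J).All N L := by
  intro i hi
  obtain ⟨ga, gA, gb, ge, gB, gc, gd⟩ := hG i hi
  have hm : ∀ {ι : Type} (I : τ → Bool) (M : Matrix τ ι (MvPolynomial (Fin n) ℂ)),
      (∀ y k, L (M y k)) → ∀ y k, L (msk I M y k) := by
    intro ι I M hM y k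
    simp only [msk, Matrix.of_apply]
    split_ifs
    · exact hM y k
    · exact h0
  have hmc : ∀ {ι : Type} (I : τ → Bool) (M : Matrix ι τ (MvPolynomial (Fin n) ℂ)),
      (∀ k y, L (M k y)) → ∀ k y, L (mskc I M k y) := by
    intro ι I M hM k y
    simp only [mskc, Matrix.of_apply]
    split_ifs
    · exact hM k y
    · exact h0
  have hd : ∀ (I : τ → Bool) y z,
      L (diagonal (fun y => if I y then (0 : MvPolynomial (Fin n) ℂ) else 1) y z) := by
    intro I y z
    rw [diagonal_apply]
    split_ifs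
    · exact h0
    · exact h1
    · exact h0
  have pa : ∀ y k, L ((G.dbl I J).a i y k) := by
    rintro (y | y) (k | k)
    · exact hm _ _ ga _ _
    · exact h0
    · exact h0
    · exact hm _ _ ge _ _
  have pA : ∀ y k, L ((G.dbl I J).A i y k) := by
    rintro (y | y) (k | k)
    · exact gA _ _
    · exact h0
    · exact h0
    · exact gB _ _
  have pb : ∀ y k, L ((G.dbl I J).b i y k) := by
    rintro (y | y) (k | k)
    · exact h0
    · exact hmc _ _ gb _ _
    · exact hmc _ _ gc _ _
    · exact h0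
  refine ⟨pa, pA, pb, pa, pA, pb, ?_⟩
  rintro (y | y) (z | z)
  · exact hd _ _ _
  · exact hm _ _ (hmc _ _ gd) _ _
  · exact hm _ _ (hmc _ _ gd) _ _
  · exact hd _ _ _

/-- the variables of the double -/
theorem dbl_occ {G : Gens κ τ n} {i : ℕ} {x : Fin n} (I J : ℕ → τ → Bool)
    (h : (G.dbl I J).Occ i x) : G.Occ i x := by
  by_contra hcon
  have hx : ∀ g : MvPolynomial (Fin n) ℂ, (g = 0 ∨ g = 1) → x ∉ g.vars := by
    rintro g (rfl | rfl) hc
    · rw [vars_0] at hc
      exact Finset.notMem_empty _ hc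
    · rw [← C_1, vars_C] at hc
      exact Finset.notMem_empty _ hc
  simp only [Gens.Occ, not_or, not_exists] at hcon
  obtain ⟨ga, gA, gb, ge, gB, gc, gd⟩ := hcon
  have hm : ∀ {ι : Type} (I : τ → Bool) (M : Matrix τ ι (MvPolynomial (Fin n) ℂ)),
      (∀ y k, x ∉ (M y k).vars) → ∀ y k, x ∉ (msk I M y k).vars := by
    intro ι I M hM y k
    simp only [msk, Matrix.of_apply]
    split_ifs
    · exact hM y k
    · exact hx 0 (Or.inl rfl)
  have hmc : ∀ {ι : Type} (I : τ → Bool) (M : Matrix ι τ (MvPolynomial (Fin n) ℂ)),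
      (∀ k y, x ∉ (M k y).vars) → ∀ k y, x ∉ (mskc I M k y).vars := by
    intro ι I M hM k y
    simp only [mskc, Matrix.of_apply]
    split_ifs
    · exact hM k y
    · exact hx 0 (Or.inl rfl)
  have hd : ∀ (I : τ → Bool) y z,
      x ∉ (diagonal (fun y => if I y then (0 : MvPolynomial (Fin n) ℂ) else 1) y z).vars := by
    intro I y z
    rw [diagonal_apply]
    split_ifs
    · exact hx 0 (Or.inl rfl)
    · exact hx 1 (Or.inr rfl)
    · exact hx 0 (Or.inl rfl)
  have pa : ∀ y k, x ∉ ((G.dbl I J).a i y k).vars := by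
    rintro (y | y) (k | k)
    · exact hm _ _ ga _ _
    · exact hx 0 (Or.inl rfl)
    · exact hx 0 (Or.inl rfl)
    · exact hm _ _ ge _ _
  have pA : ∀ y k, x ∉ ((G.dbl I J).A i y k).vars := by
    rintro (y | y) (k | k)
    · exact gA _ _
    · exact hx 0 (Or.inl rfl)
    · exact hx 0 (Or.inl rfl)
    · exact gB _ _
  have pb : ∀ y k, x ∉ ((G.dbl I J).b i y k).vars := by
    rintro (y | y) (k | k)
    · exact hx 0 (Or.inl rfl)
    · exact hmc _ _ gb _ _
    · exact hmc _ _ gc _ _
    · exact hx 0 (Or.inl rfl)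
  have pd : ∀ y k, x ∉ ((G.dbl I J).d i y k).vars := by
    rintro (y | y) (z | z)
    · exact hd _ _ _
    · exact hm _ _ (hmc _ _ gd) _ _
    · exact hm _ _ (hmc _ _ gd) _ _
    · exact hd _ _ _
  rcases h with ⟨y, k, h⟩ | ⟨y, k, h⟩ | ⟨y, k, h⟩ | ⟨y, k, h⟩ | ⟨y, k, h⟩ | ⟨y, k, h⟩ | ⟨y, k, h⟩
  · exact pa _ _ h
  · exact pA _ _ h
  · exact pb _ _ h
  · exact pa _ _ h
  · exact pA _ _ h
  · exact pb _ _ h
  · exact pd _ _ h

theorem dbl_count (G : Gens κ τ n) (N : ℕ) (I J : ℕ → τ → Bool) (x : Fin n) :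
    (G.dbl I J).count N x ≤ G.count N x := by
  classical
  rw [Gens.count, Gens.count]
  refine Finset.card_le_card fun i hi => ?_
  rw [Finset.mem_filter] at hi ⊢
  exact ⟨hi.1, dbl_occ I J hi.2⟩

end Pool.Agent.W936.SS
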