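import Mathlib
import Pool.Agent.W936.SS.Dbl

/-!
Minors of sequentially semiseparable matrices divide determinants of their doubles.
-/

set_option autoImplicit false
set_option linter.unusedSectionVars false

namespace Pool.Agent.W936.SS

open MvPolynomial Matrix

theorem det_double {A ι : Type*} [CommRing A] [Fintype ι] [DecidableEq ι] (B : Matrix ι ι A) :
    ∃ ε : A, ε * ε = 1 ∧ (fromBlocks 0 B Bᵀ 0).det = ε * (B.det * B.det) := by
  refine ⟨(fromBlocks 0 (1 : Matrix ι ι A) 1 0).det, ?_, ?_⟩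
  · rw [← Matrix.det_mul, fromBlocks_multiply]
    simp only [Matrix.mul_zero, Matrix.mul_one, add_zero, zero_add]
    rw [fromBlocks_one, Matrix.det_one]
  · have h : fromBlocks 0 B Bᵀ 0 = fromBlocks 0 (1 : Matrix ι ι A) 1 0 * fromBlocks Bᵀ 0 0 B := by
      rw [fromBlocks_multiply]
      simp only [Matrix.mul_zero, Matrix.zero_mul, Matrix.one_mul, add_zero, zero_add]
    rw [h, Matrix.det_mul, Matrix.det_fromBlocks_zero₂₁, Matrix.det_transpose]

variable {n N : ℕ} {κ τ ι : Type} [Fintype κ] [DecidableEq κ] [Fintype τ] [DecidableEq τ]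
  [Fintype ι] [DecidableEq ι]

open Classical in
/-- the indices in the range of a selection -/
noncomputable def rng (f : ι → Fin N × τ) (i : ℕ) (y : τ) : Bool :=
  decide (∃ t, ((f t).1 : ℕ) = i ∧ (f t).2 = y)

theorem rng_self (f : ι → Fin N × τ) (t : ι) : rng f ((f t).1 : ℕ) (f t).2 = true := by
  rw [rng, decide_eq_true_eq]
  exact ⟨t, rfl, rfl⟩

theorem rng_compl (f : ι → Fin N × τ) (u : Fin N × τ) (hu : u ∉ Set.range f) :
    rng f (u.1 : ℕ) u.2 = false := by
  rw [rng, decide_eq_false_iff_not]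
  rintro ⟨t, h1, h2⟩
  exact hu ⟨t, Prod.ext (Fin.ext h1) h2⟩

open Classical in
/-- the indices, those in the range first -/
noncomputable def spl (f : ι → Fin N × τ) (hf : Function.Injective f) :
    ι ⊕ ((Set.range f)ᶜ : Set (Fin N × τ)) ≃ Fin N × τ :=
  (Equiv.sumCongr (Equiv.ofInjective f hf) (Equiv.refl _)).trans (Equiv.Set.sumCompl (Set.range f))

theorem spl_inl (f : ι → Fin N × τ) (hf : Function.Injective f) (t : ι) :
    spl f hf (.inl t) = f t := rfl

theorem spl_inr (f : ι → Fin N × τ) (hf : Function.Injective f)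
    (u : ((Set.range f)ᶜ : Set (Fin N × τ))) : spl f hf (.inr u) = u := rfl

/-- the indices of the double -/
noncomputable def spl2 (f g : ι → Fin N × τ) (hf : Function.Injective f)
    (hg : Function.Injective g) :
    (ι ⊕ ι) ⊕ (((Set.range f)ᶜ : Set (Fin N × τ)) ⊕ ((Set.range g)ᶜ : Set (Fin N × τ))) ≃
      Fin N × (τ ⊕ τ) :=
  ((Equiv.sumSumSumComm _ _ _ _).trans (Equiv.sumCongr (spl f hf) (spl g hg))).trans
    (Equiv.prodSumDistrib (Fin N) τ τ).symm

theorem minor_double (G : Gens κ τ n) (f g : ι → Fin N × τ) (hf : Function.Injective f)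
    (hg : Function.Injective g) : ∃ ε : MvPolynomial (Fin n) ℂ, ε * ε = 1 ∧
    ((G.dbl (rng f) (rng g)).mat N).det =
      ε * (((G.mat N).submatrix f g).det * ((G.mat N).submatrix f g).det) := by
  classical
  obtain ⟨ε, h1, h2⟩ := det_double ((G.mat N).submatrix f g)
  refine ⟨ε, h1, ?_⟩
  rw [← h2, ← Matrix.det_submatrix_equiv_self (spl2 f g hf hg)]
  have h3 : ((G.dbl (rng f) (rng g)).mat N).submatrix (spl2 f g hf hg) (spl2 f g hf hg) =
      fromBlocks (fromBlocks 0 ((G.mat N).submatrix f g) ((G.mat N).submatrix f g)ᵀ 0) 0 0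
        (1 : Matrix (((Set.range f)ᶜ : Set (Fin N × τ)) ⊕ ((Set.range g)ᶜ : Set (Fin N × τ)))
          (((Set.range f)ᶜ : Set (Fin N × τ)) ⊕ ((Set.range g)ᶜ : Set (Fin N × τ)))
          (MvPolynomial (Fin n) ℂ)) := by
    ext1 a b
    rcases a with (t | t) | (u | u)
    · rcases b with (t' | t') | (u' | u')
      · show (G.dbl (rng f) (rng g)).entry (f t).1 (f t').1 (.inl (f t).2) (.inl (f t').2) = 0
        rw [(dbl_entry G _ _ _ _).2.2.1, rng_self, if_neg]
        rintro ⟨_, _, h⟩
        exact Bool.noConfusion h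
      · show (G.dbl (rng f) (rng g)).entry (f t).1 (g t').1 (.inl (f t).2) (.inr (g t').2) =
          G.entry (f t).1 (g t').1 (f t).2 (g t').2
        rw [(dbl_entry G _ _ _ _).1, rng_self, rng_self]
        rfl
      · show (G.dbl (rng f) (rng g)).entry (f t).1 u'.1.1 (.inl (f t).2) (.inl u'.1.2) = 0
        rw [(dbl_entry G _ _ _ _).2.2.1, rng_self, if_neg]
        rintro ⟨_, _, h⟩
        exact Bool.noConfusion h
      · show (G.dbl (rng f) (rng g)).entry (f t).1 u'.1.1 (.inl (f t).2) (.inr u'.1.2) = 0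
        rw [(dbl_entry G _ _ _ _).1, rng_compl g u'.1 u'.2, Bool.and_false]
        rfl
    · rcases b with (t' | t') | (u' | u')
      · show (G.dbl (rng f) (rng g)).entry (g t).1 (f t').1 (.inr (g t).2) (.inl (f t').2) =
          G.entry (f t').1 (g t).1 (f t').2 (g t).2
        rw [(dbl_entry G _ _ _ _).2.1, rng_self, rng_self]
        rfl
      · show (G.dbl (rng f) (rng g)).entry (g t).1 (g t').1 (.inr (g t).2) (.inr (g t').2) = 0
        rw [(dbl_entry G _ _ _ _).2.2.2, rng_self, if_neg]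
        rintro ⟨_, _, h⟩
        exact Bool.noConfusion h
      · show (G.dbl (rng f) (rng g)).entry (g t).1 u'.1.1 (.inr (g t).2) (.inl u'.1.2) = 0
        rw [(dbl_entry G _ _ _ _).2.1, rng_compl f u'.1 u'.2, Bool.false_and]
        rfl
      · show (G.dbl (rng f) (rng g)).entry (g t).1 u'.1.1 (.inr (g t).2) (.inr u'.1.2) = 0
        rw [(dbl_entry G _ _ _ _).2.2.2, rng_self, if_neg]
        rintro ⟨_, _, h⟩
        exact Bool.noConfusion h
    · rcases b with (t' | t') | (u' | u')
      · show (G.dbl (rng f) (rng g)).entry u.1.1 (f t').1 (.inl u.1.2) (.inl (f t').2) = 0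
        rw [(dbl_entry G _ _ _ _).2.2.1, if_neg]
        rintro ⟨h1, h2, _⟩
        exact u.2 ⟨t', (Prod.ext (Fin.ext h1) h2).symm⟩
      · show (G.dbl (rng f) (rng g)).entry u.1.1 (g t').1 (.inl u.1.2) (.inr (g t').2) = 0
        rw [(dbl_entry G _ _ _ _).1, rng_compl f u.1 u.2, Bool.false_and]
        rfl
      · show (G.dbl (rng f) (rng g)).entry u.1.1 u'.1.1 (.inl u.1.2) (.inl u'.1.2) = _
        rw [(dbl_entry G _ _ _ _).2.2.1, rng_compl f u.1 u.2, fromBlocks_apply₂₂]
        by_cases h : u = u'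
        · subst h
          rw [if_pos ⟨rfl, rfl, rfl⟩, Matrix.one_apply_eq]
        · rw [if_neg, Matrix.one_apply_ne fun hc => h (Sum.inl_injective hc)]
          rintro ⟨h1, h2, _⟩
          exact h (Subtype.ext (Prod.ext (Fin.ext h1) h2))
      · show (G.dbl (rng f) (rng g)).entry u.1.1 u'.1.1 (.inl u.1.2) (.inr u'.1.2) = _
        rw [(dbl_entry G _ _ _ _).1, rng_compl f u.1 u.2, Bool.false_and, fromBlocks_apply₂₂,
          Matrix.one_apply_ne Sum.inl_ne_inr]
        rfl
    · rcases b with (t' | t') | (u' | u')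
      · show (G.dbl (rng f) (rng g)).entry u.1.1 (f t').1 (.inr u.1.2) (.inl (f t').2) = 0
        rw [(dbl_entry G _ _ _ _).2.1, rng_compl g u.1 u.2, Bool.and_false]
        rfl
      · show (G.dbl (rng f) (rng g)).entry u.1.1 (g t').1 (.inr u.1.2) (.inr (g t').2) = 0
        rw [(dbl_entry G _ _ _ _).2.2.2, if_neg]
        rintro ⟨h1, h2, _⟩
        exact u.2 ⟨t', (Prod.ext (Fin.ext h1) h2).symm⟩
      · show (G.dbl (rng f) (rng g)).entry u.1.1 u'.1.1 (.inr u.1.2) (.inl u'.1.2) = _
        rw [(dbl_entry G _ _ _ _).2.1, rng_compl g u.1 u.2, Bool.and_false, fromBlocks_apply₂₂,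
          Matrix.one_apply_ne Sum.inr_ne_inl]
        rfl
      · show (G.dbl (rng f) (rng g)).entry u.1.1 u'.1.1 (.inr u.1.2) (.inr u'.1.2) = _
        rw [(dbl_entry G _ _ _ _).2.2.2, rng_compl g u.1 u.2, fromBlocks_apply₂₂]
        by_cases h : u = u'
        · subst h
          rw [if_pos ⟨rfl, rfl, rfl⟩, Matrix.one_apply_eq]
        · rw [if_neg, Matrix.one_apply_ne fun hc => h (Sum.inr_injective hc)]
          rintro ⟨h1, h2, _⟩
          exact h (Subtype.ext (Prod.ext (Fin.ext h1) h2))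
  rw [h3, Matrix.det_fromBlocks_zero₂₁, Matrix.det_one, mul_one]

end Pool.Agent.W936.SS
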