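import Mathlib
import Pool.Agent.W936.SS.Bbx
import Pool.Agent.W936.SS.Mnr
import Pool.Agent.H820R5.BW.Rank

/-!
Minors and ranks.
-/

set_option autoImplicit false
set_option linter.unusedSectionVars false

namespace Pool.Agent.W936.SS

open MvPolynomial Matrix

open Pool.Agent.W936.VN

variable {n : ℕ}

/-- the rank over the field of rational functions -/
noncomputable def grank {a b : ℕ} (M : Matrix (Fin a) (Fin b) (MvPolynomial (Fin n) ℂ)) : ℕ :=
  (M.map (algebraMap (MvPolynomial (Fin n) ℂ) (FractionRing (MvPolynomial (Fin n) ℂ)))).rank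

/-- the rank at a point -/
noncomputable def rankAt {a b : ℕ} (M : Matrix (Fin a) (Fin b) (MvPolynomial (Fin n) ℂ))
    (p : Fin n → ℤ) : ℕ := (M.map (eval fun i => (p i : ℂ))).rank

theorem det_map_minor {A B : Type*} [CommRing A] [CommRing B] {a b c : ℕ} (φ : A →+* B)
    (M : Matrix (Fin a) (Fin b) A) (e : Fin c → Fin a) (f : Fin c → Fin b) :
    ((M.map φ).submatrix e f).det = φ (M.submatrix e f).det := by
  rw [RingHom.map_det]
  rfl

theorem rankAt_le {a b : ℕ} (M : Matrix (Fin a) (Fin b) (MvPolynomial (Fin n) ℂ))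
    (p : Fin n → ℤ) : rankAt M p ≤ grank M := by
  obtain ⟨e, f, h⟩ := Pool.Agent.H820R5.BW.exists_minor (M.map (eval fun i => (p i : ℂ)))
  refine Pool.Agent.H820R5.BW.le_rank_of_minor _ e f fun h0 => h ?_
  have h1 := (det_map_minor (algebraMap (MvPolynomial (Fin n) ℂ)
    (FractionRing (MvPolynomial (Fin n) ℂ))) M e f).symm.trans h0
  have h2 := (map_eq_zero_iff _ (IsFractionRing.injective (MvPolynomial (Fin n) ℂ)
    (FractionRing (MvPolynomial (Fin n) ℂ)))).1 h1
  exact (det_map_minor (eval fun i => (p i : ℂ)) M e f).trans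
    ((congrArg (eval fun i => (p i : ℂ)) h2).trans (map_zero _))

theorem grank_minor {a b : ℕ} (M : Matrix (Fin a) (Fin b) (MvPolynomial (Fin n) ℂ)) :
    ∃ (e : Fin (grank M) → Fin a) (f : Fin (grank M) → Fin b), (M.submatrix e f).det ≠ 0 ∧
      ∀ p : Fin n → ℤ, eval (fun i => (p i : ℂ)) (M.submatrix e f).det ≠ 0 →
        rankAt M p = grank M := by
  obtain ⟨e, f, h⟩ := Pool.Agent.H820R5.BW.exists_minor
    (M.map (algebraMap (MvPolynomial (Fin n) ℂ) (FractionRing (MvPolynomial (Fin n) ℂ))))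
  have h1 := det_map_minor (algebraMap (MvPolynomial (Fin n) ℂ)
    (FractionRing (MvPolynomial (Fin n) ℂ))) M e f
  exact ⟨e, f, fun h0 => h (h1.trans ((congrArg (algebraMap (MvPolynomial (Fin n) ℂ)
    (FractionRing (MvPolynomial (Fin n) ℂ))) h0).trans (map_zero _))), fun p hp =>
    le_antisymm (rankAt_le M p) (Pool.Agent.H820R5.BW.le_rank_of_minor
      (M.map (eval fun i => (p i : ℂ))) e f fun h0 => hp
        ((det_map_minor (eval fun i => (p i : ℂ)) M e f).symm.trans h0))⟩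

theorem degree_det {ι : Type*} [Fintype ι] [DecidableEq ι]
    (M : Matrix ι ι (MvPolynomial (Fin n) ℂ)) (d : ℕ) (h : ∀ i j, (M i j).totalDegree ≤ d) :
    M.det.totalDegree ≤ Fintype.card ι * d := by
  rw [Matrix.det_apply]
  refine totalDegree_finsetSum_le fun τ _ => ?_
  have h1 : (∏ i, M (τ i) i).totalDegree ≤ Fintype.card ι * d := by
    refine (totalDegree_finsetProd _ _).trans ((Finset.sum_le_sum fun i _ => h _ _).trans ?_)
    rw [Finset.sum_const, Finset.card_univ, smul_eq_mul]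
  rcases Int.units_eq_one_or (Equiv.Perm.sign τ) with h2 | h2
  · rw [h2, one_smul]; exact h1
  · rw [h2]
    simpa using h1

variable {N : ℕ} {κ τ ι : Type} [Fintype κ] [DecidableEq κ] [Fintype τ] [DecidableEq τ]
  [Fintype ι] [DecidableEq ι]

/-- nonzero minors divide nonzero polynomials computed by linear programs -/
theorem minor_prg {w s D : ℕ} {G : Gens κ τ n} (hG : G.All N (Prg w s D))
    (hr : ∀ x, G.count N x ≤ w) (f g : ι → Fin N × τ)
    (h0 : ((G.mat N).submatrix f g).det ≠ 0) : ∃ P : MvPolynomial (Fin n) ℂ,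
      (Prg (wid (κ ⊕ κ) (τ ⊕ τ) w) (s + 3) (D + 1) P ∧ P ≠ 0) ∧
        ((G.mat N).submatrix f g).det ∣ P := by
  have hf : Function.Injective f := by
    intro i j hij
    by_contra hne
    refine h0 (Matrix.det_zero_of_row_eq hne ?_)
    funext k
    rw [Matrix.submatrix_apply, Matrix.submatrix_apply, hij]
  have hg : Function.Injective g := by
    intro i j hij
    by_contra hne
    refine h0 (Matrix.det_zero_of_column_eq hne fun k => ?_)
    rw [Matrix.submatrix_apply, Matrix.submatrix_apply, hij]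
  obtain ⟨ε, h1, h2⟩ := minor_double G f g hf hg
  refine ⟨((G.dbl (rng f) (rng g)).mat N).det, ⟨gens_prg (s := s + 1) (dbl_all ?_ ?_
    (all_imp (fun g hg => prg_mono hg) hG) _ _) fun x => (dbl_count G N _ _ x).trans (hr x), ?_⟩,
    ?_⟩
  · rw [← map_zero (C : ℂ →+* MvPolynomial (Fin n) ℂ)]
    exact prg_const 0
  · rw [← map_one (C : ℂ →+* MvPolynomial (Fin n) ℂ)]
    exact prg_const 1
  · rw [h2]
    refine mul_ne_zero (fun hε => ?_) (mul_ne_zero h0 h0)
    rw [hε, mul_zero] at h1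
    exact zero_ne_one h1
  · rw [h2]
    exact ⟨ε * ((G.mat N).submatrix f g).det, by ring⟩

/-- `h` is a nonzero minor of a sequentially semiseparable matrix. -/
def Minor (w s D r q : ℕ) (h : MvPolynomial (Fin n) ℂ) : Prop :=
  h ≠ 0 ∧ ∃ (N : ℕ) (G : Gens (Fin r) (Fin q) n) (b : ℕ) (u v : Fin b → Fin N × Fin q),
    G.All N (Prg w s D) ∧ (∀ x, G.count N x ≤ w) ∧ h = ((G.mat N).submatrix u v).det

theorem minors_points (w D r q : ℕ) : ∃ k m : ℕ, ∀ n d s : ℕ,
    ∀ (l : List (MvPolynomial (Fin n) ℂ)) (f : MvPolynomial (Fin n) ℂ),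
    (∀ h ∈ l, Minor w s D r q h) → f ∣ l.prod → f.totalDegree ≤ d →
    ∃ p ∈ Pool.Agent.Results.MP_e2be99_lc.FormulasOverSparse.points n m ((s + 6) ^ k) d
      (fun _ => 1), eval (fun i => (p i : ℂ)) f ≠ 0 := by
  obtain ⟨k, m, h₀⟩ := prg_points (wid (Fin r ⊕ Fin r) (Fin q ⊕ Fin q) w) (D + 1)
    (le_trans Nat.one_le_two_pow (Nat.le_add_left _ _))
  refine ⟨k, m, fun n d s l f hl hdvd hd => ?_⟩
  have h1 : ∀ h ∈ l, ∃ P : MvPolynomial (Fin n) ℂ,
      (Prg (wid (Fin r ⊕ Fin r) (Fin q ⊕ Fin q) w) (s + 3) (D + 1) P ∧ P ≠ 0) ∧ h ∣ P := by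
    intro h hh
    obtain ⟨h0, N, G, b, u, v, hG, hr, rfl⟩ := hl h hh
    exact minor_prg hG hr u v h0
  choose! F hF using h1
  have h2 : ∀ l' : List (MvPolynomial (Fin n) ℂ), (∀ h ∈ l', h ∣ F h) →
      l'.prod ∣ (l'.map F).prod := by
    intro l'
    induction l' with
    | nil => intro _; exact dvd_refl _
    | cons a l' ih =>
      intro h
      rw [List.map_cons, List.prod_cons, List.prod_cons]
      exact mul_dvd_mul (h a (List.mem_cons_self ..)) (ih fun b hb => h b (List.mem_cons_of_mem _ hb))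
  refine h₀ n d (s + 3) (Multiset.ofList (l.map F)) f (fun g hg => ?_) ?_ hd
  · obtain ⟨h, hh, rfl⟩ := List.mem_map.1 (Multiset.mem_coe.1 hg)
    exact (hF h hh).1
  · rw [Multiset.prod_coe]
    exact hdvd.trans (h2 l fun h hh => (hF h hh).2)

end Pool.Agent.W936.SS
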