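import Mathlib
import Pool.Agent.W936.SS.Rnk

/-!
The symmetric double of a matrix with ports.
-/

set_option autoImplicit false
set_option linter.unusedSectionVars false
set_option linter.unusedSimpArgs false

namespace Pool.Agent.W936.SS

open MvPolynomial Matrix

variable {R n M : ℕ}

/-- the index of a position -/
def Strip.ix (T : Strip R n) : Fin M ⊕ Fin R → ℕ
  | .inl a => a
  | .inr i => T.port i

/-- the positions which are kept -/
def kp (I : ℕ → Bool) : Fin M ⊕ Fin R → Bool
  | .inl a => I a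
  | .inr _ => true

/-- row positions -/
def rwp : Fin M ⊕ Fin R → (Fin M ⊕ Fin M) ⊕ (Fin R ⊕ Fin R)
  | .inl a => .inl (.inl a)
  | .inr i => .inr (.inl i)

/-- column positions -/
def clp : Fin M ⊕ Fin R → (Fin M ⊕ Fin M) ⊕ (Fin R ⊕ Fin R)
  | .inl a => .inl (.inr a)
  | .inr i => .inr (.inr i)

/-- the diagonal entries -/
noncomputable def dg (k : Fin M ⊕ Fin R → Bool) (r r' : Fin M ⊕ Fin R) : MvPolynomial (Fin n) ℂ :=
  if r = r' ∧ k r = false then 1 else 0

/-- the entries of the double -/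
noncomputable def E3 (k l : Fin M ⊕ Fin R → Bool)
    (e : Fin M ⊕ Fin R → Fin M ⊕ Fin R → MvPolynomial (Fin n) ℂ) :
    (Fin M ⊕ Fin M) ⊕ (Fin R ⊕ Fin R) → (Fin M ⊕ Fin M) ⊕ (Fin R ⊕ Fin R) →
      MvPolynomial (Fin n) ℂ
  | .inl (.inl a), .inl (.inl b) => dg k (.inl a) (.inl b)
  | .inl (.inl a), .inr (.inl b) => dg k (.inl a) (.inr b)
  | .inr (.inl a), .inl (.inl b) => dg k (.inr a) (.inl b)
  | .inr (.inl a), .inr (.inl b) => dg k (.inr a) (.inr b)
  | .inl (.inr a), .inl (.inr b) => dg l (.inl a) (.inl b)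
  | .inl (.inr a), .inr (.inr b) => dg l (.inl a) (.inr b)
  | .inr (.inr a), .inl (.inr b) => dg l (.inr a) (.inl b)
  | .inr (.inr a), .inr (.inr b) => dg l (.inr a) (.inr b)
  | .inl (.inl a), .inl (.inr b) => if k (.inl a) && l (.inl b) then e (.inl a) (.inl b) else 0
  | .inl (.inl a), .inr (.inr b) => if k (.inl a) && l (.inr b) then e (.inl a) (.inr b) else 0
  | .inr (.inl a), .inl (.inr b) => if k (.inr a) && l (.inl b) then e (.inr a) (.inl b) else 0
  | .inr (.inl a), .inr (.inr b) => if k (.inr a) && l (.inr b) then e (.inr a) (.inr b) else 0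
  | .inl (.inr b), .inl (.inl a) => if k (.inl a) && l (.inl b) then e (.inl a) (.inl b) else 0
  | .inr (.inr b), .inl (.inl a) => if k (.inl a) && l (.inr b) then e (.inl a) (.inr b) else 0
  | .inl (.inr b), .inr (.inl a) => if k (.inr a) && l (.inl b) then e (.inr a) (.inl b) else 0
  | .inr (.inr b), .inr (.inl a) => if k (.inr a) && l (.inr b) then e (.inr a) (.inr b) else 0

section E3

variable {k l : Fin M ⊕ Fin R → Bool}
  {e : Fin M ⊕ Fin R → Fin M ⊕ Fin R → MvPolynomial (Fin n) ℂ}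

theorem E3_rc (r c : Fin M ⊕ Fin R) :
    E3 k l e (rwp r) (clp c) = if k r && l c then e r c else 0 := by
  rcases r with r | r <;> rcases c with c | c <;> rfl

theorem E3_cr (r c : Fin M ⊕ Fin R) :
    E3 k l e (clp c) (rwp r) = if k r && l c then e r c else 0 := by
  rcases r with r | r <;> rcases c with c | c <;> rfl

theorem E3_rr (r c : Fin M ⊕ Fin R) : E3 k l e (rwp r) (rwp c) = dg k r c := by
  rcases r with r | r <;> rcases c with c | c <;> rfl

theorem E3_cc (r c : Fin M ⊕ Fin R) : E3 k l e (clp r) (clp c) = dg l r c := by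
  rcases r with r | r <;> rcases c with c | c <;> rfl

theorem rwp_l (r : Fin M ⊕ Fin R) (i : Fin R) :
    (rwp r = Sum.inr (Sum.inl i)) ↔ r = Sum.inr i := by
  rcases r with r | r <;> simp [rwp]

theorem rwp_r (r : Fin M ⊕ Fin R) (i : Fin R) : (rwp r = Sum.inr (Sum.inr i)) ↔ False := by
  rcases r with r | r <;> simp [rwp]

theorem clp_r (r : Fin M ⊕ Fin R) (i : Fin R) :
    (clp r = Sum.inr (Sum.inr i)) ↔ r = Sum.inr i := by
  rcases r with r | r <;> simp [clp]

theorem clp_l (r : Fin M ⊕ Fin R) (i : Fin R) : (clp r = Sum.inr (Sum.inl i)) ↔ False := by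
  rcases r with r | r <;> simp [clp]

theorem rwp_inr (i : Fin R) :
    (Sum.inr (Sum.inl i) : (Fin M ⊕ Fin M) ⊕ (Fin R ⊕ Fin R)) = rwp (Sum.inr i) := rfl

theorem clp_inr (i : Fin R) :
    (Sum.inr (Sum.inr i) : (Fin M ⊕ Fin M) ⊕ (Fin R ⊕ Fin R)) = clp (Sum.inr i) := rfl

/-- it is enough to compare positions -/
theorem four {S : Finset (Fin M ⊕ Fin M)} {AP : Fin M ⊕ Fin R → Prop}
    (hA : ∀ r, Act S (rwp r) → AP r) (hB : ∀ r, Act S (clp r) → AP r)
    {F F' : (Fin M ⊕ Fin M) ⊕ (Fin R ⊕ Fin R) → (Fin M ⊕ Fin M) ⊕ (Fin R ⊕ Fin R) →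
      MvPolynomial (Fin n) ℂ}
    (h1 : ∀ r c, AP r → AP c → F (rwp r) (clp c) = F' (rwp r) (clp c))
    (h2 : ∀ r c, AP r → AP c → F (clp c) (rwp r) = F' (clp c) (rwp r))
    (h3 : ∀ r c, AP r → AP c → F (rwp r) (rwp c) = F' (rwp r) (rwp c))
    (h4 : ∀ r c, AP r → AP c → F (clp r) (clp c) = F' (clp r) (clp c)) :
    ∀ u v, Act S u → Act S v → F u v = F' u v := by
  have hu : ∀ u : (Fin M ⊕ Fin M) ⊕ (Fin R ⊕ Fin R), (∃ r, u = rwp r) ∨ ∃ r, u = clp r := by
    rintro ((u | u) | (u | u))
    · exact Or.inl ⟨.inl u, rfl⟩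
    · exact Or.inr ⟨.inl u, rfl⟩
    · exact Or.inl ⟨.inr u, rfl⟩
    · exact Or.inr ⟨.inr u, rfl⟩
  intro u v hau hav
  rcases hu u with ⟨r, rfl⟩ | ⟨r, rfl⟩ <;> rcases hu v with ⟨c, rfl⟩ | ⟨c, rfl⟩
  · exact h3 r c (hA r hau) (hA c hav)
  · exact h1 r c (hA r hau) (hB c hav)
  · exact h2 c r (hA c hav) (hB r hau)
  · exact h4 r c (hB r hau) (hB c hav)

end E3

/-- indices which are not ports -/
def ina (T : Strip R n) (a : ℕ) : Prop := a < T.order ∧ ∀ i, T.port i ≠ a

/-- positions of the matrix -/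
def AP (T : Strip R n) : Fin M ⊕ Fin R → Prop
  | .inl a => ina T a
  | .inr _ => True

/-- the index of a vertex -/
def lx : Fin M ⊕ Fin M → ℕ
  | .inl a => a
  | .inr a => a

open Classical in
/-- the vertices of the double -/
noncomputable def ST (M : ℕ) (T : Strip R n) : Finset (Fin M ⊕ Fin M) :=
  Finset.univ.filter fun v => ina T (lx v)

theorem mem_ST (T : Strip R n) (v : Fin M ⊕ Fin M) : v ∈ ST M T ↔ ina T (lx v) := by
  classical
  simp only [ST, Finset.mem_filter, Finset.mem_univ, true_and]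

theorem act_r (T : Strip R n) (r : Fin M ⊕ Fin R) (h : Act (ST M T) (rwp r)) : AP T r := by
  rcases r with r | r
  · exact (mem_ST T _).1 h
  · trivial

theorem act_c (T : Strip R n) (r : Fin M ⊕ Fin R) (h : Act (ST M T) (clp r)) : AP T r := by
  rcases r with r | r
  · exact (mem_ST T _).1 h
  · trivial

theorem ix_port (T : Strip R n) (i : Fin R) (r : Fin M ⊕ Fin R) (h : AP T r) :
    T.ix r = T.port i ↔ r = .inr i := by
  rcases r with r | r
  · constructor
    · intro h1
      exact absurd h1.symm (h.2 i)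
    · intro h1
      simp at h1
  · constructor
    · intro h1
      exact congrArg _ (port_inj T h1)
    · intro h1
      rw [h1]
      rfl

/-- the entries of the double of a description -/
noncomputable def E2 (M : ℕ) (I J : ℕ → Bool) (T : Strip R n) :
    (Fin M ⊕ Fin M) ⊕ (Fin R ⊕ Fin R) → (Fin M ⊕ Fin M) ⊕ (Fin R ⊕ Fin R) →
      MvPolynomial (Fin n) ℂ :=
  E3 (kp I) (kp J) fun r c => T.entry (T.ix r) (T.ix c)

/-- what is to be shown -/
def Dst (M : ℕ) (L : MvPolynomial (Fin n) ℂ → Prop) (I J : ℕ → Bool) (T : Strip R n) : Prop :=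
  Rch (finSumFinEquiv : Fin R ⊕ Fin R ≃ Fin (R + R)) L (fun y => 2 * T.reads y) (ST M T)
    (E2 M I J T)

variable {L : MvPolynomial (Fin n) ℂ → Prop} {I J : ℕ → Bool}

theorem dst_start : Dst M L I J (.start : Strip R n) := by
  have h0 : ST M (.start : Strip R n) = ∅ := by
    classical
    refine Finset.filter_eq_empty_iff.2 fun v _ hv => ?_
    exact hv.2 ⟨_, hv.1⟩ rfl
  rw [Dst, h0]
  refine Rch.congr (E := fun _ _ => 0) ?_ ?_
  · exact ⟨.start, fun _ => 0, Rep.start _, trivial, fun y => Nat.zero_le _⟩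
  · refine four (AP := fun r => ∃ i, r = .inr i) ?_ ?_ ?_ ?_ ?_ ?_
    · rintro (r | r) h
      · exact absurd h (Finset.notMem_empty _)
      · exact ⟨r, rfl⟩
    · rintro (r | r) h
      · exact absurd h (Finset.notMem_empty _)
      · exact ⟨r, rfl⟩
    · rintro _ _ ⟨i, rfl⟩ ⟨j, rfl⟩
      rw [E2, E3_rc]
      exact (ite_self _).symm
    · rintro _ _ ⟨i, rfl⟩ ⟨j, rfl⟩
      rw [E2, E3_cr]
      exact (ite_self _).symm
    · rintro _ _ ⟨i, rfl⟩ ⟨j, rfl⟩
      rw [E2, E3_rr, dg, if_neg]
      rintro ⟨_, h⟩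
      exact Bool.noConfusion h
    · rintro _ _ ⟨i, rfl⟩ ⟨j, rfl⟩
      rw [E2, E3_cc, dg, if_neg]
      rintro ⟨_, h⟩
      exact Bool.noConfusion h

theorem two_reads {g : MvPolynomial (Fin n) ℂ} {y : Fin n} {T T' : Strip R n}
    (h : T.reads y + (if y ∈ g.vars then 1 else 0) ≤ T'.reads y) :
    2 * T.reads y + cst g.vars 1 y + cst g.vars 1 y ≤ 2 * T'.reads y := by
  rw [cst]
  by_cases hy : y ∈ g.vars
  · rw [if_pos hy] at h ⊢
    omega
  · rw [if_neg hy] at h ⊢
    omega

theorem dst_add {T : Strip R n} (h : Dst M L I J T) (i j : Fin R) {g : MvPolynomial (Fin n) ℂ}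
    (hg : L g) : Dst M L I J (.add i j g T) := by
  have h1 := (h.add1 (.inl i) (.inr j) hg (subset_refl _)).add1 (.inr j) (.inl i) hg
    (subset_refl _)
  refine (h1.mono fun y => two_reads (T' := .add i j g T) (le_of_eq ?_)).congr ?_
  · show _ = T.reads y + _
    congr!
  refine four (AP := AP T) (act_r T) (act_c T) ?_ ?_ ?_ ?_
  · intro r c hr hc
    simp only [E2, E3_rc, rwp_l, rwp_r, clp_l, clp_r, false_and, and_false, if_false, add_zero]
    show _ = if kp I r && kp J c then T.entry (T.ix r) (T.ix c) +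
      (if T.ix r = T.port i ∧ T.ix c = T.port j then g else 0) else 0
    simp only [ix_port T i r hr, ix_port T j c hc]
    by_cases h : r = .inr i ∧ c = .inr j
    · rw [if_pos h, h.1, h.2]
      rfl
    · rw [if_neg h, add_zero, add_zero]
  · intro r c hr hc
    simp only [E2, E3_cr, rwp_l, rwp_r, clp_l, clp_r, false_and, and_false, if_false, add_zero]
    show _ = if kp I r && kp J c then T.entry (T.ix r) (T.ix c) +
      (if T.ix r = T.port i ∧ T.ix c = T.port j then g else 0) else 0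
    simp only [ix_port T i r hr, ix_port T j c hc]
    by_cases h : r = .inr i ∧ c = .inr j
    · rw [if_pos h, if_pos h.symm, h.1, h.2]
      rfl
    · rw [if_neg h, if_neg (c := c = .inr j ∧ r = .inr i) fun h' => h h'.symm, add_zero, add_zero]
  · intro r c hr hc
    simp only [E2, E3_rr, rwp_l, rwp_r, clp_l, clp_r, false_and, and_false, if_false, add_zero]
  · intro r c hr hc
    simp only [E2, E3_cc, rwp_l, rwp_r, clp_l, clp_r, false_and, and_false, if_false, add_zero]

theorem dst_col {T : Strip R n} (h : Dst M L I J T) (i j : Fin R) {g : MvPolynomial (Fin n) ℂ}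
    (hg : L g) : Dst M L I J (.col i j g T) := by
  have h1 := ((h.col1 (.inr i) (.inr j) hg (subset_refl _)).tr.col1 (.inr i) (.inr j) hg
    (subset_refl _)).tr
  refine (h1.mono fun y => two_reads (T' := .col i j g T) (le_of_eq ?_)).congr ?_
  · show _ = T.reads y + _
    congr!
  have hz : ∀ r : Fin M ⊕ Fin R, dg (kp J) r (.inr j) = (0 : MvPolynomial (Fin n) ℂ) := by
    intro r
    rw [dg, if_neg]
    rintro ⟨h1, h2⟩
    rw [h1] at h2
    exact Bool.noConfusion h2
  have hz' : ∀ r : Fin M ⊕ Fin R, dg (kp J) (.inr j) r = (0 : MvPolynomial (Fin n) ℂ) := by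
    intro r
    rw [dg, if_neg]
    rintro ⟨h1, h2⟩
    exact Bool.noConfusion h2
  refine four (AP := AP T) (act_r T) (act_c T) ?_ ?_ ?_ ?_
  · intro r c hr hc
    simp only [E2, rwp_r, clp_r, if_false, add_zero]
    simp only [clp_inr, E3_rc]
    show _ = if kp I r && kp J c then T.entry (T.ix r) (T.ix c) +
      (if T.ix c = T.port i then g * T.entry (T.ix r) (T.port j) else 0) else 0
    simp only [ix_port T i c hc]
    by_cases h : c = .inr i
    · rw [if_pos h, if_pos h, h]
      cases h2 : kp I r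
      · simp
      · rfl
    · rw [if_neg h, if_neg h, add_zero, add_zero]
  · intro r c hr hc
    simp only [E2, rwp_r, clp_r, if_false, add_zero]
    simp only [clp_inr, E3_cr]
    show _ = if kp I r && kp J c then T.entry (T.ix r) (T.ix c) +
      (if T.ix c = T.port i then g * T.entry (T.ix r) (T.port j) else 0) else 0
    simp only [ix_port T i c hc]
    by_cases h : c = .inr i
    · rw [if_pos h, if_pos h, h]
      cases h2 : kp I r
      · simp
      · rfl
    · rw [if_neg h, if_neg h, add_zero, add_zero]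
  · intro r c hr hc
    simp only [E2, E3_rr, rwp_r, if_false, add_zero]
  · intro r c hr hc
    simp only [E2, clp_r]
    simp only [clp_inr, E3_cc, hz, hz', mul_zero, ite_self, add_zero]

theorem dst_row {T : Strip R n} (h : Dst M L I J T) (i j : Fin R) {g : MvPolynomial (Fin n) ℂ}
    (hg : L g) : Dst M L I J (.row i j g T) := by
  have h1 := ((h.col1 (.inl i) (.inl j) hg (subset_refl _)).tr.col1 (.inl i) (.inl j) hg
    (subset_refl _)).tr
  refine (h1.mono fun y => two_reads (T' := .row i j g T) (le_of_eq ?_)).congr ?_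
  · show _ = T.reads y + _
    congr!
  have hz : ∀ r : Fin M ⊕ Fin R, dg (kp I) r (.inr j) = (0 : MvPolynomial (Fin n) ℂ) := by
    intro r
    rw [dg, if_neg]
    rintro ⟨h1, h2⟩
    rw [h1] at h2
    exact Bool.noConfusion h2
  have hz' : ∀ r : Fin M ⊕ Fin R, dg (kp I) (.inr j) r = (0 : MvPolynomial (Fin n) ℂ) := by
    intro r
    rw [dg, if_neg]
    rintro ⟨h1, h2⟩
    exact Bool.noConfusion h2
  refine four (AP := AP T) (act_r T) (act_c T) ?_ ?_ ?_ ?_
  · intro r c hr hc
    simp only [E2, rwp_l, clp_l, if_false, add_zero]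
    simp only [rwp_inr, E3_rc]
    show _ = if kp I r && kp J c then T.entry (T.ix r) (T.ix c) +
      (if T.ix r = T.port i then g * T.entry (T.port j) (T.ix c) else 0) else 0
    simp only [ix_port T i r hr]
    by_cases h : r = .inr i
    · rw [if_pos h, if_pos h, h]
      cases h2 : kp J c
      · simp
      · rfl
    · rw [if_neg h, if_neg h, add_zero, add_zero]
  · intro r c hr hc
    simp only [E2, rwp_l, clp_l, if_false, add_zero]
    simp only [rwp_inr, E3_cr]
    show _ = if kp I r && kp J c then T.entry (T.ix r) (T.ix c) +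
      (if T.ix r = T.port i then g * T.entry (T.port j) (T.ix c) else 0) else 0
    simp only [ix_port T i r hr]
    by_cases h : r = .inr i
    · rw [if_pos h, if_pos h, h]
      cases h2 : kp J c
      · simp
      · rfl
    · rw [if_neg h, if_neg h, add_zero, add_zero]
  · intro r c hr hc
    simp only [E2, rwp_l]
    simp only [rwp_inr, E3_rr, hz, hz', mul_zero, ite_self, add_zero]
  · intro r c hr hc
    simp only [E2, E3_cc, clp_l, if_false, add_zero]

end Pool.Agent.W936.SS
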