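import Mathlib
import Pool.Agent.W936.SS.Dst

/-!
The symmetric double of a matrix with ports: new indices.
-/

set_option autoImplicit false
set_option linter.unusedSectionVars false
set_option linter.unusedSimpArgs false

namespace Pool.Agent.W936.SS

open MvPolynomial Matrix

variable {R n M : ℕ}

/-- the ports which are removed -/
def rem (i : Fin R) (x y : Bool) : Fin R ⊕ Fin R → Bool
  | .inl a => decide (a = i) && !x
  | .inr a => decide (a = i) && !y

/-- identity entries at the removed ports -/
noncomputable def remZ (i : Fin R) (x y : Bool) (p q : Fin R ⊕ Fin R) : MvPolynomial (Fin n) ℂ :=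
  if p = q ∧ rem i x y p = true then C 1 else C 0

/-- the port `i` is kept if `x` -/
def kp' (k : Fin M ⊕ Fin R → Bool) (i : Fin R) (x : Bool) (r : Fin M ⊕ Fin R) : Bool :=
  if r = .inr i then x else k r

section

variable {E : (Fin M ⊕ Fin M) ⊕ (Fin R ⊕ Fin R) → (Fin M ⊕ Fin M) ⊕ (Fin R ⊕ Fin R) →
  MvPolynomial (Fin n) ℂ}

theorem zcolf_r (i : Fin R) (x y : Bool) (u : (Fin M ⊕ Fin M) ⊕ (Fin R ⊕ Fin R))
    (r : Fin M ⊕ Fin R) : zcolf (rem i x y) E u (rwp r) =
      if r = .inr i ∧ x = false then 0 else E u (rwp r) := by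
  rcases r with r | r
  · rw [if_neg (by simp)]
    rfl
  · show (if rem i x y (.inl r) then 0 else _) = _
    by_cases h : r = i
    · subst h
      cases x <;> simp [rem, rwp]
    · simp [rem, rwp, h]

theorem zcolf_c (i : Fin R) (x y : Bool) (u : (Fin M ⊕ Fin M) ⊕ (Fin R ⊕ Fin R))
    (r : Fin M ⊕ Fin R) : zcolf (rem i x y) E u (clp r) =
      if r = .inr i ∧ y = false then 0 else E u (clp r) := by
  rcases r with r | r
  · rw [if_neg (by simp)]
    rfl
  · show (if rem i x y (.inr r) then 0 else _) = _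
    by_cases h : r = i
    · subst h
      cases y <;> simp [rem, clp]
    · simp [rem, clp, h]

theorem prt_rr (i : Fin R) (x y : Bool) (r c : Fin M ⊕ Fin R) :
    prt (remZ i x y) (rwp r) (rwp c) =
      (if r = c ∧ r = .inr i ∧ x = false then 1 else 0 : MvPolynomial (Fin n) ℂ) := by
  rcases r with r | r <;> rcases c with c | c
  · rw [if_neg (by simp)]
    rfl
  · rw [if_neg (by simp)]
    rfl
  · rw [if_neg (by simp)]
    rfl
  · show remZ i x y (.inl r) (.inl c) = _
    by_cases h : r = c
    · subst h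
      by_cases h' : r = i
      · subst h'
        cases x <;> simp [remZ, rem]
      · simp [remZ, rem, h']
    · simp [remZ, rem, h]

theorem prt_cc (i : Fin R) (x y : Bool) (r c : Fin M ⊕ Fin R) :
    prt (remZ i x y) (clp r) (clp c) =
      (if r = c ∧ r = .inr i ∧ y = false then 1 else 0 : MvPolynomial (Fin n) ℂ) := by
  rcases r with r | r <;> rcases c with c | c
  · rw [if_neg (by simp)]
    rfl
  · rw [if_neg (by simp)]
    rfl
  · rw [if_neg (by simp)]
    rfl
  · show remZ i x y (.inr r) (.inr c) = _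
    by_cases h : r = c
    · subst h
      by_cases h' : r = i
      · subst h'
        cases y <;> simp [remZ, rem]
      · simp [remZ, rem, h']
    · simp [remZ, rem, h]

theorem prt_rc (i : Fin R) (x y : Bool) (r c : Fin M ⊕ Fin R) :
    prt (remZ i x y) (rwp r) (clp c) = (0 : MvPolynomial (Fin n) ℂ) := by
  rcases r with r | r <;> rcases c with c | c
  · rfl
  · rfl
  · rfl
  · show remZ i x y (.inl r) (.inr c) = _
    simp [remZ]

theorem prt_cr (i : Fin R) (x y : Bool) (r c : Fin M ⊕ Fin R) :
    prt (remZ i x y) (clp c) (rwp r) = (0 : MvPolynomial (Fin n) ℂ) := by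
  rcases r with r | r <;> rcases c with c | c
  · rfl
  · rfl
  · rfl
  · show remZ i x y (.inr c) (.inl r) = _
    simp [remZ]

end

variable {L : MvPolynomial (Fin n) ℂ → Prop} {I J : ℕ → Bool}

/-- the removed rows and columns -/
theorem dst_rem {c : Fin n → ℕ} {S : Finset (Fin M ⊕ Fin M)} {k l : Fin M ⊕ Fin R → Bool}
    {e : Fin M ⊕ Fin R → Fin M ⊕ Fin R → MvPolynomial (Fin n) ℂ} {i : Fin R}
    (h : Rch (finSumFinEquiv : Fin R ⊕ Fin R ≃ Fin (R + R)) L c S (E3 k l e))
    (hk : k (.inr i) = true) (hl : l (.inr i) = true)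
    (hL : ∀ z, L (C z)) (x y : Bool) :
    Rch (finSumFinEquiv : Fin R ⊕ Fin R ≃ Fin (R + R)) L c S (E3 (kp' k i x) (kp' l i y) e) := by
  have h1 := h.zcolB (rem i x y) (hL (-1))
  have h2 := h1.tr.zcolB (rem i x y) (hL (-1))
  have h3 := h2.tr.addB (remZ i x y) (W := ∅)
    (fun p q => by rw [remZ]; split_ifs <;> exact hL _)
    (fun p q => by rw [remZ]; split_ifs <;> rw [vars_C])
  refine (h3.mono fun z => ?_).congr ?_
  · rw [cst, if_neg (Finset.notMem_empty z), add_zero]
  have hd : ∀ (k : Fin M ⊕ Fin R → Bool) (x : Bool) (r c : Fin M ⊕ Fin R), k (.inr i) = true →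
      (if r = .inr i ∧ x = false then 0 else if c = .inr i ∧ x = false then 0 else dg k r c) +
        (if r = c ∧ r = .inr i ∧ x = false then 1 else 0) =
      (dg (kp' k i x) r c : MvPolynomial (Fin n) ℂ) := by
    intro k x r c hk
    rw [dg, dg]
    by_cases h1 : r = c
    · subst h1
      by_cases h2 : r = .inr i
      · subst h2
        cases x <;> simp [kp', hk]
      · simp [kp', h2]
    · simp [h1]
  have hz : ∀ (x y : Bool) (r c : Fin M ⊕ Fin R), (if r = .inr i ∧ x = false then 0 else
      if c = .inr i ∧ y = false then 0 else if (k r && l c) = true then e r c else 0) =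
      (if (kp' k i x r && kp' l i y c) = true then e r c else 0 : MvPolynomial (Fin n) ℂ) := by
    intro x y r c
    by_cases h1 : r = .inr i
    · subst h1
      by_cases h2 : c = .inr i
      · subst h2
        cases x <;> cases y <;> simp [kp', hk, hl]
      · cases x <;> simp [kp', hk, h2]
    · by_cases h2 : c = .inr i
      · subst h2
        cases y <;> simp [kp', hl, h1]
      · simp [kp', h1, h2]
  refine four (AP := fun _ => True) (fun _ _ => trivial) (fun _ _ => trivial) ?_ ?_ ?_ ?_
  · intro r c _ _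
    rw [zcolf_r, zcolf_c, E3_rc, prt_rc, add_zero, E3_rc]
    exact hz x y r c
  · intro r c _ _
    rw [zcolf_c, zcolf_r, E3_cr, prt_cr, add_zero, E3_cr, ← hz x y r c]
    by_cases h1 : r = .inr i ∧ x = false
    · rw [if_pos h1, if_pos h1, ite_self]
    · rw [if_neg h1, if_neg h1]
  · intro r c _ _
    rw [zcolf_r, zcolf_r, E3_rr, prt_rr, E3_rr]
    exact hd k x r c hk
  · intro r c _ _
    rw [zcolf_c, zcolf_c, E3_cc, prt_cc, E3_cc]
    exact hd l y r c hl

end Pool.Agent.W936.SS
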