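import Mathlib
import Pool.Agent.W936.SS.Dst2

/-!
The symmetric double of a matrix with ports: all descriptions.
-/

set_option autoImplicit false
set_option linter.unusedSectionVars false
set_option linter.unusedSimpArgs false

namespace Pool.Agent.W936.SS

open MvPolynomial Matrix

variable {R n M : ℕ}

/-- the vertex `P` comes from the port `i` -/
def mvp (P : Fin M) (i : Fin R) (r : Fin M ⊕ Fin R) : Fin M ⊕ Fin R :=
  if r = .inl P then .inr i else r

theorem mv_l_r (P : Fin M) (i : Fin R) (r : Fin M ⊕ Fin R) :
    mv (.inl P : Fin M ⊕ Fin M) (.inl i : Fin R ⊕ Fin R) (rwp r) = rwp (mvp P i r) := by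
  rcases r with r | r
  · by_cases h : r = P
    · subst h
      simp [mv, rwp, mvp]
    · simp [mv, rwp, mvp, h]
  · simp [mv, rwp, mvp]

theorem mv_l_c (P : Fin M) (i : Fin R) (r : Fin M ⊕ Fin R) :
    mv (.inl P : Fin M ⊕ Fin M) (.inl i : Fin R ⊕ Fin R) (clp r) = clp r := by
  rcases r with r | r <;> simp [mv, clp]

theorem mv_r_r (P : Fin M) (i : Fin R) (r : Fin M ⊕ Fin R) :
    mv (.inr P : Fin M ⊕ Fin M) (.inr i : Fin R ⊕ Fin R) (rwp r) = rwp r := by
  rcases r with r | r <;> simp [mv, rwp]

theorem mv_r_c (P : Fin M) (i : Fin R) (r : Fin M ⊕ Fin R) :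
    mv (.inr P : Fin M ⊕ Fin M) (.inr i : Fin R ⊕ Fin R) (clp r) = clp (mvp P i r) := by
  rcases r with r | r
  · by_cases h : r = P
    · subst h
      simp [mv, clp, mvp]
    · simp [mv, clp, mvp, h]
  · simp [mv, clp, mvp]

theorem ina_next (T : Strip R n) (i : Fin R) (a : ℕ) :
    ina (.next i T) a ↔ a = T.port i ∨ ina T a := by
  constructor
  · rintro ⟨h1, h2⟩
    change a < T.order + 1 at h1
    have h3 : ∀ j, Function.update T.port i T.order j ≠ a := h2
    have h4 : T.order ≠ a := by
      have := h3 i
      rwa [Function.update_self] at this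
    by_cases h5 : a = T.port i
    · exact Or.inl h5
    · right
      refine ⟨by omega, fun j hj => ?_⟩
      by_cases h6 : j = i
      · rw [h6] at hj
        exact h5 hj.symm
      · have := h3 j
        rw [Function.update_of_ne h6] at this
        exact this hj
  · rintro (h | ⟨h1, h2⟩)
    · have h0 := port_lt T i
      refine ⟨?_, fun j hj => ?_⟩
      · show a < T.order + 1
        omega
      · change Function.update T.port i T.order j = a at hj
        by_cases h6 : j = i
        · rw [h6, Function.update_self] at hj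
          omega
        · rw [Function.update_of_ne h6, h] at hj
          exact h6 (port_inj T hj)
    · refine ⟨?_, fun j hj => ?_⟩
      · show a < T.order + 1
        omega
      · change Function.update T.port i T.order j = a at hj
        by_cases h6 : j = i
        · rw [h6, Function.update_self] at hj
          omega
        · rw [Function.update_of_ne h6] at hj
          exact h2 j hj

variable {L : MvPolynomial (Fin n) ℂ → Prop} {I J : ℕ → Bool}

theorem dst_next {T : Strip R n} (h : Dst M L I J T) (hL : ∀ z, L (C z)) (i : Fin R)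
    (hp : T.port i < M) : Dst M L I J (.next i T) := by
  set P : Fin M := ⟨T.port i, hp⟩ with hP
  have h1 := dst_rem (i := i) h rfl rfl hL (I (T.port i)) (J (T.port i))
  have hv1 : (.inl P : Fin M ⊕ Fin M) ∉ ST M T := by
    rw [mem_ST]
    intro hc
    exact hc.2 i rfl
  have hv2 : (.inr P : Fin M ⊕ Fin M) ∉ insert (.inl P) (ST M T) := by
    rw [Finset.mem_insert, not_or]
    refine ⟨by simp, ?_⟩
    rw [mem_ST]
    intro hc
    exact hc.2 i rfl
  have h2 := (h1.next1 (.inl i) (.inl P) hv1).next1 (.inr i) (.inr P) hv2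
  have hS : insert (.inr P) (insert (.inl P) (ST M T)) = ST M (.next i T) := by
    ext v
    rw [Finset.mem_insert, Finset.mem_insert, mem_ST, mem_ST, ina_next]
    rcases v with v | v
    · simp [lx, hP, Fin.ext_iff]
    · simp [lx, hP, Fin.ext_iff]
  rw [hS] at h2
  refine (h2.mono fun y => le_rfl).congr ?_
  -- the data at old positions
  have hk : ∀ (I : ℕ → Bool) (r : Fin M ⊕ Fin R), r ≠ .inr i →
      kp' (kp I) i (I (T.port i)) (mvp P i r) = kp I r := by
    intro I r hr
    by_cases h1 : r = .inl P
    · rw [h1, mvp, if_pos rfl, kp', if_pos rfl]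
      rfl
    · rw [mvp, if_neg h1, kp', if_neg hr]
  have hx : ∀ r : Fin M ⊕ Fin R, r ≠ .inr i →
      T.ix (mvp P i r) = (Strip.next i T).ix r := by
    intro r hr
    by_cases h1 : r = .inl P
    · rw [h1, mvp, if_pos rfl]
      rfl
    · rw [mvp, if_neg h1]
      rcases r with r | r
      · rfl
      · have h2 : r ≠ i := fun hc => hr (congrArg _ hc)
        show T.port r = Function.update T.port i T.order r
        rw [Function.update_of_ne h2]
  have hi : (Strip.next i T).ix (.inr i : Fin M ⊕ Fin R) = T.order := by
    show Function.update T.port i T.order i = T.order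
    rw [Function.update_self]
  have hinj : ∀ r c : Fin M ⊕ Fin R, r ≠ .inr i → c ≠ .inr i → mvp P i r = mvp P i c → r = c := by
    intro r c hr hc hrc
    by_cases h1 : r = .inl P
    · by_cases h2 : c = .inl P
      · rw [h1, h2]
      · rw [mvp, mvp, if_pos h1, if_neg h2] at hrc
        exact absurd hrc.symm hc
    · by_cases h2 : c = .inl P
      · rw [mvp, mvp, if_neg h1, if_pos h2] at hrc
        exact absurd hrc hr
      · rw [mvp, mvp, if_neg h1, if_neg h2] at hrc
        exact hrc
  have he : ∀ r c : Fin M ⊕ Fin R, (if c = .inr i then 0 else if r = .inr i then 0 else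
      if (kp' (kp I) i (I (T.port i)) (mvp P i r) && kp' (kp J) i (J (T.port i)) (mvp P i c)) =
        true then T.entry (T.ix (mvp P i r)) (T.ix (mvp P i c)) else 0) =
      if (kp I r && kp J c) = true then (Strip.next i T).entry ((Strip.next i T).ix r)
        ((Strip.next i T).ix c) else 0 := by
    intro r c
    by_cases h1 : c = .inr i
    · subst h1
      rw [if_pos rfl, hi]
      have h3 : (Strip.next i T).entry ((Strip.next i T).ix r) T.order = 0 :=
        entry_out T _ _ (Or.inr le_rfl)
      rw [h3, ite_self]
    · rw [if_neg h1]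
      by_cases h2 : r = .inr i
      · subst h2
        rw [if_pos rfl, hi]
        have h3 : (Strip.next i T).entry T.order ((Strip.next i T).ix c) = 0 :=
          entry_out T _ _ (Or.inl le_rfl)
        rw [h3, ite_self]
      · rw [if_neg h2, hk I r h2, hk J c h1, hx r h2, hx c h1]
        rfl
  have hd : ∀ (I : ℕ → Bool) (r c : Fin M ⊕ Fin R), (if r = .inr i ∨ c = .inr i then 0 else
      dg (kp' (kp I) i (I (T.port i))) (mvp P i r) (mvp P i c)) =
      (dg (kp I) r c : MvPolynomial (Fin n) ℂ) := by
    intro I r c
    by_cases h1 : r = .inr i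
    · subst h1
      rw [if_pos (Or.inl rfl), dg, if_neg]
      rintro ⟨_, h⟩
      exact Bool.noConfusion h
    · by_cases h2 : c = .inr i
      · subst h2
        rw [if_pos (Or.inr rfl), dg, if_neg]
        rintro ⟨h, _⟩
        exact h1 h
      · rw [if_neg (not_or.2 ⟨h1, h2⟩), dg, dg, hk I r h1]
        by_cases h3 : r = c
        · subst h3
          simp
        · rw [if_neg fun h => h3 (hinj r c h1 h2 h.1), if_neg fun h => h3 h.1]
  refine four (AP := fun _ => True) (fun _ _ => trivial) (fun _ _ => trivial) ?_ ?_ ?_ ?_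
  · intro r c _ _
    simp only [rwp_r, clp_r, mv_r_r, mv_r_c, rwp_l, clp_l, mv_l_r, mv_l_c, false_or, or_false,
      E3_rc, E2]
    exact he r c
  · intro r c _ _
    simp only [rwp_r, clp_r, mv_r_r, mv_r_c, rwp_l, clp_l, mv_l_r, mv_l_c, false_or, or_false,
      E3_cr, E2]
    exact he r c
  · intro r c _ _
    simp only [rwp_r, clp_r, mv_r_r, mv_r_c, rwp_l, clp_l, mv_l_r, mv_l_c, false_or, or_false,
      or_self, if_false, E3_rr, E2]
    exact hd I r c
  · intro r c _ _
    simp only [rwp_r, clp_r, mv_r_r, mv_r_c, rwp_l, clp_l, mv_l_r, mv_l_c, false_or, or_false,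
      or_self, if_false, E3_cc, E2]
    exact hd J r c

theorem dst_all (hL : ∀ z, L (C z)) (T : Strip R n) (hT : T.Entries L) (hM : T.order ≤ M) :
    Dst M L I J T := by
  induction T with
  | start => exact dst_start
  | add i j g T ih => exact dst_add (ih hT.2 hM) i j hT.1
  | col i j g T ih => exact dst_col (ih hT.2 hM) i j hT.1
  | row i j g T ih => exact dst_row (ih hT.2 hM) i j hT.1
  | next i T ih =>
    have h1 : T.order + 1 ≤ M := hM
    exact dst_next (ih hT (by omega)) hL i ((port_lt T i).trans_le (by omega))

end Pool.Agent.W936.SS
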