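import Mathlib
import Pool.Agent.W936.SS.Dst3

/-!
Minors of matrices with ports divide determinants of matrices with ports.
-/

set_option autoImplicit false
set_option linter.unusedSectionVars false
set_option linter.unusedSimpArgs false

namespace Pool.Agent.W936.SS

open MvPolynomial Matrix

open Pool.Agent.W936.VN (Prg prg_mono prg_const)

section mask

variable {A X ι : Type} [CommRing A] [Fintype X] [DecidableEq X] [Fintype ι] [DecidableEq ι]

open Classical in
/-- the indices, those in the range first -/
noncomputable def splx (f : ι → X) (hf : Function.Injective f) :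
    ι ⊕ ((Set.range f)ᶜ : Set X) ≃ X :=
  (Equiv.sumCongr (Equiv.ofInjective f hf) (Equiv.refl _)).trans (Equiv.Set.sumCompl (Set.range f))

theorem mask_det (N : Matrix X X A) (f g : ι → X) (hf : Function.Injective f)
    (hg : Function.Injective g) (I J : X → Bool) (hI : ∀ t, I (f t) = true)
    (hI' : ∀ x, x ∉ Set.range f → I x = false) (hJ : ∀ t, J (g t) = true)
    (hJ' : ∀ x, x ∉ Set.range g → J x = false) (D : Matrix (X ⊕ X) (X ⊕ X) A)
    (h11 : ∀ a b, D (.inl a) (.inl b) = if a = b ∧ I a = false then 1 else 0)
    (h12 : ∀ a b, D (.inl a) (.inr b) = if I a && J b then N a b else 0)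
    (h21 : ∀ a b, D (.inr b) (.inl a) = if I a && J b then N a b else 0)
    (h22 : ∀ a b, D (.inr a) (.inr b) = if a = b ∧ J a = false then 1 else 0) :
    ∃ ε : A, ε * ε = 1 ∧ D.det = ε * ((N.submatrix f g).det * (N.submatrix f g).det) := by
  classical
  obtain ⟨ε, h1, h2⟩ := det_double (N.submatrix f g)
  refine ⟨ε, h1, ?_⟩
  set φ : (ι ⊕ ι) ⊕ (((Set.range f)ᶜ : Set X) ⊕ ((Set.range g)ᶜ : Set X)) ≃ X ⊕ X :=
    (Equiv.sumSumSumComm _ _ _ _).trans (Equiv.sumCongr (splx f hf) (splx g hg)) with hφ
  rw [← h2, ← Matrix.det_submatrix_equiv_self φ]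
  have h3 : D.submatrix φ φ =
      fromBlocks (fromBlocks 0 (N.submatrix f g) (N.submatrix f g)ᵀ 0) 0 0
        (1 : Matrix (((Set.range f)ᶜ : Set X) ⊕ ((Set.range g)ᶜ : Set X))
          (((Set.range f)ᶜ : Set X) ⊕ ((Set.range g)ᶜ : Set X)) A) := by
    ext1 a b
    rcases a with (t | t) | (u | u)
    · rcases b with (t' | t') | (u' | u')
      · show D (.inl (f t)) (.inl (f t')) = 0
        rw [h11, hI, if_neg]
        rintro ⟨_, h⟩
        exact Bool.noConfusion h
      · show D (.inl (f t)) (.inr (g t')) = N (f t) (g t')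
        rw [h12, hI, hJ]
        rfl
      · show D (.inl (f t)) (.inl u'.1) = 0
        rw [h11, hI, if_neg]
        rintro ⟨_, h⟩
        exact Bool.noConfusion h
      · show D (.inl (f t)) (.inr u'.1) = 0
        rw [h12, hJ' _ u'.2, Bool.and_false]
        rfl
    · rcases b with (t' | t') | (u' | u')
      · show D (.inr (g t)) (.inl (f t')) = N (f t') (g t)
        rw [h21, hI, hJ]
        rfl
      · show D (.inr (g t)) (.inr (g t')) = 0
        rw [h22, hJ, if_neg]
        rintro ⟨_, h⟩
        exact Bool.noConfusion h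
      · show D (.inr (g t)) (.inl u'.1) = 0
        rw [h21, hI' _ u'.2, Bool.false_and]
        rfl
      · show D (.inr (g t)) (.inr u'.1) = 0
        rw [h22, hJ, if_neg]
        rintro ⟨_, h⟩
        exact Bool.noConfusion h
    · rcases b with (t' | t') | (u' | u')
      · show D (.inl u.1) (.inl (f t')) = 0
        rw [h11, if_neg]
        rintro ⟨h, _⟩
        exact u.2 ⟨t', h.symm⟩
      · show D (.inl u.1) (.inr (g t')) = 0
        rw [h12, hI' _ u.2, Bool.false_and]
        rfl
      · show D (.inl u.1) (.inl u'.1) = _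
        rw [h11, hI' _ u.2, fromBlocks_apply₂₂]
        by_cases h : u = u'
        · subst h
          rw [if_pos ⟨rfl, rfl⟩, Matrix.one_apply_eq]
        · rw [if_neg fun hc => h (Subtype.ext hc.1),
            Matrix.one_apply_ne fun hc => h (Sum.inl_injective hc)]
      · show D (.inl u.1) (.inr u'.1) = _
        rw [h12, hI' _ u.2, Bool.false_and, fromBlocks_apply₂₂,
          Matrix.one_apply_ne Sum.inl_ne_inr]
        rfl
    · rcases b with (t' | t') | (u' | u')
      · show D (.inr u.1) (.inl (f t')) = 0
        rw [h21, hJ' _ u.2, Bool.and_false]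
        rfl
      · show D (.inr u.1) (.inr (g t')) = 0
        rw [h22, if_neg]
        rintro ⟨h, _⟩
        exact u.2 ⟨t', h.symm⟩
      · show D (.inr u.1) (.inl u'.1) = _
        rw [h21, hJ' _ u.2, Bool.and_false, fromBlocks_apply₂₂,
          Matrix.one_apply_ne Sum.inr_ne_inl]
        rfl
      · show D (.inr u.1) (.inr u'.1) = _
        rw [h22, hJ' _ u.2, fromBlocks_apply₂₂]
        by_cases h : u = u'
        · subst h
          rw [if_pos ⟨rfl, rfl⟩, Matrix.one_apply_eq]
        · rw [if_neg fun hc => h (Subtype.ext hc.1),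
            Matrix.one_apply_ne fun hc => h (Sum.inr_injective hc)]
  rw [h3, Matrix.det_fromBlocks_zero₂₁, Matrix.det_one, mul_one]

end mask

variable {R n : ℕ} {L : MvPolynomial (Fin n) ℂ → Prop} {I J : ℕ → Bool}

/-- new ports -/
def fresh (T : Strip R n) : List (Fin R) → Strip R n
  | [] => T
  | i :: l => .next i (fresh T l)

theorem fresh_entry (T : Strip R n) (l : List (Fin R)) : (fresh T l).entry = T.entry := by
  induction l with
  | nil => rfl
  | cons i l ih => exact ih

theorem fresh_entries {T : Strip R n} (h : T.Entries L) (l : List (Fin R)) :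
    (fresh T l).Entries L := by
  induction l with
  | nil => exact h
  | cons i l ih => exact ih

theorem fresh_reads (T : Strip R n) (l : List (Fin R)) (y : Fin n) :
    (fresh T l).reads y = T.reads y := by
  induction l with
  | nil => rfl
  | cons i l ih => exact ih

theorem fresh_order (T : Strip R n) (l : List (Fin R)) : T.order ≤ (fresh T l).order := by
  induction l with
  | nil => exact le_rfl
  | cons i l ih => exact ih.trans (Nat.le_succ _)

theorem fresh_port (T : Strip R n) (l : List (Fin R)) :
    (∀ i ∉ l, (fresh T l).port i = T.port i) ∧ ∀ i ∈ l, T.order ≤ (fresh T l).port i := by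
  induction l with
  | nil => exact ⟨fun _ _ => rfl, fun i hi => absurd hi List.not_mem_nil⟩
  | cons j l ih =>
    constructor
    · intro i hi
      rw [List.mem_cons, not_or] at hi
      show Function.update (fresh T l).port j (fresh T l).order i = _
      rw [Function.update_of_ne hi.1, ih.1 i hi.2]
    · intro i hi
      show _ ≤ Function.update (fresh T l).port j (fresh T l).order i
      by_cases h : i = j
      · rw [h, Function.update_self]
        exact fresh_order T l
      · rw [Function.update_of_ne h]
        exact ih.2 i ((List.mem_cons.1 hi).resolve_left h)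

theorem dst_fresh (hL : ∀ z, L (C z)) (T : Strip R n) (hT : T.Entries L) (l : List (Fin R))
    (hl : l.Nodup) : Dst T.order L I J (fresh T l) := by
  induction l with
  | nil => exact dst_all hL T hT le_rfl
  | cons i l ih =>
    rw [List.nodup_cons] at hl
    refine dst_next (ih hl.2) hL i ?_
    rw [(fresh_port T l).1 i hl.1]
    exact port_lt T i

open Classical in
/-- the indices in the range of a selection -/
noncomputable def rgn {ι : Type} {M : ℕ} (f : ι → Fin M) (a : ℕ) : Bool :=
  decide (∃ t, ((f t : Fin M) : ℕ) = a)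

theorem strip_double (hL : ∀ z, L (C z)) (T : Strip R n) (hT : T.Entries L) {ι : Type}
    [Fintype ι] [DecidableEq ι] (f g : ι → Fin T.order) (hf : Function.Injective f)
    (hg : Function.Injective g) : ∃ (T' : Strip (R + R) n) (ε : MvPolynomial (Fin n) ℂ),
      T'.Entries L ∧ (∀ y, T'.reads y ≤ 2 * T.reads y) ∧ ε * ε = 1 ∧
      T'.mat.det = ε * ((T.mat.submatrix f g).det * (T.mat.submatrix f g).det) := by
  classical
  set F := fresh T (List.finRange R) with hF
  have h1 : Dst T.order L (rgn f) (rgn g) F := dst_fresh hL T hT _ (List.nodup_finRange R)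
  have h2 := Rch.addB h1 (fun p q => if p = q then C 1 else C 0) (W := ∅)
    (fun p q => by split_ifs <;> exact hL _)
    (fun p q => by split_ifs <;> rw [vars_C])
  have hS : ST T.order F = Finset.univ := by
    refine Finset.eq_univ_iff_forall.2 fun v => ?_
    rw [mem_ST]
    have h3 : lx v < T.order := by
      rcases v with v | v
      · exact v.2
      · exact v.2
    refine ⟨h3.trans_le (fresh_order T _), fun i hi => ?_⟩
    have h4 := (fresh_port T (List.finRange R)).2 i (List.mem_finRange i)
    rw [← hF, hi] at h4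
    exact absurd h3 (not_lt.2 h4)
  rw [hS] at h2
  obtain ⟨T', x, h5, h6, h7⟩ := h2
  have hp : ∀ i, T.order ≤ F.port i := fun i =>
    (fresh_port T (List.finRange R)).2 i (List.mem_finRange i)
  have hel : ∀ a i, F.entry a (F.port i) = 0 := fun a i => by
    rw [hF, fresh_entry]
    exact entry_out T _ _ (Or.inr (hp i))
  have her : ∀ a i, F.entry (F.port i) a = 0 := fun a i => by
    rw [hF, fresh_entry]
    exact entry_out T _ _ (Or.inl (hp i))
  set D : Matrix (Fin T.order ⊕ Fin T.order) (Fin T.order ⊕ Fin T.order)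
    (MvPolynomial (Fin n) ℂ) := Matrix.of fun u v => E2 T.order (rgn f) (rgn g) F (.inl u) (.inl v)
    with hD
  have h8 : T'.mat.det = D.det := by
    rw [rep_det h5]
    have h9 : (Matrix.of fun u v => E2 T.order (rgn f) (rgn g) F u v +
        prt (fun p q => if p = q then C 1 else C 0) u v : Matrix ((Fin T.order ⊕ Fin T.order) ⊕
        (Fin R ⊕ Fin R)) ((Fin T.order ⊕ Fin T.order) ⊕ (Fin R ⊕ Fin R))
        (MvPolynomial (Fin n) ℂ)) = fromBlocks D 0 0 1 := by
      ext1 u v
      rcases u with u | p <;> rcases v with v | q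
      · show E2 T.order (rgn f) (rgn g) F (.inl u) (.inl v) + 0 = D u v
        rw [add_zero]
        rfl
      · show E2 T.order (rgn f) (rgn g) F (.inl u) (.inr q) + 0 = 0
        rcases u with u | u <;> rcases q with q | q
        · simp [E2, E3, dg]
        · simp [E2, E3, Strip.ix, hel]
        · simp [E2, E3, Strip.ix, her]
        · simp [E2, E3, dg]
      · show E2 T.order (rgn f) (rgn g) F (.inr p) (.inl v) + 0 = 0
        rcases p with p | p <;> rcases v with v | v
        · simp [E2, E3, dg]
        · simp [E2, E3, Strip.ix, her]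
        · simp [E2, E3, Strip.ix, hel]
        · simp [E2, E3, dg]
      · show E2 T.order (rgn f) (rgn g) F (.inr p) (.inr q) + (if p = q then C 1 else C 0) =
          (1 : Matrix _ _ (MvPolynomial (Fin n) ℂ)) p q
        have h10 : E2 T.order (rgn f) (rgn g) F (.inr p) (.inr q) = 0 := by
          rcases p with p | p <;> rcases q with q | q
          · simp [E2, E3, dg, kp]
          · simp [E2, E3, Strip.ix, her]
          · simp [E2, E3, Strip.ix, her]
          · simp [E2, E3, dg, kp]
        rw [h10, zero_add, Matrix.one_apply, C_1, C_0]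
    rw [h9, Matrix.det_fromBlocks_zero₂₁, Matrix.det_one, mul_one]
  have hin : ∀ (f : ι → Fin T.order) (x : Fin T.order), x ∉ Set.range f →
      rgn f (x : ℕ) = false := by
    intro f x hx
    rw [rgn, decide_eq_false_iff_not]
    rintro ⟨t, ht⟩
    exact hx ⟨t, Fin.ext ht⟩
  have hin' : ∀ (f : ι → Fin T.order) (t : ι), rgn f (f t : ℕ) = true := by
    intro f t
    simp only [rgn, decide_eq_true_eq]
    exact ⟨t, rfl⟩
  have k11 : ∀ a b : Fin T.order, D (.inl a) (.inl b) =
      if a = b ∧ rgn f (a : ℕ) = false then 1 else 0 := by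
    intro a b
    show dg (kp (rgn f)) (.inl a) (.inl b) = _
    rw [dg]
    refine if_congr ?_ rfl rfl
    rw [Sum.inl.injEq]
    rfl
  have k12 : ∀ a b : Fin T.order, D (.inl a) (.inr b) =
      if rgn f (a : ℕ) && rgn g (b : ℕ) then T.mat a b else 0 := by
    intro a b
    show (if kp (rgn f) (.inl a) && kp (rgn g) (.inl b) then F.entry a b else 0) = _
    rw [hF, fresh_entry]
    rfl
  have k21 : ∀ a b : Fin T.order, D (.inr b) (.inl a) =
      if rgn f (a : ℕ) && rgn g (b : ℕ) then T.mat a b else 0 := by
    intro a b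
    show (if kp (rgn f) (.inl a) && kp (rgn g) (.inl b) then F.entry a b else 0) = _
    rw [hF, fresh_entry]
    rfl
  have k22 : ∀ a b : Fin T.order, D (.inr a) (.inr b) =
      if a = b ∧ rgn g (a : ℕ) = false then 1 else 0 := by
    intro a b
    show dg (kp (rgn g)) (.inl a) (.inl b) = _
    rw [dg]
    refine if_congr ?_ rfl rfl
    rw [Sum.inl.injEq]
    rfl
  obtain ⟨ε, h11, h12⟩ := mask_det T.mat f g hf hg (fun a => rgn f (a : ℕ))
    (fun a => rgn g (a : ℕ)) (hin' f) (hin f) (hin' g) (hin g) D k11 k12 k21 k22
  refine ⟨T', ε, h6, fun y => ?_, h11, h8.trans h12⟩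
  have h13 : T'.reads y ≤ 2 * F.reads y +
    cst ∅ (Fintype.card ((Fin R ⊕ Fin R) × (Fin R ⊕ Fin R))) y := h7 y
  rw [cst, if_neg (Finset.notMem_empty y), add_zero, hF, fresh_reads] at h13
  exact h13

end Pool.Agent.W936.SS
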