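import Mathlib
import Pool.Agent.W936.SS.Dst4

/-!
Points which hit all minors and preserve all ranks.
-/

set_option autoImplicit false
set_option linter.unusedSectionVars false

namespace Pool.Agent.W936.SS

open MvPolynomial Matrix

open Pool.Agent.W936.VN

variable {n : ℕ}

/-- The points `P` hit all factors of degree at most `d` of products of polynomials with the
property `Q`. -/
def Hits (P : Finset (Fin n → ℤ)) (d : ℕ) (Q : MvPolynomial (Fin n) ℂ → Prop) : Prop :=
  ∀ (l : List (MvPolynomial (Fin n) ℂ)) (f : MvPolynomial (Fin n) ℂ), (∀ h ∈ l, Q h) →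
    f ∣ l.prod → f.totalDegree ≤ d → ∃ p ∈ P, eval (fun i => (p i : ℂ)) f ≠ 0

/-- The points `P` decide whether the matrix `M` is singular, if its determinant has degree at most
`d`, and the rank (over the field of rational functions) of every submatrix of `M` with `a` rows,
`b` columns and entries of degree at most `δ` is its maximal rank at the points, if
`min a b * δ ≤ d`. -/
def Tests (P : Finset (Fin n → ℤ)) (d : ℕ) {ι : Type} [Fintype ι] [DecidableEq ι]
    (M : Matrix ι ι (MvPolynomial (Fin n) ℂ)) : Prop :=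
  (M.det.totalDegree ≤ d →
    (M.det ≠ 0 ↔ ∃ p ∈ P, (M.map (eval fun i => (p i : ℂ))).det ≠ 0)) ∧
  ∀ (δ a b : ℕ) (u : Fin a → ι) (v : Fin b → ι), (∀ i j, (M (u i) (v j)).totalDegree ≤ δ) →
    min a b * δ ≤ d →
    (∀ p : Fin n → ℤ, rankAt (M.submatrix u v) p ≤ grank (M.submatrix u v)) ∧
    ∃ p ∈ P, rankAt (M.submatrix u v) p = grank (M.submatrix u v)

theorem tests_of_hits {P : Finset (Fin n → ℤ)} {d : ℕ} {Q : MvPolynomial (Fin n) ℂ → Prop}
    (h : Hits P d Q) {ι : Type} [Fintype ι] [DecidableEq ι]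
    {M : Matrix ι ι (MvPolynomial (Fin n) ℂ)}
    (hM : ∀ (b : ℕ) (u v : Fin b → ι), (M.submatrix u v).det ≠ 0 → Q (M.submatrix u v).det) :
    Tests P d M := by
  refine ⟨fun hd => ⟨fun h0 => ?_, ?_⟩, ?_⟩
  · set e := (Fintype.equivFin ι).symm with he
    have h1 : (M.submatrix e e).det = M.det := Matrix.det_submatrix_equiv_self e _
    obtain ⟨p, hp, hpe⟩ := h [M.det] M.det (fun g hg => by
      rw [List.mem_singleton] at hg
      rw [hg, ← h1]
      refine hM _ e e ?_
      rw [h1]
      exact h0) (by simp) hd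
    refine ⟨p, hp, ?_⟩
    rwa [RingHom.map_det] at hpe
  · rintro ⟨p, _, hp⟩ h0
    apply hp
    have h1 := congrArg (eval fun i => (p i : ℂ)) h0
    rw [RingHom.map_det, map_zero] at h1
    exact h1
  · intro δ a b u v hδ hd
    refine ⟨fun p => rankAt_le _ p, ?_⟩
    obtain ⟨e, f, h1, h2⟩ := grank_minor (M.submatrix u v)
    have h3 : grank (M.submatrix u v) ≤ min a b := by
      refine le_min ?_ ?_
      · exact (Matrix.rank_le_card_height _).trans (le_of_eq (Fintype.card_fin a))
      · exact (Matrix.rank_le_card_width _).trans (le_of_eq (Fintype.card_fin b))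
    obtain ⟨p, hp, hpe⟩ := h [((M.submatrix u v).submatrix e f).det]
      ((M.submatrix u v).submatrix e f).det (fun g hg => by
        rw [List.mem_singleton] at hg
        rw [hg]
        exact hM _ (u ∘ e) (v ∘ f) h1) (by simp)
      ((degree_det _ δ fun i j => hδ (e i) (f j)).trans (by
        rw [Fintype.card_fin]
        exact (Nat.mul_le_mul_right δ h3).trans hd))
    exact ⟨p, hp, h2 p hpe⟩

theorem hits_of {W s D d : ℕ} {P : Finset (Fin n → ℤ)} {Q : MvPolynomial (Fin n) ℂ → Prop}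
    (h₀ : ∀ (F : Multiset (MvPolynomial (Fin n) ℂ)) (f : MvPolynomial (Fin n) ℂ),
      (∀ g ∈ F, Prg W s D g ∧ g ≠ 0) → f ∣ F.prod → f.totalDegree ≤ d →
      ∃ p ∈ P, eval (fun i => (p i : ℂ)) f ≠ 0)
    (hQ : ∀ h, Q h → ∃ g : MvPolynomial (Fin n) ℂ, (Prg W s D g ∧ g ≠ 0) ∧ h ∣ g) :
    Hits P d Q := by
  intro l f hl hdvd hd
  have h1 : ∀ h ∈ l, ∃ g : MvPolynomial (Fin n) ℂ, (Prg W s D g ∧ g ≠ 0) ∧ h ∣ g :=
    fun h hh => hQ h (hl h hh)
  choose! F hF using h1
  have h2 : ∀ l' : List (MvPolynomial (Fin n) ℂ), (∀ h ∈ l', h ∣ F h) →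
      l'.prod ∣ (l'.map F).prod := by
    intro l'
    induction l' with
    | nil => intro _; exact dvd_refl _
    | cons a l' ih =>
      intro h
      rw [List.map_cons, List.prod_cons, List.prod_cons]
      exact mul_dvd_mul (h a (List.mem_cons_self ..))
        (ih fun b hb => h b (List.mem_cons_of_mem _ hb))
  refine h₀ (Multiset.ofList (l.map F)) f (fun g hg => ?_) ?_ hd
  · obtain ⟨h, hh, rfl⟩ := List.mem_map.1 (Multiset.mem_coe.1 hg)
    exact (hF h hh).1
  · rw [Multiset.prod_coe]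
    exact hdvd.trans (h2 l fun h hh => (hF h hh).2)

/-- `h` is a nonzero minor of a matrix built along a line with `R` ports. -/
def SMinor (w s D R : ℕ) (h : MvPolynomial (Fin n) ℂ) : Prop :=
  h ≠ 0 ∧ ∃ (T : Strip R n) (b : ℕ) (u v : Fin b → Fin T.order),
    T.Entries (Prg w s D) ∧ (∀ x, T.reads x ≤ w) ∧ h = (T.mat.submatrix u v).det

/-- nonzero minors divide nonzero polynomials computed by linear programs -/
theorem sminor_prg {w s D R : ℕ} {h : MvPolynomial (Fin n) ℂ} (hh : SMinor w s D R h) :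
    ∃ g : MvPolynomial (Fin n) ℂ,
      (Prg (2 * w + 2 ^ ((R + R) * (R + R))) (s + 2) (D + 1) g ∧ g ≠ 0) ∧ h ∣ g := by
  obtain ⟨h0, T, b, f, g, hT, hr, rfl⟩ := hh
  have hf : Function.Injective f := by
    intro i j hij
    by_contra hne
    refine h0 (Matrix.det_zero_of_row_eq hne ?_)
    funext k
    rw [Matrix.submatrix_apply, Matrix.submatrix_apply, hij]
  have hg : Function.Injective g := by
    intro i j hij
    by_contra hne
    refine h0 (Matrix.det_zero_of_column_eq hne fun k => ?_)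
    rw [Matrix.submatrix_apply, Matrix.submatrix_apply, hij]
  obtain ⟨T', ε, h1, h2, h3, h4⟩ := strip_double (L := Prg (2 * w) (s + 1) D)
    (fun z => prg_const z) T
    (entries_imp (fun g hg => prg_wide (W := 2 * w) (by omega) (prg_mono hg)) hT) f g hf hg
  refine ⟨T'.mat.det, ⟨det_prg h1 fun x => (h2 x).trans (Nat.mul_le_mul_left 2 (hr x)), ?_⟩, ?_⟩
  · rw [h4]
    refine mul_ne_zero (fun hε => ?_) (mul_ne_zero h0 h0)
    rw [hε, mul_zero] at h3
    exact zero_ne_one h3
  · rw [h4]
    exact ⟨ε * (T.mat.submatrix f g).det, by ring⟩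

end Pool.Agent.W936.SS
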